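import Mathlib

set_option autoImplicit false

open Polynomial

namespace Pool.Agent.H208Z.Img

/-- Reduction modulo large primes of a finitely generated subring of a field of
characteristic zero. -/
theorem exists_spec (K : Type) [Field K] [CharZero K] (s : Finset K) :
    ∃ R : Subring K, (∀ x ∈ s, x ∈ R) ∧ ∃ N : ℕ, ∀ p : ℕ, p.Prime → N < p →
      ∃ (k : Type) (_ : Field k) (_ : CharP k p), Nonempty (R →+* k) := by
  classical
  let R0 : Subalgebra ℤ K := Algebra.adjoin ℤ (s : Set K)
  have hft : Algebra.FiniteType ℤ R0 :=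
    (Subalgebra.fg_iff_finiteType R0).1 (Subalgebra.fg_adjoin_finset s)
  have hfp : Algebra.FinitePresentation ℤ R0 :=
    (Algebra.FinitePresentation.of_finiteType).1 hft
  have hc := PrimeSpectrum.isConstructible_range_comap
    (RingHom.finitePresentation_algebraMap.2 hfp)
  obtain ⟨S, hS⟩ := PrimeSpectrum.exists_constructibleSetData_iff.2 hc
  have hbot : (⊥ : PrimeSpectrum ℤ) ∈ S.toSet := by
    rw [hS]
    refine ⟨⊥, ?_⟩
    ext x
    simp only [PrimeSpectrum.comap_asIdeal, Ideal.mem_comap, PrimeSpectrum.asIdeal_bot,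
      Ideal.mem_bot]
    constructor
    · intro hx
      have h1 : ((algebraMap ℤ R0 x : R0) : K) = 0 := by rw [hx]; rfl
      have h2 : ((x : ℤ) : K) = 0 := by simpa using h1
      exact_mod_cast h2
    · rintro rfl
      simp
  simp only [PrimeSpectrum.ConstructibleSetData.toSet, Set.mem_iUnion] at hbot
  obtain ⟨C, hC, hC1, hC2⟩ := hbot
  have hf : C.f ≠ 0 := by
    intro h
    apply hC2
    rw [h]
    simp
  have hg : ∀ i, C.g i = 0 := by
    intro i
    have := hC1 (Set.mem_range_self i)
    simpa using this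
  refine ⟨R0.toSubring, fun x hx => Algebra.subset_adjoin hx, C.f.natAbs, fun p hp hN => ?_⟩
  have hpz : Prime (p : ℤ) := Nat.prime_iff_prime_int.1 hp
  let P : PrimeSpectrum ℤ := ⟨Ideal.span {(p : ℤ)}, (Ideal.span_singleton_prime hpz.ne_zero).2 hpz⟩
  have hP : P ∈ S.toSet := by
    simp only [PrimeSpectrum.ConstructibleSetData.toSet, Set.mem_iUnion]
    refine ⟨C, hC, ?_, ?_⟩
    · rintro _ ⟨i, rfl⟩
      rw [hg i]
      exact zero_mem _
    · intro h
      have h1 : C.f ∈ Ideal.span {(p : ℤ)} := h (Set.mem_singleton _)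
      rw [Ideal.mem_span_singleton] at h1
      have h2 : p ∣ C.f.natAbs := Int.natCast_dvd.1 h1
      have h3 := Nat.le_of_dvd (Int.natAbs_pos.2 hf) h2
      omega
  rw [hS] at hP
  obtain ⟨Q, hQ⟩ := hP
  have hpQ : ((p : ℕ) : R0) ∈ Q.asIdeal := by
    have h1 : (p : ℤ) ∈ P.asIdeal := Ideal.mem_span_singleton_self _
    rw [← hQ] at h1
    simpa using h1
  obtain ⟨M, hM, hQM⟩ := Ideal.exists_le_maximal Q.asIdeal Q.isPrime.ne_top
  let _ := Ideal.Quotient.field M
  have hp0 : ((p : ℕ) : R0 ⧸ M) = 0 := by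
    rw [← map_natCast (Ideal.Quotient.mk M), Ideal.Quotient.eq_zero_iff_mem]
    exact hQM hpQ
  exact ⟨R0 ⧸ M, inferInstance, (CharP.charP_iff_prime_eq_zero hp).2 hp0,
    ⟨Ideal.Quotient.mk M⟩⟩

/-- A truncated exponential in characteristic `p`. -/
theorem exists_trunc_exp {k : Type} [Field k] (p : ℕ) (hp : p.Prime) [CharP k p] (a : k[X])
    (ha0 : a.coeff 0 = 0) (hd : a.natDegree + 1 < p) :
    ∃ E : k[X], E.coeff 0 = 1 ∧ X ^ p ∣ derivative E + a * E := by
  have hne : ∀ j : ℕ, 1 ≤ j → j < p → (j : k) ≠ 0 := by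
    intro j h1 h2 h
    have := Nat.le_of_dvd h1 ((CharP.cast_eq_zero_iff k p j).1 h)
    omega
  obtain ⟨P, hP1, hP2⟩ : ∃ P : k[X], derivative P = a ∧ X ^ 2 ∣ P := by
    refine ⟨∑ j ∈ Finset.range (a.natDegree + 1), monomial (j + 1) (a.coeff j / ((j + 1 : ℕ) : k)),
      ?_, ?_⟩
    · rw [map_sum]
      conv_rhs => rw [a.as_sum_range]
      refine Finset.sum_congr rfl fun j hj => ?_
      rw [Finset.mem_range] at hj
      rw [derivative_monomial_succ]
      have := hne (j + 1) (by omega) (by omega)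
      congr 1
      push_cast at this ⊢
      field_simp
    · refine Finset.dvd_sum fun j _ => ?_
      rcases j with _ | j
      · simp [ha0]
      · rw [← C_mul_X_pow_eq_monomial]
        exact Dvd.dvd.mul_left (pow_dvd_pow X (by omega)) _
  have key : ∀ n : ℕ, n < p →
      derivative (∑ j ∈ Finset.range (n + 1), C ((j.factorial : k)⁻¹) * (-P) ^ j) =
        -(a * ∑ j ∈ Finset.range n, C ((j.factorial : k)⁻¹) * (-P) ^ j) := by
    intro n
    induction n with
    | zero => intro _; simp
    | succ n ih =>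
      intro hn
      rw [Finset.sum_range_succ, map_add, ih (by omega), Finset.sum_range_succ _ n, mul_add,
        neg_add]
      congr 1
      rw [derivative_C_mul, derivative_pow_succ, map_neg, hP1]
      have h1 := hne (n + 1) (by omega) hn
      have h2 : (((n + 1).factorial : ℕ) : k)⁻¹ * ((n : k) + 1) = (n.factorial : k)⁻¹ := by
        rw [Nat.factorial_succ]
        push_cast at h1 ⊢
        rw [mul_inv, mul_assoc, mul_comm (n.factorial : k)⁻¹, ← mul_assoc, inv_mul_cancel₀ h1,
          one_mul]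
      rw [← h2, C_mul]
      ring
  obtain ⟨q, rfl⟩ : ∃ q, p = q + 1 := ⟨p - 1, by have := hp.two_le; omega⟩
  refine ⟨∑ j ∈ Finset.range (q + 1), C ((j.factorial : k)⁻¹) * (-P) ^ j, ?_, ?_⟩
  · rw [Finset.sum_range_succ', coeff_add, finsetSum_coeff]
    have hP0 : P.coeff 0 = 0 := (X_pow_dvd_iff.1 hP2) 0 (by omega)
    simp [coeff_zero_eq_eval_zero] at hP0 ⊢
    simp [hP0]
  · rw [key q (by omega), Finset.sum_range_succ, mul_add]
    obtain ⟨P', rfl⟩ := hP2
    obtain ⟨a', rfl⟩ := X_dvd_iff.2 ha0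
    refine ⟨X ^ q * a' * C ((q.factorial : k)⁻¹) * (-P') ^ q, ?_⟩
    have : (-(X ^ 2 * P')) ^ q = X ^ q * X ^ q * (-P') ^ q := by
      rw [← mul_pow, ← mul_pow]
      congr 1
      ring
    rw [this]
    ring

theorem charp_contra {k : Type} [Field k] (p : ℕ) (hp : p.Prime) [CharP k p] (a G : k[X])
    (f0 : k) (r j : ℕ) (ha0 : a.coeff 0 = 0) (hd : a.natDegree + 1 < p) (hr : r * j + 1 = p)
    (hG : G.coeff 0 ≠ 0)
    (H : ∀ m : ℕ, 1 ≤ m → ∃ h : k[X], derivative h - a * h = (C f0 + X ^ r * G) ^ m) : False := by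
  have : Fact p.Prime := ⟨hp⟩
  obtain ⟨E, hE0, hE⟩ := exists_trunc_exp p hp a ha0 hd
  have hp2 := hp.two_le
  have hr1 : 1 ≤ r := by
    rcases r with _ | r
    · simp at hr; omega
    · omega
  have hj1 : 1 ≤ j := by
    rcases j with _ | j
    · simp at hr; omega
    · omega
  set f : k[X] := C f0 + X ^ r * G with hf
  have h1 : ∀ m : ℕ, 1 ≤ m → (f ^ m * E).coeff (r * j) = 0 := by
    intro m hm
    obtain ⟨h, hh⟩ := H m hm
    rw [← hh]
    have e1 : (derivative h - a * h) * E = derivative (h * E) - h * (derivative E + a * E) := by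
      rw [derivative_mul]; ring
    rw [e1, coeff_sub, coeff_derivative]
    have e2 : ((r * j : ℕ) : k) + 1 = 0 := by
      have := CharP.cast_eq_zero k p
      rw [← hr] at this
      exact_mod_cast this
    rw [e2, mul_zero, zero_sub, neg_eq_zero]
    exact (X_pow_dvd_iff.1 (Dvd.dvd.mul_left hE h)) _ (by omega)
  have h2 : ((X ^ r * G) ^ j * E).coeff (r * j) = G.coeff 0 ^ j := by
    rw [mul_pow, ← pow_mul, mul_assoc]
    have := coeff_X_pow_mul (G ^ j * E) (r * j) 0
    rw [zero_add] at this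
    rw [this, mul_coeff_zero, hE0, mul_one]
    simp [coeff_zero_eq_eval_zero]
  by_cases h0 : f0 = 0
  · have := h1 j hj1
    rw [hf, h0, C_0, zero_add, h2] at this
    exact hG (pow_eq_zero_iff (by omega) |>.1 this)
  · have h3 : (f ^ p * (X ^ r * G) ^ j * E).coeff (r * j) = 0 := by
      have e : X ^ r * G = f + C (-f0) := by rw [hf, C_neg]; ring
      rw [e, add_pow f (C (-f0)) j, Finset.mul_sum, Finset.sum_mul, finsetSum_coeff]
      refine Finset.sum_eq_zero fun i _ => ?_
      have e2 : f ^ p * (f ^ i * C (-f0) ^ (j - i) * (j.choose i : k[X])) * E =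
          C ((-f0) ^ (j - i) * (j.choose i : k)) * (f ^ (p + i) * E) := by
        rw [C_mul, C_pow, map_natCast, pow_add]; ring
      rw [e2, coeff_C_mul, h1 _ (by omega), mul_zero]
    have e3 : f ^ p = C (f0 ^ p) + (X ^ r * G) ^ p := by
      rw [hf, add_pow_char, C_pow]
    rw [e3, add_mul, add_mul, coeff_add, mul_assoc, coeff_C_mul, h2] at h3
    have h4 : ((X ^ r * G) ^ p * (X ^ r * G) ^ j * E).coeff (r * j) = 0 := by
      have : X ^ p ∣ (X ^ r * G) ^ p * (X ^ r * G) ^ j * E := by
        refine Dvd.dvd.mul_right (Dvd.dvd.mul_right (pow_dvd_pow_of_dvd ?_ p) _) _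
        exact Dvd.dvd.mul_right (dvd_pow_self X (by omega)) _
      exact (X_pow_dvd_iff.1 this) _ (by omega)
    rw [h4, add_zero] at h3
    exact (mul_ne_zero (pow_ne_zero _ h0) (pow_ne_zero _ hG)) h3


/-- Descent of the solution `h` to a subring. -/
theorem lifts_of_D {K : Type} [Field K] (R : Subring K) (a : K[X]) (hd : 1 ≤ a.natDegree)
    (ha : ∀ i, a.coeff i ∈ R) (hl : a.leadingCoeff⁻¹ ∈ R) :
    ∀ (n : ℕ) (h : K[X]), h.support.card = n → (∀ i, (derivative h - a * h).coeff i ∈ R) →
      ∀ i, h.coeff i ∈ R := by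
  have ha0 : a ≠ 0 := by rintro rfl; simp at hd
  intro n
  induction n with
  | zero =>
    intro h hh _ i
    rw [Finset.card_eq_zero, support_eq_empty] at hh
    rw [hh]
    exact R.zero_mem
  | succ n ih =>
    intro h hh hD
    have hne : h ≠ 0 := by rintro rfl; simp at hh
    have hlc : h.leadingCoeff ∈ R := by
      have h1 := hD (a.natDegree + h.natDegree)
      rw [coeff_sub, coeff_mul_degree_add_degree, coeff_derivative,
        coeff_eq_zero_of_natDegree_lt (by omega), zero_mul, zero_sub] at h1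
      have h2 := R.mul_mem hl (R.neg_mem h1)
      rwa [neg_neg, ← mul_assoc, inv_mul_cancel₀ (leadingCoeff_ne_zero.2 ha0), one_mul] at h2
    have hsplit := eraseLead_add_monomial_natDegree_leadingCoeff h
    have hmono : ∀ i, (monomial h.natDegree h.leadingCoeff).coeff i ∈ R := by
      intro i
      rw [coeff_monomial]
      split_ifs
      · exact hlc
      · exact R.zero_mem
    have h3 : ∀ i, h.eraseLead.coeff i ∈ R := by
      refine ih _ (card_support_eraseLead' hh) fun i => ?_
      have e : derivative h.eraseLead - a * h.eraseLead = (derivative h - a * h) -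
          (derivative (monomial h.natDegree h.leadingCoeff) -
            a * monomial h.natDegree h.leadingCoeff) := by
        conv_rhs => rw [← hsplit]
        simp only [eraseLead_add_monomial_natDegree_leadingCoeff]
        rw [eq_sub_of_add_eq hsplit, map_sub]
        ring
      rw [e, coeff_sub]
      refine R.sub_mem (hD i) ?_
      rw [coeff_sub, coeff_derivative, coeff_mul]
      refine R.sub_mem (R.mul_mem (hmono _) (R.add_mem (natCast_mem R _) R.one_mem)) ?_
      exact R.sum_mem fun x _ => R.mul_mem (ha _) (hmono _)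
    intro i
    rw [← hsplit, coeff_add]
    exact R.add_mem (h3 i) (hmono i)

theorem exists_lift {K : Type} [Field K] (R : Subring K) (g : K[X]) (hg : ∀ i, g.coeff i ∈ R) :
    ∃ g' : R[X], g'.map R.subtype = g := by
  have : g ∈ lifts R.subtype := by
    rw [lifts_iff_coeff_lifts]
    intro n
    exact ⟨⟨_, hg n⟩, rfl⟩
  exact this

theorem exists_X_pow_mul {K : Type} [Field K] (g : K[X]) (hg : g ≠ 0) :
    ∃ (r : ℕ) (G : K[X]), g = X ^ r * G ∧ G.coeff 0 ≠ 0 := by
  obtain ⟨G, h1, h2⟩ := exists_eq_pow_rootMultiplicity_mul_and_not_dvd g hg 0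
  rw [C_0, sub_zero] at h1 h2
  exact ⟨_, G, h1, fun h => h2 (X_dvd_iff.2 h)⟩

theorem field_case_root {K : Type} [Field K] [CharZero K] (a f : K[X]) (hd : 1 ≤ a.natDegree)
    (ha0 : a.coeff 0 = 0) (H : ∀ m : ℕ, 1 ≤ m → ∃ h : K[X], derivative h - a * h = f ^ m) :
    f = 0 := by
  classical
  by_contra hf
  have hane : a ≠ 0 := by rintro rfl; simp at hd
  by_cases hG : f - C (f.coeff 0) = 0
  · obtain ⟨h, hh⟩ := H 1 le_rfl
    have hne : h ≠ 0 := by
      rintro rfl
      apply hf
      simpa using hh.symm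
    have h1 := congrArg (fun q => q.coeff (a.natDegree + h.natDegree)) hh
    simp only [pow_one] at h1
    rw [coeff_sub, coeff_mul_degree_add_degree, coeff_derivative,
      coeff_eq_zero_of_natDegree_lt (by omega), zero_mul, zero_sub, sub_eq_zero.1 hG, coeff_C,
      if_neg (by omega), neg_eq_zero] at h1
    exact mul_ne_zero (leadingCoeff_ne_zero.2 hane) (leadingCoeff_ne_zero.2 hne) h1
  obtain ⟨r, G, hG1, hG2⟩ := exists_X_pow_mul _ hG
  have hr : r ≠ 0 := by
    rintro rfl
    apply hG2
    rw [pow_zero, one_mul] at hG1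
    rw [← hG1]
    simp
  have hfe : f = C (f.coeff 0) + X ^ r * G := by rw [← hG1]; ring
  obtain ⟨R, hR, N, hN⟩ := exists_spec K
    (a.coeffs ∪ G.coeffs ∪ {f.coeff 0, a.leadingCoeff⁻¹, (G.coeff 0)⁻¹})
  have hco : ∀ g : K[X], (∀ x ∈ g.coeffs, x ∈ R) → ∀ i, g.coeff i ∈ R := by
    intro g hg i
    by_cases h : g.coeff i = 0
    · rw [h]; exact R.zero_mem
    · exact hg _ (coeff_mem_coeffs h)
  have haR := hco a fun x hx => hR x (by simp [hx])
  have hGR := hco G fun x hx => hR x (by simp [hx])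
  have hf0 : f.coeff 0 ∈ R := hR _ (by simp)
  have hlR : a.leadingCoeff⁻¹ ∈ R := hR _ (by simp)
  have hGi : (G.coeff 0)⁻¹ ∈ R := hR _ (by simp)
  obtain ⟨p, hp, hpN, hpr⟩ := Nat.exists_prime_gt_modEq_one (N + a.natDegree + 1) hr
  obtain ⟨k, _, _, ⟨ψ⟩⟩ := hN p hp (by omega)
  obtain ⟨j, hj⟩ : ∃ j, r * j + 1 = p := by
    have h1 : r ∣ p - 1 := (Nat.modEq_iff_dvd' hp.one_le).1 hpr.symm
    obtain ⟨j, hj⟩ := h1
    exact ⟨j, by have := hp.one_le; omega⟩
  obtain ⟨a', ha'⟩ := exists_lift R a haR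
  obtain ⟨G', hG'⟩ := exists_lift R G hGR
  have hinj : Function.Injective R.subtype := Subtype.val_injective
  have hf' : (C (⟨_, hf0⟩ : R) + X ^ r * G').map R.subtype = f := by
    rw [Polynomial.map_add, Polynomial.map_mul, Polynomial.map_pow, map_C, map_X, hG']
    exact hfe.symm
  refine charp_contra p hp (a'.map ψ) (G'.map ψ) (ψ ⟨_, hf0⟩) r j ?_ ?_ hj ?_ ?_
  · rw [coeff_map]
    have : a'.coeff 0 = 0 := by
      apply hinj
      rw [← coeff_map, ha', ha0, map_zero]
    rw [this, map_zero]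
  · have h1 : (a'.map ψ).natDegree ≤ a'.natDegree := natDegree_map_le
    have h2 : a'.natDegree = a.natDegree := by
      rw [← ha', natDegree_map_eq_of_injective hinj]
    omega
  · rw [coeff_map]
    have h1 : G'.coeff 0 * ⟨_, hGi⟩ = 1 := by
      apply hinj
      rw [map_mul, ← coeff_map, hG', map_one]
      exact mul_inv_cancel₀ hG2
    intro h0
    have h2 := congrArg ψ h1
    rw [map_mul, h0, zero_mul, map_one] at h2
    exact zero_ne_one h2
  · intro m hm
    obtain ⟨h, hh⟩ := H m hm
    have hhR : ∀ i, h.coeff i ∈ R := by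
      refine lifts_of_D R a hd haR hlR _ h rfl fun i => ?_
      rw [hh, ← hf', ← Polynomial.map_pow, coeff_map]
      exact Subtype.property _
    obtain ⟨h', hh'⟩ := exists_lift R h hhR
    have e : derivative h' - a' * h' = (C (⟨_, hf0⟩ : R) + X ^ r * G') ^ m := by
      apply map_injective _ hinj
      rw [Polynomial.map_pow, hf', Polynomial.map_sub, Polynomial.map_mul, ← derivative_map, hh',
        ha', hh]
    refine ⟨h'.map ψ, ?_⟩
    rw [derivative_map, ← Polynomial.map_mul, ← Polynomial.map_sub, e, Polynomial.map_pow,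
      Polynomial.map_add, Polynomial.map_mul, Polynomial.map_pow, map_C, map_X]

/-- Over a field of characteristic zero, for `c ≠ 0` and nonconstant `a`, only `f = 0` has all its
powers in the image of `c ∂ - a`. -/
theorem field_case {K : Type} [Field K] [CharZero K] (c : K) (hc : c ≠ 0) (a f : K[X])
    (hd : 1 ≤ a.natDegree)
    (H : ∀ m : ℕ, 1 ≤ m → ∃ h : K[X], C c * derivative h - a * h = f ^ m) : f = 0 := by
  let L := AlgebraicClosure K
  let φ : K →+* L := algebraMap K L
  have hinj : Function.Injective φ := φ.injective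
  let a1 : L[X] := (C c⁻¹ * a).map φ
  have hd1 : a1.natDegree = a.natDegree := by
    rw [natDegree_map_eq_of_injective hinj, natDegree_C_mul (inv_ne_zero hc)]
  obtain ⟨α, hα⟩ := IsAlgClosed.exists_root a1 (by
    intro h
    have := natDegree_eq_of_degree_eq_some (n := 0) h
    omega)
  have key := field_case_root (taylor α a1) (taylor α (f.map φ)) (by rw [natDegree_taylor]; omega)
    (by rw [taylor_coeff_zero]; exact hα) (by
      intro m hm
      obtain ⟨h, hh⟩ := H m hm
      refine ⟨taylor α ((C c * h).map φ), ?_⟩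
      have e1 : ∀ q : L[X], derivative (taylor α q) = taylor α (derivative q) := by
        intro q
        rw [taylor_apply, taylor_apply, derivative_comp]
        simp
      rw [e1, ← taylor_mul, ← map_sub, ← taylor_pow, derivative_map, ← Polynomial.map_mul,
        ← Polynomial.map_sub, ← Polynomial.map_pow, ← hh]
      congr 2
      rw [derivative_C_mul]
      congr 1
      have : C c⁻¹ * C c = (1 : K[X]) := by rw [← C_mul, inv_mul_cancel₀ hc, C_1]
      linear_combination (a * h) * this)
  rw [taylor_eq_zero] at key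
  exact (Polynomial.map_eq_zero_iff hinj).1 key

end Pool.Agent.H208Z.Img
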