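import Mathlib
import Pool.Agent.H208Z.ImgSpec

set_option autoImplicit false

open Polynomial

namespace Pool.Agent.H208Z.Img

/-- The functional `X ^ k ↦ w k`. -/
noncomputable def Lw {S : Type} [CommRing S] (w : ℕ → ℕ) : S[X] →ₗ[S] S :=
  lsum fun k => (w k : S) • LinearMap.id

theorem Lw_monomial {S : Type} [CommRing S] (w : ℕ → ℕ) (k : ℕ) (x : S) :
    Lw w (monomial k x) = (w k : S) * x := by
  simp [Lw, lsum_apply, sum_monomial_index]

theorem Lw_eq_sum {S : Type} [CommRing S] (w : ℕ → ℕ) (g : S[X]) (n : ℕ) (hn : g.natDegree < n) :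
    Lw w g = ∑ k ∈ Finset.range n, (w k : S) * g.coeff k := by
  conv_lhs => rw [g.as_sum_range' n hn]
  rw [map_sum]
  simp only [Lw_monomial]

theorem Lw_map {S T : Type} [CommRing S] [CommRing T] (w : ℕ → ℕ) (ψ : S →+* T) (g : S[X]) :
    Lw w (g.map ψ) = ψ (Lw w g) := by
  induction g using Polynomial.induction_on' with
  | add p q hp hq => rw [Polynomial.map_add, map_add, map_add, map_add, hp, hq]
  | monomial n x => rw [Polynomial.map_monomial, Lw_monomial, Lw_monomial, map_mul, map_natCast]

theorem Lw_X_pow_mul {S : Type} [CommRing S] (n : ℕ) (g : S[X]) :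
    Lw Nat.factorial (X ^ n * g) =
      (n.factorial : S) * Lw (fun k => (n + 1).ascFactorial k) g := by
  induction g using Polynomial.induction_on' with
  | add p q hp hq => rw [mul_add, map_add, map_add, hp, hq, mul_add]
  | monomial k x =>
    rw [X_pow_mul_monomial, Lw_monomial, Lw_monomial, ← mul_assoc, ← Nat.cast_mul,
      Nat.factorial_mul_ascFactorial, add_comm]

theorem Lw_derivative_sub {S : Type} [CommRing S] (H : S[X]) :
    Lw Nat.factorial (derivative H - H) = -H.coeff 0 := by
  induction H using Polynomial.induction_on' with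
  | add p q hp hq =>
    have : derivative (p + q) - (p + q) = (derivative p - p) + (derivative q - q) := by
      rw [map_add]; ring
    rw [this, map_add, hp, hq, coeff_add]
    ring
  | monomial k x =>
    rcases k with _ | k
    · rw [derivative_monomial, map_sub, Lw_monomial, Lw_monomial]
      simp
    · rw [derivative_monomial_succ, map_sub, Lw_monomial, Lw_monomial, Nat.factorial_succ]
      simp [coeff_monomial]
      ring

theorem Lw_mem {S : Type} [CommRing S] (w : ℕ → ℕ) (I : Ideal S) (g : S[X])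
    (hg : ∀ i, g.coeff i ∈ I) : Lw w g ∈ I := by
  rw [Lw_eq_sum w g _ (Nat.lt_succ_self _)]
  exact I.sum_mem fun i _ => I.mul_mem_left _ (hg i)

/-- The one variable factorial theorem. -/
theorem factorial_field {K : Type} [Field K] [CharZero K] (F : K[X])
    (H : ∀ m : ℕ, 1 ≤ m → Lw Nat.factorial (F ^ m) = 0) : F = 0 := by
  classical
  by_contra hF
  obtain ⟨r, G, hG1, hG2⟩ := exists_X_pow_mul _ hF
  obtain ⟨R, hR, N, hN⟩ := exists_spec K (G.coeffs ∪ {(G.coeff 0)⁻¹})
  have hGR : ∀ i, G.coeff i ∈ R := by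
    intro i
    by_cases h : G.coeff i = 0
    · rw [h]; exact R.zero_mem
    · exact hR _ (by simp [coeff_mem_coeffs h])
  have hGi : (G.coeff 0)⁻¹ ∈ R := hR _ (by simp)
  obtain ⟨p, hpN, hp⟩ := Nat.exists_infinite_primes (N + 1)
  obtain ⟨k, _, _, ⟨ψ⟩⟩ := hN p hp (by omega)
  have : Fact p.Prime := ⟨hp⟩
  obtain ⟨G', hG'⟩ := exists_lift R G hGR
  have hinj : Function.Injective R.subtype := Subtype.val_injective
  have h1 := H p hp.one_le
  rw [hG1, mul_pow, ← pow_mul, Lw_X_pow_mul, mul_eq_zero] at h1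
  have h2 : Lw (fun k => (r * p + 1).ascFactorial k) (G ^ p) = 0 :=
    h1.resolve_left (by exact_mod_cast (Nat.factorial_ne_zero _))
  have h3 : Lw (fun k => (r * p + 1).ascFactorial k) (G' ^ p) = 0 := by
    apply hinj
    rw [← Lw_map, Polynomial.map_pow, hG', h2, map_zero]
  have h4 : Lw (fun k => (r * p + 1).ascFactorial k) ((G'.map ψ) ^ p) = 0 := by
    rw [← Polynomial.map_pow, Lw_map, h3, map_zero]
  have h5 : (G'.map ψ).coeff 0 ≠ 0 := by
    rw [coeff_map]
    have h1 : G'.coeff 0 * ⟨_, hGi⟩ = 1 := by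
      apply hinj
      rw [map_mul, ← coeff_map, hG', map_one]
      exact mul_inv_cancel₀ hG2
    intro h0
    have h2 := congrArg ψ h1
    rw [map_mul, h0, zero_mul, map_one] at h2
    exact zero_ne_one h2
  rw [Lw_eq_sum _ _ _ (Nat.lt_succ_self _), Finset.sum_range_succ', Finset.sum_eq_zero] at h4
  · apply h5
    simpa [coeff_zero_eq_eval_zero, hp.ne_zero] using h4
  · intro i _
    by_cases hi : p ∣ i + 1
    · have : p ∣ (r * p + 1).ascFactorial (i + 1) := by
        rw [Nat.ascFactorial_eq_prod_range]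
        have hle := Nat.le_of_dvd (Nat.succ_pos _) hi
        have hp1 := hp.one_le
        refine Dvd.dvd.trans ?_ (Finset.dvd_prod_of_mem _ (a := p - 1) (by
          rw [Finset.mem_range]; omega))
        exact ⟨r + 1, by rw [mul_add, mul_one, mul_comm p r]; omega⟩
      rw [(CharP.cast_eq_zero_iff k p _).2 this, zero_mul]
    · rw [← map_frobenius_expand, coeff_map, coeff_expand hp.pos, if_neg hi, map_zero, mul_zero]

/-- Finitely many moments are enough, uniformly in the field. -/
theorem factorial_uniform (n : ℕ) : ∃ N : ℕ, ∀ (K : Type) [Field K] [CharZero K] (F : K[X]),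
    F.natDegree ≤ n → (∀ m : ℕ, 1 ≤ m → m ≤ N → Lw Nat.factorial (F ^ m) = 0) → F = 0 := by
  let U := MvPolynomial (Fin (n + 1)) ℚ
  let F0 : U[X] := ∑ i : Fin (n + 1), monomial i (MvPolynomial.X i)
  let I : ℕ →o Ideal U :=
    { toFun := fun N => Ideal.span {y | ∃ m, 1 ≤ m ∧ m ≤ N ∧ y = Lw Nat.factorial (F0 ^ m)}
      monotone' := by
        intro N N' h
        refine Ideal.span_mono ?_
        rintro y ⟨m, h1, h2, rfl⟩
        exact ⟨m, h1, h2.trans h, rfl⟩ }
  obtain ⟨N, hN⟩ := (monotone_stabilizes_iff_noetherian (R := U) (M := U)).2 inferInstance I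
  refine ⟨N, fun K _ _ F hF H => factorial_field F fun m hm => ?_⟩
  let ev : U →+* K := (MvPolynomial.aeval (R := ℚ) fun i : Fin (n + 1) => F.coeff i).toRingHom
  have hev : F0.map ev = F := by
    rw [Polynomial.map_sum]
    conv_rhs => rw [F.as_sum_range' (n + 1) (by omega), Finset.sum_range]
    refine Finset.sum_congr rfl fun i _ => ?_
    rw [Polynomial.map_monomial]
    congr 1
    exact MvPolynomial.aeval_X _ i
  have hle : I N ≤ RingHom.ker ev := by
    refine Ideal.span_le.2 ?_
    rintro y ⟨m, h1, h2, rfl⟩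
    rw [SetLike.mem_coe, RingHom.mem_ker, ← Lw_map, Polynomial.map_pow, hev]
    exact H m h1 h2
  have hm' : Lw Nat.factorial (F0 ^ m) ∈ I N := by
    rw [hN (max N m) (le_max_left _ _)]
    exact Ideal.subset_span ⟨m, hm, le_max_right _ _, rfl⟩
  have := hle hm'
  rwa [RingHom.mem_ker, ← Lw_map, Polynomial.map_pow, hev] at this

end Pool.Agent.H208Z.Img
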