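import Mathlib
import Pool.Agent.H208Z.ImgFact

set_option autoImplicit false

open Polynomial

namespace Pool.Agent.H208Z.Img

variable {A S : Type} [CommRing A] [CommRing S] [Algebra A S]

/-- Polynomials `∑ w_r X ^ r` with `w_r θ ^ j ∈ N` for all `j ≤ r`. -/
def Sharp (θ : S) (N : Submodule A S) (w : S[X]) : Prop :=
  ∀ r j : ℕ, j ≤ r → w.coeff r * θ ^ j ∈ N

variable {θ : S}

theorem Sharp.mono {N N' : Submodule A S} (h : N ≤ N') {w : S[X]} (hw : Sharp θ N w) :
    Sharp θ N' w := fun r j hj => h (hw r j hj)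

theorem Sharp.coeff_mem {N : Submodule A S} {w : S[X]} (hw : Sharp θ N w) (r : ℕ) :
    w.coeff r ∈ N := by simpa using hw r 0 (Nat.zero_le _)

theorem Sharp.add {N : Submodule A S} {w w' : S[X]} (hw : Sharp θ N w) (hw' : Sharp θ N w') :
    Sharp θ N (w + w') := fun r j hj => by
  rw [coeff_add, add_mul]
  exact N.add_mem (hw r j hj) (hw' r j hj)

theorem Sharp.neg {N : Submodule A S} {w : S[X]} (hw : Sharp θ N w) : Sharp θ N (-w) :=
  fun r j hj => by
    rw [coeff_neg, neg_mul]
    exact N.neg_mem (hw r j hj)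

theorem Sharp.C_mul {N : Submodule A S} {w : S[X]} (hw : Sharp θ N w) (x : A) :
    Sharp θ N (C (algebraMap A S x) * w) := fun r j hj => by
  rw [coeff_C_mul, mul_assoc, ← Algebra.smul_def]
  exact N.smul_mem _ (hw r j hj)

theorem Sharp.mul {N N' : Submodule A S} {w w' : S[X]} (hw : Sharp θ N w) (hw' : Sharp θ N' w') :
    Sharp θ (N * N') (w * w') := fun r j hj => by
  rw [coeff_mul, Finset.sum_mul]
  refine Submodule.sum_mem _ fun x hx => ?_
  rw [Finset.HasAntidiagonal.mem_antidiagonal] at hx
  have e : w.coeff x.1 * w'.coeff x.2 * θ ^ j =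
      (w.coeff x.1 * θ ^ (min j x.1)) * (w'.coeff x.2 * θ ^ (j - min j x.1)) := by
    have : θ ^ j = θ ^ (min j x.1) * θ ^ (j - min j x.1) := by
      rw [← pow_add]; congr 1; omega
    rw [this]; ring
  rw [e]
  exact Submodule.mul_mem_mul (hw _ _ (by omega)) (hw' _ _ (by omega))

theorem Sharp.pow {N : Submodule A S} {w : S[X]} (hw : Sharp θ N w) (k : ℕ) :
    Sharp θ (N ^ k) (w ^ k) := by
  induction k with
  | zero =>
    intro r j hj
    rw [pow_zero, pow_zero, coeff_one]
    split_ifs with h
    · have : j = 0 := by omega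
      rw [this, pow_zero, mul_one]
      exact Submodule.one_le.1 le_rfl
    · rw [zero_mul]; exact zero_mem _
  | succ k ih => rw [pow_succ, pow_succ]; exact ih.mul hw

theorem natCast_succ_mul_mem {N : Submodule A S} {x : S} (hx : x ∈ N) (r : ℕ) :
    ((r : S) + 1) * x ∈ N := by
  have : ((r : S) + 1) * x = (r + 1) • x := by simp
  rw [this]
  exact nsmul_mem hx _

theorem Sharp.derivative {N : Submodule A S} {w : S[X]} (hw : Sharp θ N w) :
    Sharp θ N (derivative w) := fun r j hj => by
  rw [coeff_derivative, mul_comm (w.coeff _), mul_assoc]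
  exact natCast_succ_mul_mem (hw _ _ (by omega)) r

theorem Sharp.delta {N : Submodule A S} {w : S[X]} (hw : Sharp θ N w) :
    Sharp θ N (C θ * Polynomial.derivative w) := fun r j hj => by
  have e : (C θ * Polynomial.derivative w).coeff r * θ ^ j =
      ((r : S) + 1) * (w.coeff (r + 1) * θ ^ (j + 1)) := by
    rw [coeff_C_mul, coeff_derivative]; ring
  rw [e]
  exact natCast_succ_mul_mem (hw _ _ (by omega)) r

theorem Sharp.solve {N : Submodule A S} : ∀ (n : ℕ) (w : S[X]), w.natDegree ≤ n → Sharp θ N w →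
    ∃ h, Sharp θ N h ∧ C θ * Polynomial.derivative h - h = w := by
  intro n
  induction n with
  | zero =>
    intro w hn hw
    refine ⟨-w, hw.neg, ?_⟩
    rw [map_neg, derivative_of_natDegree_zero (by omega)]
    ring
  | succ n ih =>
    intro w hn hw
    obtain ⟨h, h1, h2⟩ := ih (C θ * Polynomial.derivative w)
      ((natDegree_C_mul_le _ _).trans ((natDegree_derivative_le w).trans (by omega))) hw.delta
    refine ⟨-w + h, hw.neg.add h1, ?_⟩
    rw [map_add, map_neg]
    linear_combination h2

theorem sharp_scaled {a0 c : A} (hθ : algebraMap A S a0 * θ = algebraMap A S c)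
    {N : Submodule A S} (u : S[X]) (hu : ∀ r, u.coeff r ∈ N) (e : ℕ) (he : u.natDegree ≤ e) :
    Sharp θ N (C (algebraMap A S a0) ^ e * u) := fun r j hj => by
  by_cases hr : r ≤ e
  · have e1 : (C (algebraMap A S a0) ^ e * u).coeff r * θ ^ j =
        (a0 ^ (e - j) * c ^ j) • u.coeff r := by
      rw [← C_pow, coeff_C_mul, Algebra.smul_def, map_mul, map_pow, map_pow, ← hθ, mul_pow]
      have : algebraMap A S a0 ^ e = algebraMap A S a0 ^ (e - j) * algebraMap A S a0 ^ j := by
        rw [← pow_add]; congr 1; omega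
      rw [this]; ring
    rw [e1]
    exact N.smul_mem _ (hu r)
  · rw [← C_pow, coeff_C_mul, coeff_eq_zero_of_natDegree_lt (by omega), mul_zero, zero_mul]
    exact zero_mem _

theorem pow_le_one_submodule {N : Submodule A S} (h : N ≤ 1) (k : ℕ) : N ^ k ≤ 1 := by
  induction k with
  | zero => rw [pow_zero]
  | succ k ih =>
    rw [pow_succ]
    calc N ^ k * N ≤ 1 * 1 := mul_le_mul' ih h
      _ = 1 := one_mul _

/-- Solving `D h = w` when `a0` is invertible and the other coefficients of `a` are nilpotent. -/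
theorem solve_full {a0 c : A} {b : S} (hb : b * algebraMap A S a0 = 1) (ap : S[X])
    (𝔞 : Submodule A S) (h𝔞 : 𝔞 ≤ 1) (hap : ∀ r, ap.coeff r ∈ 𝔞) (s : ℕ) (hs : 𝔞 ^ s = ⊥) :
    ∃ E : ℕ, ∀ w : S[X], Sharp (b * algebraMap A S c) (1 : Submodule A S) (C b ^ E * w) →
      ∃ h, Sharp (b * algebraMap A S c) (1 : Submodule A S) h ∧
        C (algebraMap A S c) * derivative h - (C (algebraMap A S a0) + ap) * h = w := by
  set θ := b * algebraMap A S c with hθdef
  have hθ : algebraMap A S a0 * θ = algebraMap A S c := by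
    rw [hθdef, ← mul_assoc, mul_comm _ b, hb, one_mul]
  have hCb : (C b * C (algebraMap A S a0) : S[X]) = 1 := by rw [← C_mul, hb, C_1]
  have hCbp : ∀ E : ℕ, (C b ^ E * C (algebraMap A S a0) ^ E : S[X]) = 1 := by
    intro E; rw [← mul_pow, hCb, one_pow]
  have key : ∀ t i : ℕ, i + t = s → ∃ E : ℕ, ∀ w : S[X], Sharp θ (𝔞 ^ i) (C b ^ E * w) →
      ∃ h, Sharp θ (1 : Submodule A S) h ∧
        C (algebraMap A S c) * derivative h - (C (algebraMap A S a0) + ap) * h = w := by
    intro t
    induction t with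
    | zero =>
      intro i hi
      refine ⟨0, fun w hw => ⟨0, fun r j _ => by simp, ?_⟩⟩
      have : w = 0 := by
        ext r
        have := hw.coeff_mem r
        rw [show i = s by omega, hs] at this
        simpa using this
      simp [this]
    | succ t ih =>
      intro i hi
      obtain ⟨E, hE⟩ := ih (i + 1) (by omega)
      refine ⟨E + ap.natDegree + 1, fun w hw => ?_⟩
      obtain ⟨h0, h1, h2⟩ := Sharp.solve _ _ le_rfl hw
      have h3 := (sharp_scaled hθ ap hap _ le_rfl).mul h1
      rw [← pow_succ'] at h3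
      obtain ⟨h4, h5, h6⟩ := hE (ap * (C (algebraMap A S a0) ^ (E + ap.natDegree) * h0)) (by
        convert h3 using 1
        rw [pow_add]
        linear_combination (ap * C (algebraMap A S a0) ^ ap.natDegree * h0) * hCbp E)
      refine ⟨C (algebraMap A S a0) ^ (E + ap.natDegree) * h0 + h4, ?_, ?_⟩
      · refine Sharp.add ?_ h5
        rw [← C_pow, ← map_pow]
        exact (h1.mono (pow_le_one_submodule h𝔞 i)).C_mul _
      · have hc : (C (algebraMap A S c) : S[X]) = C (algebraMap A S a0) * C θ := by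
          rw [← C_mul, hθ]
        have hd : derivative (C (algebraMap A S a0) ^ (E + ap.natDegree) * h0) =
            C (algebraMap A S a0) ^ (E + ap.natDegree) * derivative h0 := by
          rw [← C_pow, derivative_C_mul]
        rw [map_add, hd]
        linear_combination h6 + C (algebraMap A S a0) ^ (E + ap.natDegree + 1) * h2 +
          w * hCbp (E + ap.natDegree + 1) +
          (C (algebraMap A S a0) ^ (E + ap.natDegree) * derivative h0) * hc
  obtain ⟨E, hE⟩ := key s 0 (by omega)
  exact ⟨E, fun w hw => hE w (by rwa [pow_zero])⟩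

end Pool.Agent.H208Z.Img
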