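import Mathlib
import Pool.Agent.H208Z.ImgSharp

set_option autoImplicit false

open Polynomial

namespace Pool.Agent.H208Z.Img

variable {A S : Type} [CommRing A] [CommRing S] [Algebra A S]

/-- The Rees algebra of a submodule. -/
def Gr (U : Submodule A S) : Subalgebra A S[X] where
  carrier := {w | ∀ k, w.coeff k ∈ U ^ k}
  mul_mem' := by
    intro w w' hw hw' k
    rw [coeff_mul]
    refine Submodule.sum_mem _ fun x hx => ?_
    rw [Finset.HasAntidiagonal.mem_antidiagonal] at hx
    rw [← hx, pow_add]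
    exact Submodule.mul_mem_mul (hw _) (hw' _)
  add_mem' := by
    intro w w' hw hw' k
    rw [coeff_add]
    exact add_mem (hw k) (hw' k)
  algebraMap_mem' := by
    intro r k
    rw [Polynomial.algebraMap_apply, coeff_C]
    split_ifs with h
    · rw [h, pow_zero]
      exact Submodule.mem_one.2 ⟨r, rfl⟩
    · exact zero_mem _

theorem mono_mem_Gr {U : Submodule A S} {y : S} {k : ℕ} (hy : y ∈ U ^ k) :
    C y * X ^ k ∈ Gr U := by
  intro i
  rw [coeff_C_mul_X_pow]
  split_ifs with h
  · rw [h]; exact hy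
  · exact zero_mem _

theorem lin_mem_Gr {U : Submodule A S} {y : S} (hy : y ∈ U) : C y * X ∈ Gr U := by
  have := mono_mem_Gr (k := 1) (U := U) (y := y) (by rwa [pow_one])
  rwa [pow_one] at this

theorem pow_mono_of_one_le {U : Submodule A S} (hU : 1 ≤ U) {i j : ℕ} (h : i ≤ j) :
    U ^ i ≤ U ^ j := pow_le_pow_right' hU h

theorem rees_bound {a0 : A} {b : S} (hb : b * algebraMap A S a0 = 1)
    (hsurj : ∀ x : S, ∃ M : ℕ, algebraMap A S a0 ^ M * x ∈ (1 : Submodule A S))
    (T : Finset S)
    (hT : ∀ 𝔮 : Ideal (Gr (1 ⊔ Submodule.span A (T : Set S))), 𝔮.IsPrime →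
      (∀ g : Gr (1 ⊔ Submodule.span A (T : Set S)),
        (g : S[X]) = C (algebraMap A S a0) * X → g ∈ 𝔮) →
      ∀ φ ∈ T, ∀ g : Gr (1 ⊔ Submodule.span A (T : Set S)), (g : S[X]) = C φ * X → g ∈ 𝔮)
    (E : ℕ) : ∃ μ0 : ℕ, ∀ μ, μ0 ≤ μ → ∀ y ∈ Submodule.span A (T : Set S) ^ μ,
      b ^ E * y ∈ (1 : Submodule A S) := by
  classical
  set 𝔭 := Submodule.span A (T : Set S) with h𝔭
  set U : Submodule A S := 1 ⊔ 𝔭 with hUdef
  have hU1 : 1 ≤ U := le_sup_left
  have hU2 : 𝔭 ≤ U := le_sup_right
  have ha0U : algebraMap A S a0 ∈ U := hU1 (Submodule.mem_one.2 ⟨a0, rfl⟩)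
  let z0 : Gr U := ⟨C (algebraMap A S a0) * X, lin_mem_Gr ha0U⟩
  let gen : T → Gr U := fun φ => ⟨C (φ : S) * X, lin_mem_Gr (hU2 (Submodule.subset_span φ.2))⟩
  let 𝔓 : Ideal (Gr U) := Ideal.span (Set.range gen)
  have hrad : 𝔓 ≤ (Ideal.span {z0}).radical := by
    refine Ideal.span_le.2 ?_
    rintro _ ⟨φ, rfl⟩
    rw [SetLike.mem_coe, Ideal.radical_eq_sInf, Submodule.mem_sInf]
    rintro 𝔮 ⟨h1, h2⟩
    refine hT 𝔮 h2 ?_ φ φ.2 _ rfl
    intro g hg
    have : g = z0 := Subtype.ext hg
    rw [this]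
    exact h1 (Ideal.mem_span_singleton_self _)
  obtain ⟨N0, hN0⟩ := Ideal.exists_pow_le_of_le_radical_of_fg hrad
    (Submodule.fg_span (Set.finite_range gen))
  have hN : 𝔓 ^ (N0 + 1) ≤ Ideal.span {z0} :=
    (Ideal.pow_le_pow_right (Nat.le_succ _)).trans hN0
  have h1 : ∀ y ∈ 𝔭, ∃ g ∈ 𝔓, (g : S[X]) = C y * X := by
    intro y hy
    induction hy using Submodule.span_induction with
    | mem x hx => exact ⟨gen ⟨x, hx⟩, Ideal.subset_span ⟨_, rfl⟩, rfl⟩
    | zero => exact ⟨0, zero_mem _, by simp⟩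
    | add x y _ _ hx hy =>
      obtain ⟨g, hg, e⟩ := hx
      obtain ⟨g', hg', e'⟩ := hy
      exact ⟨g + g', add_mem hg hg', by rw [Subalgebra.coe_add, e, e', C_add, add_mul]⟩
    | smul r x _ hx =>
      obtain ⟨g, hg, e⟩ := hx
      refine ⟨algebraMap A _ r * g, Ideal.mul_mem_left _ _ hg, ?_⟩
      rw [Subalgebra.coe_mul, e, Algebra.smul_def, C_mul, mul_assoc]
      rfl
  have h2 : ∀ μ : ℕ, ∀ y ∈ 𝔭 ^ μ, ∃ g ∈ 𝔓 ^ μ, (g : S[X]) = C y * X ^ μ := by
    intro μ
    induction μ with
    | zero =>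
      intro y hy
      refine ⟨⟨C y * X ^ 0, mono_mem_Gr (by simpa using hy)⟩, by simp, rfl⟩
    | succ μ ih =>
      intro y hy
      rw [pow_succ] at hy
      refine Submodule.mul_induction_on hy ?_ ?_
      · intro m hm n hn
        obtain ⟨g, hg, e⟩ := ih m hm
        obtain ⟨g', hg', e'⟩ := h1 n hn
        refine ⟨g * g', by rw [pow_succ]; exact Ideal.mul_mem_mul hg hg', ?_⟩
        rw [Subalgebra.coe_mul, e, e', C_mul]; ring
      · rintro x y ⟨g, hg, e⟩ ⟨g', hg', e'⟩
        exact ⟨g + g', add_mem hg hg', by rw [Subalgebra.coe_add, e, e', C_add, add_mul]⟩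
  -- (i)
  have h3 : ∀ y ∈ 𝔭 ^ (N0 + 1), ∃ u ∈ U ^ N0, y = algebraMap A S a0 * u := by
    intro y hy
    obtain ⟨g, hg, e⟩ := h2 _ y hy
    obtain ⟨w, hw⟩ := Ideal.mem_span_singleton'.1 (hN hg)
    refine ⟨(w : S[X]).coeff N0, w.2 N0, ?_⟩
    have h4 := congrArg (fun q : Gr U => (q : S[X]).coeff (N0 + 1)) hw
    simp only [Subalgebra.coe_mul, e, z0] at h4
    rw [coeff_C_mul_X_pow, if_pos rfl, ← mul_assoc, coeff_mul_X, coeff_mul_C] at h4
    rw [← h4, mul_comm]
  -- (ii)
  have h4 : ∀ k : ℕ, U ^ (k + 1) ≤ U ^ k ⊔ 𝔭 ^ (k + 1) := by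
    intro k
    induction k with
    | zero => simp [hUdef]
    | succ k ih =>
      calc U ^ (k + 1 + 1) = U ^ (k + 1) * U := pow_succ _ _
        _ ≤ (U ^ k ⊔ 𝔭 ^ (k + 1)) * U := mul_le_mul' ih le_rfl
        _ = U ^ k * U ⊔ (𝔭 ^ (k + 1) * 1 ⊔ 𝔭 ^ (k + 1) * 𝔭) := by
          rw [Submodule.sup_mul]
          congr 1
          rw [hUdef, Submodule.mul_sup]
        _ ≤ _ := by
          rw [mul_one, ← pow_succ, ← pow_succ]
          refine sup_le le_sup_left (sup_le ?_ le_sup_right)
          exact le_sup_of_le_left (pow_le_pow_left' hU2 _)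
  have h5 : U ^ (N0 + 1) ≤ U ^ N0 := by
    refine (h4 N0).trans (sup_le le_rfl fun y hy => ?_)
    obtain ⟨u, hu, rfl⟩ := h3 y hy
    rw [← Algebra.smul_def]
    exact Submodule.smul_mem _ _ hu
  have h6 : ∀ k : ℕ, U ^ k ≤ U ^ N0 := by
    intro k
    induction k with
    | zero => exact pow_mono_of_one_le hU1 (Nat.zero_le _)
    | succ k ih =>
      calc U ^ (k + 1) = U ^ k * U := pow_succ _ _
        _ ≤ U ^ N0 * U := mul_le_mul' ih le_rfl
        _ = U ^ (N0 + 1) := (pow_succ _ _).symm
        _ ≤ U ^ N0 := h5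
  have h7 : ∀ E i : ℕ, ∀ y ∈ 𝔭 ^ ((N0 + 1) * E + i), b ^ E * y ∈ U ^ N0 := by
    intro E i
    induction E with
    | zero =>
      intro y hy
      rw [pow_zero, one_mul]
      exact h6 _ (pow_le_pow_left' hU2 _ hy)
    | succ E ih =>
      intro y hy
      rw [show (N0 + 1) * (E + 1) + i = (N0 + 1) + ((N0 + 1) * E + i) by ring, pow_add] at hy
      refine Submodule.mul_induction_on hy ?_ ?_
      · intro m hm n hn
        obtain ⟨u, hu, rfl⟩ := h3 m hm
        have e : b ^ (E + 1) * (algebraMap A S a0 * u * n) = u * (b ^ E * n) := by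
          linear_combination (b ^ E * u * n) * hb
        rw [e]
        have := Submodule.mul_mem_mul hu (ih n hn)
        rw [← pow_add] at this
        exact h6 _ this
      · intro x y hx hy
        rw [mul_add]
        exact add_mem hx hy
  have hfg : (U ^ N0).FG := by
    refine Submodule.FG.pow (Submodule.FG.sup ?_ ⟨T, rfl⟩) _
    rw [Submodule.one_eq_span]
    exact Submodule.fg_span_singleton _
  obtain ⟨M, hM⟩ : ∃ M : ℕ, ∀ x ∈ U ^ N0, algebraMap A S a0 ^ M * x ∈ (1 : Submodule A S) := by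
    obtain ⟨t, ht⟩ := hfg
    choose Mx hMx using hsurj
    refine ⟨t.sup Mx, fun x hx => ?_⟩
    rw [← ht] at hx
    induction hx using Submodule.span_induction with
    | mem x hx =>
      obtain ⟨d, hd⟩ := Nat.exists_eq_add_of_le (Finset.le_sup (f := Mx) hx)
      rw [hd, pow_add, mul_comm (_ ^ Mx x), mul_assoc, ← map_pow, ← Algebra.smul_def]
      exact Submodule.smul_mem _ _ (hMx x)
    | zero => simp
    | add x y _ _ hx hy => rw [mul_add]; exact add_mem hx hy
    | smul r x _ hx =>
      rw [mul_smul_comm]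
      exact Submodule.smul_mem _ _ hx
  refine ⟨(N0 + 1) * (E + M), fun μ hμ y hy => ?_⟩
  obtain ⟨i, rfl⟩ := Nat.exists_eq_add_of_le hμ
  have := hM _ (h7 _ _ y hy)
  have e : algebraMap A S a0 ^ M * (b ^ (E + M) * y) = b ^ E * y := by
    have : b ^ M * algebraMap A S a0 ^ M = 1 := by rw [← mul_pow, hb, one_pow]
    rw [pow_add]
    linear_combination (b ^ E * y) * this
  rwa [e] at this

theorem exists_residue {B : Type} [CommRing B] (ι : ℚ →+* B) (𝔮 : Ideal B) (h𝔮 : 𝔮.IsPrime) :
    ∃ (K : Type) (_ : Field K) (_ : CharZero K) (ψ : B →+* K), ∀ g, ψ g = 0 ↔ g ∈ 𝔮 := by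
  let K := FractionRing (B ⧸ 𝔮)
  let ψ : B →+* K := (algebraMap (B ⧸ 𝔮) K).comp (Ideal.Quotient.mk 𝔮)
  let _ : Algebra ℚ K := (ψ.comp ι).toAlgebra
  refine ⟨K, inferInstance, algebraRat.charZero K, ψ, fun g => ?_⟩
  simp only [ψ, RingHom.comp_apply]
  rw [IsFractionRing.to_map_eq_zero_iff, Ideal.Quotient.eq_zero_iff_mem]

theorem nilpotent_of_coe {U : Submodule A S} (g : Gr U) (h : IsNilpotent (g : S[X])) :
    IsNilpotent g := by
  obtain ⟨k, hk⟩ := h
  exact ⟨k, Subtype.ext (by simpa using hk)⟩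

/-- The key estimate: high powers of `f` are highly divisible by `a0` in the sharp sense. -/
theorem pow_sharp [Algebra ℚ A] {a0 c : A} {b : S} (hb : b * algebraMap A S a0 = 1)
    (hsurj : ∀ x : S, ∃ M : ℕ, algebraMap A S a0 ^ M * x ∈ (1 : Submodule A S))
    (f : A[X]) (N : ℕ) (hN1 : 1 ≤ N)
    (hN : ∀ (K : Type) [Field K] [CharZero K] (F : K[X]), F.natDegree ≤ f.natDegree →
      (∀ m : ℕ, 1 ≤ m → m ≤ N → Lw Nat.factorial (F ^ m) = 0) → F = 0)
    (ap : S[X]) (hap : ∀ r, IsNilpotent (ap.coeff r))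
    (H : ∀ m : ℕ, 1 ≤ m → m ≤ N → ∃ h : A[X],
      C (algebraMap A S c) * derivative (h.map (algebraMap A S)) -
        (C (algebraMap A S a0) + ap) * h.map (algebraMap A S) = f.map (algebraMap A S) ^ m)
    (E : ℕ) : ∃ μ0 : ℕ, ∀ μ, μ0 ≤ μ →
      Sharp (b * algebraMap A S c) (1 : Submodule A S) (C b ^ E * f.map (algebraMap A S) ^ μ) := by
  classical
  set θ := b * algebraMap A S c with hθdef
  have hθ : algebraMap A S a0 * θ = algebraMap A S c := by
    rw [hθdef, ← mul_assoc, mul_comm _ b, hb, one_mul]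
  set n := f.natDegree with hn
  set fS := f.map (algebraMap A S) with hfS
  have hfSd : fS.natDegree ≤ n := natDegree_map_le
  let T : Finset S := ((Finset.range (n + 1) ×ˢ Finset.range (n + 1)).filter
    fun x : ℕ × ℕ => x.2 ≤ x.1).image fun x => fS.coeff x.1 * θ ^ x.2
  have hsharp : Sharp θ (Submodule.span A (T : Set S)) fS := by
    intro r j hj
    by_cases hr : r ≤ n
    · refine Submodule.subset_span ?_
      simp only [T, Finset.coe_image, Set.mem_image, Finset.mem_coe, Finset.mem_filter,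
        Finset.mem_product, Finset.mem_range]
      exact ⟨(r, j), ⟨⟨by omega, by omega⟩, hj⟩, rfl⟩
    · rw [coeff_eq_zero_of_natDegree_lt (by omega), zero_mul]
      exact zero_mem _
  have hnil : ∀ (h : S[X]) (i : ℕ), (ap * h).coeff i ∈ nilradical S := by
    intro h i
    rw [coeff_mul]
    exact Ideal.sum_mem _ fun x _ => Ideal.mul_mem_right _ _ (mem_nilradical.2 (hap _))
  obtain ⟨μ0, hμ0⟩ := rees_bound hb hsurj T (by
    set U : Submodule A S := 1 ⊔ Submodule.span A (T : Set S) with hU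
    have hU1 : 1 ≤ U := le_sup_left
    have hU2 : Submodule.span A (T : Set S) ≤ U := le_sup_right
    have hAU : ∀ x : A, algebraMap A S x ∈ U := fun x => hU1 (Submodule.mem_one.2 ⟨x, rfl⟩)
    intro 𝔮 h𝔮 hz
    let gen : ∀ i j : ℕ, j ≤ i → Gr U := fun i j hj =>
      ⟨C (fS.coeff i * θ ^ j) * X, lin_mem_Gr (hU2 (hsharp i j hj))⟩
    let z0 : Gr U := ⟨C (algebraMap A S a0) * X, lin_mem_Gr (hAU a0)⟩
    have hz0 : z0 ∈ 𝔮 := hz _ rfl
    have hnq : ∀ g : Gr U, IsNilpotent (g : S[X]) → g ∈ 𝔮 := fun g hg =>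
      nilpotent_iff_mem_prime.1 (nilpotent_of_coe g hg) 𝔮 h𝔮
    -- the diagonal generators
    have hdiag : ∀ i, gen i i le_rfl ∈ 𝔮 := by
      obtain ⟨K, _, _, ψ, hψ⟩ := exists_residue
        ((algebraMap A (Gr U)).comp (algebraMap ℚ A)) 𝔮 h𝔮
      let F : (Gr U)[X] := ∑ i ∈ Finset.range (n + 1), monomial i (gen i i le_rfl)
      have hFc : ∀ i, F.coeff i = gen i i le_rfl := by
        intro i
        simp only [F, finsetSum_coeff, coeff_monomial, Finset.sum_ite_eq', Finset.mem_range]
        split_ifs with h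
        · rfl
        · apply Subtype.ext
          simp only [gen]
          rw [coeff_eq_zero_of_natDegree_lt (by omega)]
          simp
      have hFd : F.natDegree ≤ n := by
        refine natDegree_sum_le_of_forall_le _ _ fun i hi => ?_
        rw [Finset.mem_range] at hi
        exact (natDegree_monomial_le _).trans (by omega)
      have hFm : F.map (Gr U).val.toRingHom = (fS.comp (C θ * X)).map C * C X := by
        ext1 i
        rw [coeff_map, hFc, coeff_mul_C, coeff_map, comp_C_mul_X_coeff]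
        rfl
      have hF0 := hN K (F.map ψ) (natDegree_map_le.trans hFd) (by
        intro m hm1 hm2
        rw [← Polynomial.map_pow, Lw_map, hψ]
        obtain ⟨h, hh⟩ := H m hm1 hm2
        set hS := h.map (algebraMap A S) with hhS
        have e1 : (fS.comp (C θ * X)) ^ m = C (algebraMap A S a0) *
            (derivative (hS.comp (C θ * X)) - hS.comp (C θ * X)) - (ap * hS).comp (C θ * X) := by
          rw [← pow_comp, ← hh, derivative_comp, ← hθ]
          simp only [sub_comp, mul_comp, add_comp, C_comp, derivative_C_mul, derivative_X, C_mul]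
          ring
        have e2 : Lw Nat.factorial ((fS.comp (C θ * X)) ^ m) =
            -(algebraMap A S a0 * algebraMap A S (h.coeff 0)) -
              Lw Nat.factorial ((ap * hS).comp (C θ * X)) := by
          rw [e1, map_sub, ← smul_eq_C_mul, map_smul, Lw_derivative_sub, comp_C_mul_X_coeff,
            coeff_map]
          simp
        have hν : IsNilpotent (Lw Nat.factorial ((ap * hS).comp (C θ * X))) := by
          rw [← mem_nilradical]
          refine Lw_mem _ _ _ fun i => ?_
          rw [comp_C_mul_X_coeff]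
          exact Ideal.mul_mem_right _ _ (hnil _ _)
        have e3 : ((Lw Nat.factorial (F ^ m) : Gr U) : S[X]) =
            C (Lw Nat.factorial ((fS.comp (C θ * X)) ^ m)) * X ^ m := by
          have := Lw_map Nat.factorial (Gr U).val.toRingHom (F ^ m)
          rw [Polynomial.map_pow, hFm, mul_pow, ← C_pow, mul_comm, ← smul_eq_C_mul, map_smul,
            ← Polynomial.map_pow, Lw_map, smul_eq_mul, mul_comm] at this
          exact this.symm
        obtain ⟨m', rfl⟩ : ∃ m', m = m' + 1 := ⟨m - 1, by omega⟩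
        let em : Gr U := ⟨C (algebraMap A S (h.coeff 0)) * X ^ m', mono_mem_Gr
          (pow_mono_of_one_le hU1 (Nat.zero_le m') (by
            rw [pow_zero]; exact Submodule.mem_one.2 ⟨_, rfl⟩))⟩
        have h5 : Lw Nat.factorial (F ^ (m' + 1)) + z0 * em ∈ 𝔮 := by
          apply hnq
          rw [Subalgebra.coe_add, Subalgebra.coe_mul, e3, e2]
          have : C (-(algebraMap A S a0 * algebraMap A S (h.coeff 0)) -
              Lw Nat.factorial ((ap * hS).comp (C θ * X))) * X ^ (m' + 1) + (z0 : S[X]) * (em : S[X]) =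
              C (Lw Nat.factorial ((ap * hS).comp (C θ * X))) * (-X ^ (m' + 1)) := by
            simp only [z0, em, C_sub, C_neg, C_mul]
            ring
          rw [this]
          exact (Commute.all _ _).isNilpotent_mul_right (hν.map C)
        have := 𝔮.sub_mem h5 (𝔮.mul_mem_right em hz0)
        rwa [add_sub_cancel_right] at this)
      intro i
      rw [← hψ, ← hFc, ← coeff_map, hF0, coeff_zero]
    have hall : ∀ i j (hj : j ≤ i), gen i j hj ∈ 𝔮 := by
      intro i j hj
      rcases Nat.eq_zero_or_pos j with rfl | hj0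
      · rcases Nat.eq_zero_or_pos i with rfl | hi0
        · exact hdiag 0
        · obtain ⟨h, hh⟩ := H 1 le_rfl hN1
          rw [pow_one] at hh
          set hS := h.map (algebraMap A S) with hhS
          have e1 : fS.coeff i = algebraMap A S c * algebraMap A S ((derivative h).coeff i) -
              algebraMap A S a0 * algebraMap A S (h.coeff i) - (ap * hS).coeff i := by
            rw [← hh, add_mul, coeff_sub, coeff_add, coeff_C_mul, coeff_C_mul, hhS,
              derivative_map, coeff_map, coeff_map]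
            ring
          apply h𝔮.mem_of_pow_mem 2
          have h5 : gen i 0 hj ^ 2 - z0 * (algebraMap A (Gr U) ((derivative h).coeff i) *
              gen i 1 hi0 - algebraMap A (Gr U) (h.coeff i) * gen i 0 hj) ∈ 𝔮 := by
            apply hnq
            have : ((gen i 0 hj ^ 2 - z0 * (algebraMap A (Gr U) ((derivative h).coeff i) *
              gen i 1 hi0 - algebraMap A (Gr U) (h.coeff i) * gen i 0 hj) : Gr U) : S[X]) =
                C ((ap * hS).coeff i) * (-(C (fS.coeff i) * X ^ 2)) := by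
              simp only [gen, z0, Subalgebra.coe_sub, Subalgebra.coe_mul, Subalgebra.coe_pow,
                Subalgebra.coe_algebraMap, Polynomial.algebraMap_apply, pow_zero, mul_one, pow_one,
                C_mul, C_1]
              have e2 := congrArg (C : S → S[X]) e1
              have e3 := congrArg (C : S → S[X]) hθ
              simp only [C_sub, C_mul] at e2 e3
              linear_combination (C (fS.coeff i) * X ^ 2) * e2 -
                (C (fS.coeff i) * X ^ 2 * C (algebraMap A S ((derivative h).coeff i))) * e3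
            rw [this]
            exact (Commute.all _ _).isNilpotent_mul_right ((mem_nilradical.1 (hnil _ _)).map C)
          have := 𝔮.add_mem h5 (𝔮.mul_mem_right (algebraMap A (Gr U) ((derivative h).coeff i) *
              gen i 1 hi0 - algebraMap A (Gr U) (h.coeff i) * gen i 0 hj) hz0)
          rwa [sub_add_cancel] at this
      · apply h𝔮.mem_of_pow_mem i
        have : gen i j hj ^ i = gen i 0 (Nat.zero_le _) ^ (i - j) * gen i i le_rfl ^ j := by
          apply Subtype.ext
          obtain ⟨d, rfl⟩ := Nat.exists_eq_add_of_le hj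
          simp only [gen, Subalgebra.coe_mul, Subalgebra.coe_pow, pow_zero, mul_one, C_mul, C_pow,
            Nat.add_sub_cancel_left]
          ring
        rw [this]
        exact 𝔮.mul_mem_left _ (𝔮.pow_mem_of_mem (hdiag i) j hj0)
    intro φ hφ g hg
    simp only [T, Finset.mem_image, Finset.mem_filter] at hφ
    obtain ⟨x, ⟨-, hx⟩, rfl⟩ := hφ
    have : g = gen x.1 x.2 hx := Subtype.ext hg
    rw [this]
    exact hall x.1 x.2 hx) E
  refine ⟨μ0, fun μ hμ r j hj => ?_⟩
  rw [← C_pow, coeff_C_mul, mul_assoc]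
  exact hμ0 μ hμ _ (hsharp.pow μ r j hj)

end Pool.Agent.H208Z.Img
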