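import Mathlib
import Pool.Agent.H208Z.ImgRees

set_option autoImplicit false

open Polynomial Filter

namespace Pool.Agent.H208Z.Img

variable {A : Type} [CommRing A]

theorem exists_antiderivative [Algebra ℚ A] (N : Ideal A) (τ : A[X]) (hτ : ∀ i, τ.coeff i ∈ N) :
    ∃ σ : A[X], derivative σ = τ ∧ ∀ i, σ.coeff i ∈ N := by
  refine ⟨∑ j ∈ Finset.range (τ.natDegree + 1),
    monomial (j + 1) (algebraMap ℚ A ((j : ℚ) + 1)⁻¹ * τ.coeff j), ?_, ?_⟩
  · rw [map_sum]
    conv_rhs => rw [τ.as_sum_range]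
    refine Finset.sum_congr rfl fun j _ => ?_
    rw [derivative_monomial_succ]
    congr 1
    have h1 : ((j : A) + 1) = algebraMap ℚ A ((j : ℚ) + 1) := by simp
    rw [h1, mul_right_comm, ← map_mul, inv_mul_cancel₀ (by positivity), map_one, one_mul]
  · intro i
    rw [finsetSum_coeff]
    refine N.sum_mem fun j _ => ?_
    rw [coeff_monomial]
    split_ifs
    · exact N.mul_mem_left _ (hτ j)
    · exact N.zero_mem

theorem torsion_solve [Algebra ℚ A] (c : A) (a : A[X]) (𝔟 : Ideal A) (h𝔟 : ∀ i, a.coeff i ∈ 𝔟) :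
    ∀ (K : ℕ) (N : Ideal A), 𝔟 ^ K * N = ⊥ → ∀ τ : A[X], (∀ i, τ.coeff i ∈ N) →
      ∃ h : A[X], C c * derivative h - a * h = C c ^ K * τ := by
  intro K
  induction K with
  | zero =>
    intro N hN τ hτ
    rw [pow_zero, one_mul] at hN
    have : τ = 0 := by
      ext i
      have := hτ i
      rw [hN] at this
      simpa using this
    exact ⟨0, by simp [this]⟩
  | succ K ih =>
    intro N hN τ hτ
    obtain ⟨σ, h1, h2⟩ := exists_antiderivative N τ hτ
    obtain ⟨h, hh⟩ := ih (𝔟 * N) (by rw [← mul_assoc, ← pow_succ, hN]) (a * σ) (by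
      intro i
      rw [coeff_mul]
      exact Ideal.sum_mem _ fun x _ => Ideal.mul_mem_mul (h𝔟 _) (h2 _))
    refine ⟨h + C c ^ K * σ, ?_⟩
    rw [map_add, ← C_pow, derivative_C_mul, h1, C_pow]
    linear_combination hh

theorem step_one (c : A) (a : A[X]) (V : Submodule A A[X])
    (hV : ∀ h, C c * derivative h - a * h ∈ V) (𝓕 : Filter A[X])
    (hmul : ∀ u : A[X], Tendsto (fun w => u * w) 𝓕 𝓕)
    (hder : Tendsto (fun w : A[X] => derivative w) 𝓕 𝓕) (K : ℕ)
    (hK : ∀ᶠ w in 𝓕, C c ^ K * w ∈ V) :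
    ∀ t i j : ℕ, K ≤ i + t → 2 * t ≤ j → ∀ᶠ w in 𝓕, C c ^ i * a ^ j * w ∈ V := by
  intro t
  induction t with
  | zero =>
    intro i j hi _
    obtain ⟨e, rfl⟩ := Nat.exists_eq_add_of_le hi
    filter_upwards [(hmul (C c ^ e * a ^ j)).eventually hK] with w hw
    convert hw using 1
    rw [pow_add]; ring
  | succ t ih =>
    intro i j hi hj
    obtain ⟨j, rfl⟩ : ∃ j', j = j' + 2 := ⟨j - 2, by omega⟩
    have h1 := ih (i + 1) j (by omega) (by omega)
    filter_upwards [(hmul (C ((j : A) + 1) * derivative a)).eventually h1,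
      ((hmul a).comp hder).eventually h1] with w hw1 hw2
    have h3 := V.sub_mem (V.add_mem hw1 hw2) (hV (C c ^ i * a ^ (j + 1) * w))
    convert h3 using 1
    rw [derivative_mul, ← C_pow (a := c) (n := i), derivative_C_mul, derivative_pow_succ, C_pow]
    simp only [Function.comp]
    ring

theorem step_two (c : A) (a f : A[X]) (V : Submodule A A[X])
    (hV : ∀ h, C c * derivative h - a * h ∈ V) (𝓕 : Filter A[X])
    (hmul : ∀ u : A[X], Tendsto (fun w => u * w) 𝓕 𝓕)
    (hder : Tendsto (fun w : A[X] => derivative w) 𝓕 𝓕) (K : ℕ)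
    (hK : ∀ᶠ w in 𝓕, C c ^ K * w ∈ V) (hpow : Tendsto (fun μ : ℕ => f ^ μ) atTop 𝓕)
    (h : A[X]) (hf : C c * derivative h - a * h = f) (g : A[X]) :
    ∀ᶠ μ in atTop, g * f ^ (2 * K + μ) ∈ V := by
  have h1 : ∀ i ∈ Finset.range (2 * K + 1), ∀ᶠ μ in atTop,
      C c ^ i * a ^ (2 * K - i) * ((derivative h ^ i * (-h) ^ (2 * K - i) *
        ((2 * K).choose i : A[X]) * g) * f ^ μ) ∈ V := by
    intro i _
    have h2 := step_one c a V hV 𝓕 hmul hder K hK (K - i) i (2 * K - i) (by omega) (by omega)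
    exact hpow.eventually ((hmul (derivative h ^ i * (-h) ^ (2 * K - i) *
        ((2 * K).choose i : A[X]) * g)).eventually h2)
  filter_upwards [(Finset.eventually_all _).2 h1] with μ hμ
  have e : f ^ (2 * K) = (C c * derivative h + a * (-h)) ^ (2 * K) := by
    rw [← hf]; ring
  rw [pow_add, e, add_pow, Finset.sum_mul, Finset.mul_sum]
  refine V.sum_mem fun i hi => ?_
  convert hμ i hi using 1
  rw [mul_pow, mul_pow]
  ring

theorem coeff_pow_mem (I : Ideal A) (f : A[X]) (hf : ∀ i, f.coeff i ∈ I) (s : ℕ) :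
    ∀ i, (f ^ s).coeff i ∈ I ^ s := by
  induction s with
  | zero => intro i; simp
  | succ s ih =>
    intro i
    rw [pow_succ, pow_succ, coeff_mul]
    exact Ideal.sum_mem _ fun x _ => Ideal.mul_mem_mul (ih _) (hf _)

theorem main_noeth [Algebra ℚ A] [IsNoetherianRing A] (c : A) (a f g : A[X]) (N : ℕ)
    (hN1 : 1 ≤ N)
    (hN : ∀ (K : Type) [Field K] [CharZero K] (F : K[X]), F.natDegree ≤ f.natDegree →
      (∀ m : ℕ, 1 ≤ m → m ≤ N → Lw Nat.factorial (F ^ m) = 0) → F = 0)
    (hnil : ∀ i j, 1 ≤ j → IsNilpotent (f.coeff i * c * a.coeff j))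
    (H : ∀ m : ℕ, 1 ≤ m → m ≤ N → ∃ h : A[X], C c * derivative h - a * h = f ^ m) :
    ∀ᶠ m in atTop, ∃ h : A[X], C c * derivative h - a * h = g * f ^ m := by
  classical
  set a0 := a.coeff 0 with ha0
  let 𝔣 : Ideal A := Ideal.span (Set.range f.coeff)
  let 𝔞 : Ideal A := Ideal.span {x | ∃ j, 1 ≤ j ∧ x = a.coeff j}
  obtain ⟨s, hs⟩ : IsNilpotent (𝔣 * Ideal.span {c} * 𝔞) := by
    rw [Ideal.FG.isNilpotent_iff_le_nilradical (IsNoetherian.noetherian _)]
    simp only [𝔣, 𝔞, Ideal.span_mul_span', Ideal.span_le]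
    rintro _ ⟨_, ⟨_, ⟨i, rfl⟩, _, rfl, rfl⟩, _, ⟨j, hj, rfl⟩, rfl⟩
    exact mem_nilradical.2 (hnil i j hj)
  rw [mul_pow, mul_pow] at hs
  set Q : Ideal A := 𝔣 ^ s * Ideal.span {c} ^ s with hQ
  let I : Ideal A := Submodule.annihilator Q
  have hI : ∀ x ∈ 𝔞 ^ s, x ∈ I := by
    intro x hx
    rw [Submodule.mem_annihilator]
    intro q hq
    have := Ideal.mul_mem_mul hq hx
    rw [hs] at this
    rw [smul_eq_mul, mul_comm]
    simpa using this
  let S := Localization.Away (Ideal.Quotient.mk I a0)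
  have halg : ∀ x : A, algebraMap A S x = algebraMap (A ⧸ I) S (Ideal.Quotient.mk I x) :=
    fun x => rfl
  let b : S := IsLocalization.Away.invSelf (Ideal.Quotient.mk I a0)
  have hb : b * algebraMap A S a0 = 1 := by
    rw [halg, mul_comm]
    exact IsLocalization.Away.mul_invSelf _
  have hsurj : ∀ x : S, ∃ M : ℕ, algebraMap A S a0 ^ M * x ∈ (1 : Submodule A S) := by
    intro x
    obtain ⟨M, y, hy⟩ := IsLocalization.Away.surj (Ideal.Quotient.mk I a0) x
    obtain ⟨y, rfl⟩ := Ideal.Quotient.mk_surjective y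
    exact ⟨M, Submodule.mem_one.2 ⟨y, by rw [halg, halg, ← hy, mul_comm]⟩⟩
  let J : Ideal A := RingHom.ker (algebraMap A S)
  have hJ : ∀ x ∈ J, ∃ k : ℕ, a0 ^ k * x ∈ I := by
    intro x hx
    rw [RingHom.mem_ker, halg,
      IsLocalization.map_eq_zero_iff (Submonoid.powers (Ideal.Quotient.mk I a0))] at hx
    obtain ⟨⟨_, k, rfl⟩, hk⟩ := hx
    refine ⟨k, ?_⟩
    rw [← Ideal.Quotient.eq_zero_iff_mem, map_mul, map_pow]
    exact hk
  obtain ⟨k, hk⟩ : ∃ k : ℕ, ∀ x ∈ J, a0 ^ k * x ∈ I := by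
    obtain ⟨t, ht⟩ := IsNoetherian.noetherian J
    choose! kx hkx using hJ
    refine ⟨t.sup kx, fun x hx => ?_⟩
    rw [← ht] at hx
    induction hx using Submodule.span_induction with
    | mem x hx =>
      obtain ⟨d, hd⟩ := Nat.exists_eq_add_of_le (Finset.le_sup (f := kx) hx)
      rw [hd, pow_add, mul_comm (_ ^ kx x), mul_assoc]
      exact I.mul_mem_left _ (hkx x (ht ▸ Submodule.subset_span hx))
    | zero => simp
    | add x y _ _ hx hy => rw [mul_add]; exact add_mem hx hy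
    | smul r x _ hx =>
      rw [mul_smul_comm]
      exact Submodule.smul_mem _ _ hx
  -- the ideal of all coefficients of `a` is nilpotent on `J * Q`
  let 𝔟 : Ideal A := Ideal.span {a0} ⊔ 𝔞
  have h𝔟 : ∀ i, a.coeff i ∈ 𝔟 := by
    intro i
    rcases Nat.eq_zero_or_pos i with rfl | hi
    · exact Ideal.mem_sup_left (Ideal.mem_span_singleton_self _)
    · exact Ideal.mem_sup_right (Ideal.subset_span ⟨i, hi, rfl⟩)
  have h𝔟K : 𝔟 ^ (k + s) * (J * Q) = ⊥ := by
    rw [eq_bot_iff]
    refine (Ideal.mul_mono_left Ideal.sup_pow_add_le_pow_sup_pow).trans ?_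
    rw [Ideal.sup_mul, sup_le_iff, ← mul_assoc _ J Q, ← mul_assoc _ J Q]
    have hIQ : I * Q ≤ ⊥ := by
      rw [Ideal.mul_le]
      intro x hx q hq
      exact Submodule.mem_annihilator.1 hx q hq
    constructor
    · refine le_trans (Ideal.mul_mono_left (J := I) ?_) hIQ
      rw [Ideal.span_singleton_pow, Ideal.mul_le]
      intro x hx y hy
      obtain ⟨u, rfl⟩ := Ideal.mem_span_singleton'.1 hx
      rw [mul_assoc]
      exact I.mul_mem_left _ (hk y hy)
    · refine le_trans (Ideal.mul_mono_left (J := I) ?_) hIQ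
      exact le_trans Ideal.mul_le_left hI
  -- the nilpotent part of `a` in `S`
  let ap : S[X] := (a - C a0).map (algebraMap A S)
  have haS : a.map (algebraMap A S) = C (algebraMap A S a0) + ap := by
    simp only [ap, Polynomial.map_sub, map_C]
    ring
  let 𝔞' : Submodule A S := Submodule.map (Algebra.linearMap A S) 𝔞
  have h𝔞' : 𝔞' ≤ 1 := by
    rintro _ ⟨x, -, rfl⟩
    exact Submodule.mem_one.2 ⟨x, rfl⟩
  have hap : ∀ r, ap.coeff r ∈ 𝔞' := by
    intro r
    refine ⟨(a - C a0).coeff r, ?_, (coeff_map (algebraMap A S) r).symm⟩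
    rw [coeff_sub, coeff_C]
    split_ifs with h
    · rw [h, sub_self]; exact zero_mem _
    · rw [sub_zero]
      exact Ideal.subset_span ⟨r, by omega, rfl⟩
  have h𝔞's : 𝔞' ^ s = ⊥ := by
    have h1 : 𝔞' ^ s = Submodule.map (Algebra.linearMap A S) (𝔞 ^ s) :=
      (Submodule.map_pow 𝔞 (Algebra.ofId A S) s).symm
    rw [h1, eq_bot_iff]
    rintro _ ⟨x, hx, rfl⟩
    rw [Submodule.mem_bot, Algebra.linearMap_apply, halg,
      Ideal.Quotient.eq_zero_iff_mem.2 (hI x hx), map_zero]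
  have hapn : ∀ r, IsNilpotent (ap.coeff r) := by
    intro r
    refine ⟨s, ?_⟩
    have := Submodule.pow_mem_pow _ (hap r) s
    rwa [h𝔞's, Submodule.mem_bot] at this
  have hDmap : ∀ h : A[X], (C c * derivative h - a * h).map (algebraMap A S) =
      C (algebraMap A S c) * derivative (h.map (algebraMap A S)) -
        (C (algebraMap A S a0) + ap) * h.map (algebraMap A S) := by
    intro h
    rw [Polynomial.map_sub, Polynomial.map_mul, Polynomial.map_mul, map_C, haS, derivative_map]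
  set θ := b * algebraMap A S c with hθdef
  have hθ : algebraMap A S a0 * θ = algebraMap A S c := by
    rw [hθdef, ← mul_assoc, mul_comm _ b, hb, one_mul]
  have hCb : (C b * C (algebraMap A S a0) : S[X]) = 1 := by rw [← C_mul, hb, C_1]
  have hCbp : ∀ E : ℕ, (C b ^ E * C (algebraMap A S a0) ^ E : S[X]) = 1 := by
    intro E; rw [← mul_pow, hCb, one_pow]
  let Z : ℕ → Set A[X] := fun E =>
    {w | Sharp θ (1 : Submodule A S) (C b ^ E * w.map (algebraMap A S))}
  have hZ : Antitone Z := by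
    intro E E' h w hw
    obtain ⟨d, rfl⟩ := Nat.exists_eq_add_of_le h
    have h1 := Sharp.C_mul hw (a0 ^ d)
    simp only [Z, Set.mem_ofPred_eq]
    convert h1 using 1
    rw [map_pow, C_pow, pow_add]
    linear_combination (-(C b ^ E * w.map (algebraMap A S))) * hCbp d
  let 𝓕 : Filter A[X] := ⨅ E, 𝓟 (Z E)
  have hbasis : 𝓕.HasBasis (fun _ => True) Z :=
    hasBasis_iInf_principal (directed_of_isDirected_le hZ)
  have hmul : ∀ u : A[X], Tendsto (fun w => u * w) 𝓕 𝓕 := by
    intro u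
    rw [hbasis.tendsto_iff hbasis]
    intro E _
    refine ⟨E + u.natDegree, trivial, fun w hw => ?_⟩
    have h1 := (sharp_scaled hθ (N := 1) (u.map (algebraMap A S))
      (fun r => Submodule.mem_one.2 ⟨u.coeff r, by rw [coeff_map]⟩) u.natDegree
      natDegree_map_le).mul hw
    rw [one_mul] at h1
    simp only [Z, Set.mem_ofPred_eq]
    convert h1 using 1
    rw [Polynomial.map_mul, pow_add]
    linear_combination
      (-(C b ^ E * u.map (algebraMap A S) * w.map (algebraMap A S))) * hCbp u.natDegree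
  have hder : Tendsto (fun w : A[X] => derivative w) 𝓕 𝓕 := by
    rw [hbasis.tendsto_iff hbasis]
    intro E _
    refine ⟨E, trivial, fun w hw => ?_⟩
    have h1 := Sharp.derivative hw
    rw [← C_pow, derivative_C_mul, derivative_map, C_pow] at h1
    exact h1
  have hpow : Tendsto (fun μ : ℕ => f ^ μ) atTop 𝓕 := by
    rw [hbasis.tendsto_right_iff]
    intro E _
    obtain ⟨μ0, hμ0⟩ := pow_sharp hb hsurj f N hN1 hN ap hapn (by
      intro m h1 h2
      obtain ⟨h, hh⟩ := H m h1 h2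
      exact ⟨h, by rw [← hDmap, hh, Polynomial.map_pow]⟩) E
    filter_upwards [eventually_ge_atTop μ0] with μ hμ
    have := hμ0 μ hμ
    rwa [← Polynomial.map_pow] at this
  obtain ⟨E0, hE0⟩ := solve_full (c := c) hb ap 𝔞' h𝔞' hap s h𝔞's
  let D : A[X] →ₗ[A] A[X] := c • derivative - LinearMap.mulLeft A a
  have hD : ∀ h, D h = C c * derivative h - a * h := by
    intro h
    simp [D, smul_eq_C_mul]
  let V : Submodule A A[X] := LinearMap.range D
  have hVmem : ∀ w, w ∈ V ↔ ∃ h, C c * derivative h - a * h = w := by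
    intro w
    simp only [V, LinearMap.mem_range, hD]
  have hkey : ∀ x ∈ 𝔣 ^ s, ∀ᶠ w in 𝓕,
      C c ^ (k + s + s) * w ∈ V.comap (LinearMap.mulLeft A (C x)) := by
    intro x hx
    rw [hbasis.eventually_iff]
    refine ⟨E0, trivial, fun w hw => ?_⟩
    obtain ⟨h, h1, h2⟩ := hE0 _ hw
    obtain ⟨h', rfl⟩ : ∃ h' : A[X], h'.map (algebraMap A S) = h := by
      have : h ∈ lifts (algebraMap A S) := by
        rw [lifts_iff_coeff_lifts]
        intro n
        exact Submodule.mem_one.1 (h1.coeff_mem n)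
      exact this
    have h3 : ∀ i, (w - (C c * derivative h' - a * h')).coeff i ∈ J := by
      intro i
      rw [RingHom.mem_ker, ← coeff_map, Polynomial.map_sub, hDmap, h2, sub_self, coeff_zero]
    have hq : x * c ^ s ∈ Q :=
      Ideal.mul_mem_mul hx (Ideal.pow_mem_pow (Ideal.mem_span_singleton_self c) s)
    obtain ⟨h4, h5⟩ := torsion_solve c a 𝔟 h𝔟 _ _ h𝔟K
      ((w - (C c * derivative h' - a * h')) * C (x * c ^ s)) (by
        intro i
        rw [coeff_mul_C]
        exact Ideal.mul_mem_mul (h3 i) hq)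
    rw [Submodule.mem_comap, LinearMap.mulLeft_apply, hVmem]
    refine ⟨h4 + C (c ^ (k + s) * (x * c ^ s)) * h', ?_⟩
    rw [map_add, derivative_C_mul]
    simp only [C_mul, C_pow] at h5 ⊢
    linear_combination h5
  obtain ⟨h1, hh1⟩ := H 1 le_rfl hN1
  rw [pow_one] at hh1
  have hfin : ∀ r ∈ Finset.range ((f ^ s).natDegree + 1), ∀ᶠ μ in atTop,
      C ((f ^ s).coeff r) * ((g * X ^ r) * f ^ (2 * (k + s + s) + μ)) ∈ V := by
    intro r _
    refine step_two c a f (V.comap (LinearMap.mulLeft A (C ((f ^ s).coeff r)))) ?_ 𝓕 hmul hder _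
      (hkey _ (coeff_pow_mem 𝔣 f (fun i => Ideal.subset_span ⟨i, rfl⟩) s r)) hpow h1 hh1 _
    intro h
    rw [Submodule.mem_comap, LinearMap.mulLeft_apply, ← smul_eq_C_mul]
    exact V.smul_mem _ ((hVmem _).2 ⟨h, rfl⟩)
  obtain ⟨μ0, hμ0⟩ := eventually_atTop.1 ((Finset.eventually_all _).2 hfin)
  filter_upwards [eventually_ge_atTop (s + (2 * (k + s + s) + μ0))] with m hm
  obtain ⟨d, rfl⟩ := Nat.exists_eq_add_of_le hm
  rw [← hVmem]
  have e : g * f ^ (s + (2 * (k + s + s) + μ0) + d) = ∑ r ∈ Finset.range ((f ^ s).natDegree + 1),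
      C ((f ^ s).coeff r) * ((g * X ^ r) * f ^ (2 * (k + s + s) + (μ0 + d))) := by
    have e1 := (f ^ s).as_sum_range_C_mul_X_pow
    calc g * f ^ (s + (2 * (k + s + s) + μ0) + d)
        = f ^ s * (g * f ^ (2 * (k + s + s) + (μ0 + d))) := by ring
      _ = _ := by
        conv_lhs => rw [e1]
        rw [Finset.sum_mul]
        refine Finset.sum_congr rfl fun r _ => ?_
        ring
  rw [e]
  exact V.sum_mem fun r hr => hμ0 _ (Nat.le_add_right _ _) r hr


theorem main_general [Algebra ℚ A] (c : A) (a f g : A[X])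
    (H : ∀ m : ℕ, 1 ≤ m → ∃ h : A[X], C c * derivative h - a * h = f ^ m) :
    ∃ N : ℕ, ∀ m : ℕ, N ≤ m → ∃ h : A[X], C c * derivative h - a * h = g * f ^ m := by
  classical
  have hnil : ∀ i j, 1 ≤ j → IsNilpotent (f.coeff i * c * a.coeff j) := by
    intro i j hj
    rw [nilpotent_iff_mem_prime]
    intro 𝔮 h𝔮
    obtain ⟨K, _, _, ψ, hψ⟩ := exists_residue (algebraMap ℚ A) 𝔮 h𝔮
    rw [← hψ, map_mul, map_mul]
    by_cases hc : ψ c = 0
    · rw [hc, mul_zero, zero_mul]
    by_cases ha : ψ (a.coeff j) = 0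
    · rw [ha, mul_zero]
    have h1 := field_case (ψ c) hc (a.map ψ) (f.map ψ)
      (hj.trans (le_natDegree_of_ne_zero (by rwa [coeff_map]))) (by
        intro m hm
        obtain ⟨h, hh⟩ := H m hm
        refine ⟨h.map ψ, ?_⟩
        rw [← Polynomial.map_pow, ← hh, Polynomial.map_sub, Polynomial.map_mul, Polynomial.map_mul,
          map_C, derivative_map])
    rw [← coeff_map ψ i, h1, coeff_zero, zero_mul, zero_mul]
  obtain ⟨N0, hN0⟩ := factorial_uniform f.natDegree
  choose! hh hhh using H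
  let s : Finset A := {c} ∪ a.coeffs ∪ f.coeffs ∪ g.coeffs ∪
    (Finset.range (N0 + 2)).biUnion fun m => (hh m).coeffs
  let R : Subalgebra ℚ A := Algebra.adjoin ℚ (s : Set A)
  have hft : Algebra.FiniteType ℚ R :=
    (Subalgebra.fg_iff_finiteType R).1 (Subalgebra.fg_adjoin_finset s)
  have : IsNoetherianRing R := Algebra.FiniteType.isNoetherianRing ℚ R
  let ι : R →+* A := R.val.toRingHom
  have hinj : Function.Injective ι := Subtype.val_injective
  have hlift : ∀ u : A[X], u.coeffs ⊆ s → ∃ u' : R[X], u'.map ι = u := by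
    intro u hu
    have : u ∈ lifts ι := by
      rw [lifts_iff_coeff_lifts]
      intro n
      by_cases h : u.coeff n = 0
      · exact ⟨0, by rw [h, map_zero]⟩
      · exact ⟨⟨_, Algebra.subset_adjoin (hu (coeff_mem_coeffs h))⟩, rfl⟩
    exact this
  obtain ⟨a', ha'⟩ := hlift a fun x hx => by simp [s, hx]
  obtain ⟨f', hf'⟩ := hlift f fun x hx => by simp [s, hx]
  obtain ⟨g', hg'⟩ := hlift g fun x hx => by simp [s, hx]
  let c' : R := ⟨c, Algebra.subset_adjoin (by simp [s])⟩
  have hc' : ι c' = c := rfl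
  have hD : ∀ h : R[X], (C c' * derivative h - a' * h).map ι =
      C c * derivative (h.map ι) - a * h.map ι := by
    intro h
    rw [Polynomial.map_sub, Polynomial.map_mul, Polynomial.map_mul, map_C, hc', ha',
      derivative_map]
  have hdeg : f'.natDegree = f.natDegree := by
    rw [← hf', natDegree_map_eq_of_injective hinj]
  have key := main_noeth c' a' f' g' (N0 + 1) (by omega)
    (fun K _ _ F hF hm => hN0 K F (hdeg ▸ hF) fun m h1 h2 => hm m h1 (by omega))
    (by
      intro i j hj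
      obtain ⟨k, hk⟩ := hnil i j hj
      refine ⟨k, hinj ?_⟩
      rw [map_pow, map_mul, map_mul, ← coeff_map, ← coeff_map, hf', ha', hc', hk, map_zero])
    (by
      intro m h1 h2
      obtain ⟨h', hh'⟩ := hlift (hh m) fun x hx => by
        simp only [s, Finset.mem_union, Finset.mem_biUnion, Finset.mem_range]
        exact Or.inr ⟨m, by omega, hx⟩
      refine ⟨h', map_injective ι hinj ?_⟩
      rw [hD, hh', hhh m h1, Polynomial.map_pow, hf'])
  obtain ⟨N, hN⟩ := eventually_atTop.1 key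
  refine ⟨N, fun m hm => ?_⟩
  obtain ⟨h, hh⟩ := hN m hm
  exact ⟨h.map ι, by rw [← hD, hh, Polynomial.map_mul, Polynomial.map_pow, hf', hg']⟩

end Pool.Agent.H208Z.Img
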