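import Mathlib

set_option autoImplicit false

/-!
van Douwen's countable zero-dimensional crowded space in which sets with empty interior have no
accumulation point.
-/

namespace Pool.Agent.H208Z.Why

open Set Filter Topology

/-- Admissible algebras of subsets of the rationals. -/
structure Adm (𝒜 : Set (Set ℚ)) : Prop where
  univ_mem : univ ∈ 𝒜
  compl_mem : ∀ A ∈ 𝒜, Aᶜ ∈ 𝒜
  inter_mem : ∀ A ∈ 𝒜, ∀ B ∈ 𝒜, A ∩ B ∈ 𝒜
  infinite : ∀ A ∈ 𝒜, A.Nonempty → A.Infinite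
  sep : ∀ x y : ℚ, x ≠ y → ∃ A ∈ 𝒜, x ∈ A ∧ y ∉ A

theorem adm_zero : Adm {A : Set ℚ | ∀ x, ∃ y, x < y ∧ ∀ z ∈ Ico x y, (z ∈ A ↔ x ∈ A)} where
  univ_mem := fun x => ⟨x + 1, by linarith, by simp⟩
  compl_mem := fun A hA x => by
    obtain ⟨y, h1, h2⟩ := hA x
    exact ⟨y, h1, fun z hz => not_congr (h2 z hz)⟩
  inter_mem := fun A hA B hB x => by
    obtain ⟨y, h1, h2⟩ := hA x
    obtain ⟨y', h3, h4⟩ := hB x
    refine ⟨min y y', lt_min h1 h3, fun z hz => ?_⟩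
    exact and_congr (h2 z ⟨hz.1, hz.2.trans_le (min_le_left _ _)⟩)
      (h4 z ⟨hz.1, hz.2.trans_le (min_le_right _ _)⟩)
  infinite := fun A hA ⟨x, hx⟩ => by
    obtain ⟨y, h1, h2⟩ := hA x
    exact (Ico_infinite h1).mono fun z hz => (h2 z hz).2 hx
  sep := fun x y hxy => by
    have key : ∀ c : ℚ, ∀ x, ∃ y, x < y ∧ ∀ z ∈ Ico x y, (z ∈ Iio c ↔ x ∈ Iio c) := by
      intro c x
      by_cases h : x < c
      · exact ⟨c, h, fun z hz => iff_of_true hz.2 h⟩
      · exact ⟨x + 1, by linarith, fun z hz => iff_of_false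
          (fun h' => h (lt_of_le_of_lt hz.1 h')) h⟩
    rcases lt_or_gt_of_ne hxy with h | h
    · exact ⟨Iio y, key y, h, lt_irrefl y⟩
    · refine ⟨(Iio x)ᶜ, fun w => ?_, lt_irrefl x, fun h' => h' h⟩
      obtain ⟨v, h1, h2⟩ := key x w
      exact ⟨v, h1, fun z hz => not_congr (h2 z hz)⟩

theorem exists_max_adm : ∃ 𝒜, Maximal Adm 𝒜 := by
  obtain ⟨𝒜, -, h⟩ := zorn_subset_nonempty {𝒜 | Adm 𝒜} (by
    intro c hc hchain ⟨𝒜0, h0⟩
    refine ⟨⋃₀ c, ⟨⟨𝒜0, h0, (hc h0).univ_mem⟩, ?_, ?_, ?_, ?_⟩,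
      fun s hs => subset_sUnion_of_mem hs⟩
    · rintro A ⟨s, hs, hA⟩
      exact ⟨s, hs, (hc hs).compl_mem A hA⟩
    · rintro A ⟨s, hs, hA⟩ B ⟨t, ht, hB⟩
      rcases hchain.total hs ht with h | h
      · exact ⟨t, ht, (hc ht).inter_mem A (h hA) B hB⟩
      · exact ⟨s, hs, (hc hs).inter_mem A hA B (h hB)⟩
    · rintro A ⟨s, hs, hA⟩
      exact (hc hs).infinite A hA
    · intro x y hxy
      obtain ⟨A, hA, h⟩ := (hc h0).sep x y hxy
      exact ⟨A, ⟨𝒜0, h0, hA⟩, h⟩) _ adm_zero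
  exact ⟨𝒜, h⟩

theorem mem_of_max {𝒜 : Set (Set ℚ)} (h : Maximal Adm 𝒜) (A : Set ℚ)
    (h1 : ∀ B ∈ 𝒜, (B ∩ A).Nonempty → (B ∩ A).Infinite)
    (h2 : ∀ B ∈ 𝒜, (B ∩ Aᶜ).Nonempty → (B ∩ Aᶜ).Infinite) : A ∈ 𝒜 := by
  have hle : 𝒜 ⊆ {S | ∃ B ∈ 𝒜, ∃ C ∈ 𝒜, S = (B ∩ A) ∪ (C ∩ Aᶜ)} := fun B hB =>
    ⟨B, hB, B, hB, (inter_union_compl B A).symm⟩
  have hadm : Adm {S | ∃ B ∈ 𝒜, ∃ C ∈ 𝒜, S = (B ∩ A) ∪ (C ∩ Aᶜ)} := by
    refine ⟨hle h.1.univ_mem, ?_, ?_, ?_, ?_⟩
    · rintro _ ⟨B, hB, C, hC, rfl⟩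
      refine ⟨Bᶜ, h.1.compl_mem B hB, Cᶜ, h.1.compl_mem C hC, ?_⟩
      ext x
      by_cases hx : x ∈ A <;> simp [hx]
    · rintro _ ⟨B, hB, C, hC, rfl⟩ _ ⟨B', hB', C', hC', rfl⟩
      refine ⟨B ∩ B', h.1.inter_mem B hB B' hB', C ∩ C', h.1.inter_mem C hC C' hC', ?_⟩
      ext x
      by_cases hx : x ∈ A <;> simp [hx]
    · rintro _ ⟨B, hB, C, hC, rfl⟩ hne
      rcases union_nonempty.1 hne with h3 | h3
      · exact (h1 B hB h3).mono subset_union_left
      · exact (h2 C hC h3).mono subset_union_right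
    · intro x y hxy
      obtain ⟨B, hB, h3⟩ := h.1.sep x y hxy
      exact ⟨B, hle hB, h3⟩
  refine h.2 hadm hle ⟨univ, h.1.univ_mem, univᶜ, h.1.compl_mem _ h.1.univ_mem, by simp⟩

section Ultra

variable {X : Type} [TopologicalSpace X]

/-- Every neighbourhood of a point of `A` meets `A` in an infinite set. -/
def Crowded (A : Set X) : Prop := ∀ x ∈ A, ∀ U, IsOpen U → x ∈ U → (U ∩ A).Infinite

def Disc (D : Set X) : Prop := ∀ d ∈ D, ∃ U, IsOpen U ∧ d ∈ U ∧ U ∩ D ⊆ {d}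

def ZeroDim (X : Type) [TopologicalSpace X] : Prop :=
  ∀ (U : Set X) (x : X), IsOpen U → x ∈ U → ∃ V, IsClopen V ∧ x ∈ V ∧ V ⊆ U

theorem Disc.mono {D E : Set X} (h : Disc D) (hE : E ⊆ D) : Disc E := fun d hd => by
  obtain ⟨U, h1, h2, h3⟩ := h d (hE hd)
  exact ⟨U, h1, h2, fun z hz => h3 ⟨hz.1, hE hz.2⟩⟩

theorem exists_ultra : ∃ (X : Type) (_ : TopologicalSpace X), Countable X ∧ Nonempty X ∧
    T1Space X ∧ ZeroDim X ∧ (∀ U : Set X, IsOpen U → U.Nonempty → U.Infinite) ∧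
    ∀ A : Set X, Crowded A → Crowded Aᶜ → IsClopen A := by
  obtain ⟨𝒜, h⟩ := exists_max_adm
  let t : TopologicalSpace ℚ := TopologicalSpace.generateFrom 𝒜
  have hb : @TopologicalSpace.IsTopologicalBasis ℚ t 𝒜 :=
    @TopologicalSpace.IsTopologicalBasis.mk ℚ t 𝒜
      (fun A hA B hB x hx => ⟨A ∩ B, h.1.inter_mem A hA B hB, hx, Subset.rfl⟩)
      (eq_univ_of_forall fun x => ⟨univ, h.1.univ_mem, trivial⟩) rfl
  have hcl : ∀ A ∈ 𝒜, @IsClopen ℚ t A := fun A hA =>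
    ⟨@IsClosed.mk ℚ t A (hb.isOpen (h.1.compl_mem A hA)), hb.isOpen hA⟩
  refine ⟨ℚ, t, inferInstance, inferInstance, ?_, ?_, ?_, ?_⟩
  · refine (@t1Space_iff_exists_open ℚ t).2 fun x y hxy => ?_
    obtain ⟨A, hA, h1⟩ := h.1.sep x y hxy
    exact ⟨A, hb.isOpen hA, h1⟩
  · intro U x hU hx
    obtain ⟨V, hV, h1, h2⟩ := hb.exists_subset_of_mem_open hx hU
    exact ⟨V, hcl V hV, h1, h2⟩
  · intro U hU ⟨x, hx⟩
    obtain ⟨V, hV, h1, h2⟩ := hb.exists_subset_of_mem_open hx hU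
    exact (h.1.infinite V hV ⟨x, h1⟩).mono h2
  · intro A h1 h2
    refine hcl A (mem_of_max h A ?_ ?_)
    · rintro B hB ⟨x, hx⟩
      exact h1 x hx.2 B (hb.isOpen hB) hx.1
    · rintro B hB ⟨x, hx⟩
      exact h2 x hx.2 B (hb.isOpen hB) hx.1

theorem infinite_inter_of_subset_closure [T1Space X]
    (hinf : ∀ U : Set X, IsOpen U → U.Nonempty → U.Infinite) {G Y : Set X} (hG : IsOpen G)
    (hne : G.Nonempty) (h : G ⊆ closure Y) : (G ∩ Y).Infinite := by
  intro hfin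
  have h1 : IsOpen (G \ (G ∩ Y)) := hG.sdiff hfin.isClosed
  obtain ⟨x, hx⟩ := ((hinf G hG hne).sdiff hfin).nonempty
  obtain ⟨y, hy1, hy2⟩ := mem_closure_iff.1 (h hx.1) _ h1 hx
  exact hy1.2 ⟨hy1.1, hy2⟩

theorem irres [T1Space X] (hinf : ∀ U : Set X, IsOpen U → U.Nonempty → U.Infinite)
    (hU : ∀ A : Set X, Crowded A → Crowded Aᶜ → IsClopen A) {O Y1 Y2 : Set X} (hO : IsOpen O)
    (hd : Disjoint Y1 Y2) (h0 : Y1 ⊆ O) (h1 : O ⊆ closure Y1) (h2 : O ⊆ closure Y2) : O = ∅ := by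
  have hc := hU Y1 (fun x hx U hU hxU => by
    refine (infinite_inter_of_subset_closure hinf (hU.inter hO) ⟨x, hxU, h0 hx⟩
      (inter_subset_right.trans h1)).mono fun z hz => ⟨hz.1.1, hz.2⟩) (fun x _ U hU hxU => by
    by_cases h : (U ∩ O).Nonempty
    · exact (infinite_inter_of_subset_closure hinf (hU.inter hO) h
        (inter_subset_right.trans h2)).mono fun z hz =>
          ⟨hz.1.1, fun h' => disjoint_left.1 hd h' hz.2⟩
    · exact (hinf U hU ⟨x, hxU⟩).mono fun z hz => ⟨hz, fun h' => h ⟨z, hz, h0 h'⟩⟩)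
  rw [hc.1.closure_eq] at h1
  by_contra hne
  obtain ⟨x, hx⟩ := nonempty_iff_ne_empty.2 hne
  obtain ⟨y, hy1, hy2⟩ := mem_closure_iff.1 (h2 hx) _ hO hx
  exact disjoint_left.1 hd (h1 hy1) hy2

theorem strongly_discrete [Countable X] (hz : ZeroDim X) {E : Set X} (hE : Disc E)
    (G : X → Set X) (hG : ∀ d ∈ E, IsOpen (G d) ∧ d ∈ G d) :
    ∃ U : X → Set X, (∀ d ∈ E, IsOpen (U d) ∧ d ∈ U d ∧ U d ⊆ G d) ∧
      ∀ d ∈ E, ∀ d' ∈ E, d ≠ d' → Disjoint (U d) (U d') := by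
  obtain ⟨f, hf⟩ := exists_injective_nat X
  have h1 : ∀ d ∈ E, ∃ V, IsClopen V ∧ d ∈ V ∧ V ⊆ G d ∧ V ∩ E ⊆ {d} := by
    intro d hd
    obtain ⟨W, h1, h2, h3⟩ := hE d hd
    obtain ⟨V, h4, h5, h6⟩ := hz (W ∩ G d) d (h1.inter (hG d hd).1) ⟨h2, (hG d hd).2⟩
    exact ⟨V, h4, h5, h6.trans inter_subset_right, fun z hz => h3 ⟨(h6 hz.1).1, hz.2⟩⟩
  choose! V hV using h1
  have hfin : ∀ d, {d' | d' ∈ E ∧ f d' < f d}.Finite := fun d =>
    (((finite_Iio (f d)).preimage hf.injOn)).subset fun _ h => h.2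
  refine ⟨fun d => V d \ ⋃ d' ∈ {d' | d' ∈ E ∧ f d' < f d}, V d', fun d hd => ⟨?_, ?_, ?_⟩, ?_⟩
  · exact (hV d hd).1.2.sdiff ((hfin d).isClosed_biUnion fun d' h => (hV d' h.1).1.1)
  · refine ⟨(hV d hd).2.1, fun h => ?_⟩
    obtain ⟨d', h1, h2⟩ := mem_iUnion₂.1 h
    have : d = d' := (hV d' h1.1).2.2.2 ⟨h2, hd⟩
    rw [this] at h1
    exact lt_irrefl _ h1.2
  · exact sdiff_subset.trans (hV d hd).2.2.1
  · intro d hd d' hd' hne
    rw [disjoint_left]
    intro z h1 h2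
    rcases lt_or_gt_of_ne (hf.ne hne) with h | h
    · exact h2.2 (mem_iUnion₂.2 ⟨d, ⟨hd, h⟩, h1.1⟩)
    · exact h1.2 (mem_iUnion₂.2 ⟨d', ⟨hd', h⟩, h2.1⟩)

/-- Accumulation points of discrete sets. -/
def LimD (X : Type) [TopologicalSpace X] : Set X := {x | ∃ D, Disc D ∧ x ∈ closure (D \ {x})}

theorem avoid [Countable X] [T1Space X] (hz : ZeroDim X) {O : Set X} (hO : IsOpen O)
    (hL : O ⊆ LimD X) (l : List (Set X)) (hl : ∀ S ∈ l, Disc S) :
    ∀ x ∈ O, ∀ W, IsOpen W → x ∈ W →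
      ∃ E, Disc E ∧ E ⊆ (W ∩ O) \ {x} ∧ (∀ S ∈ l, Disjoint E S) ∧ x ∈ closure E := by
  induction l with
  | nil =>
    intro x hx W hW hxW
    obtain ⟨D, h1, h2⟩ := hL hx
    refine ⟨(W ∩ O) ∩ (D \ {x}), h1.mono fun z hz => hz.2.1, fun z hz => ⟨hz.1, hz.2.2⟩,
      by simp, (hW.inter hO).inter_closure ⟨⟨hxW, hx⟩, h2⟩⟩
  | cons S l ih =>
    have ih := ih fun T hT => hl T (List.mem_cons_of_mem _ hT)
    intro x hx W hW hxW
    obtain ⟨E, h1, h2, h3, h4⟩ := ih x hx W hW hxW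
    rw [← sdiff_union_inter E S, closure_union] at h4
    rcases h4 with h4 | h4
    · refine ⟨E \ S, h1.mono sdiff_subset, sdiff_subset.trans h2, ?_, h4⟩
      intro T hT
      rcases List.mem_cons.1 hT with rfl | hT
      · exact disjoint_sdiff_left
      · exact (h3 T hT).mono_left sdiff_subset
    · have hS := hl S List.mem_cons_self
      choose! G hG using hS
      obtain ⟨U, hU1, hU2⟩ := strongly_discrete hz (h1.mono (inter_subset_left (t := S)))
        (fun d => G d ∩ ((W ∩ O) \ {x})) (fun d hd =>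
          ⟨(hG d hd.2).1.inter ((hW.inter hO).sdiff isClosed_singleton),
            (hG d hd.2).2.1, h2 hd.1⟩)
      have h5 : ∀ d ∈ E ∩ S, ∃ E', Disc E' ∧ E' ⊆ (U d ∩ O) \ {d} ∧ (∀ S ∈ l, Disjoint E' S) ∧
          d ∈ closure E' := fun d hd => ih d (h2 hd.1).1.2 _ (hU1 d hd).1 (hU1 d hd).2.1
      choose! E' hE' using h5
      refine ⟨⋃ d ∈ E ∩ S, E' d, ?_, ?_, ?_, ?_⟩
      · intro e he
        obtain ⟨d, hd, hed⟩ := mem_iUnion₂.1 he
        obtain ⟨V, hV1, hV2, hV3⟩ := (hE' d hd).1 e hed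
        refine ⟨V ∩ U d, hV1.inter (hU1 d hd).1, ⟨hV2, ((hE' d hd).2.1 hed).1.1⟩, ?_⟩
        rintro z ⟨hz1, hz2⟩
        obtain ⟨d', hd', hzd⟩ := mem_iUnion₂.1 hz2
        by_cases h : d = d'
        · subst h
          exact hV3 ⟨hz1.1, hzd⟩
        · exact absurd ((hE' d' hd').2.1 hzd).1.1 (disjoint_left.1 (hU2 d hd d' hd' h) hz1.2)
      · refine iUnion₂_subset fun d hd z hz => ?_
        exact ((hU1 d hd).2.2 ((hE' d hd).2.1 hz).1.1).2
      · intro T hT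
        rw [disjoint_iUnion₂_left]
        intro d hd
        rcases List.mem_cons.1 hT with rfl | hT
        · rw [disjoint_left]
          intro z hz hzT
          have h6 := (hE' d hd).2.1 hz
          exact h6.2 ((hG d hd.2).2.2 ⟨((hU1 d hd).2.2 h6.1.1).1, hzT⟩)
        · exact (hE' d hd).2.2.1 T hT
      · refine closure_minimal (fun d hd => ?_) isClosed_closure h4
        exact closure_mono (subset_biUnion_of_mem (u := E') hd) (hE' d hd).2.2.2

theorem interior_limD [Countable X] [Nonempty X] [T1Space X] (hz : ZeroDim X)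
    (hinf : ∀ U : Set X, IsOpen U → U.Nonempty → U.Infinite)
    (hU : ∀ A : Set X, Crowded A → Crowded Aᶜ → IsClopen A) {O : Set X} (hO : IsOpen O)
    (hL : O ⊆ LimD X) : O = ∅ := by
  obtain ⟨u, hu⟩ := exists_surjective_nat X
  have h1 : ∀ (l : List (Set X)) (n : ℕ), (∀ S ∈ l, Disc S) → ∃ E, Disc E ∧ E ⊆ O ∧
      (∀ S ∈ l, Disjoint E S) ∧ (u (n / 2) ∈ O → u (n / 2) ∈ closure E) := by
    intro l n hl
    by_cases h : u (n / 2) ∈ O
    · obtain ⟨E, h1, h2, h3, h4⟩ := avoid hz hO hL l hl _ h univ isOpen_univ trivial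
      exact ⟨E, h1, fun z hz => (h2 hz).1.2, h3, fun _ => h4⟩
    · exact ⟨∅, fun d hd => hd.elim, empty_subset _, by simp, fun h' => absurd h' h⟩
  choose! g hg using h1
  let s : ℕ → List (Set X) := fun n => Nat.rec [] (fun n l => g l n :: l) n
  have hs : ∀ n, s (n + 1) = g (s n) n :: s n := fun n => rfl
  have hd : ∀ n, ∀ S ∈ s n, Disc S := by
    intro n
    induction n with
    | zero => intro S hS; simp [s] at hS
    | succ n ih =>
      intro S hS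
      rw [hs] at hS
      rcases List.mem_cons.1 hS with rfl | hS
      · exact (hg _ n ih).1
      · exact ih S hS
  have hmem : ∀ m n, m < n → g (s m) m ∈ s n := by
    intro m n hmn
    induction n with
    | zero => omega
    | succ n ih =>
      rw [hs]
      rcases Nat.lt_succ_iff_lt_or_eq.1 hmn with h | rfl
      · exact List.mem_cons_of_mem _ (ih h)
      · exact List.mem_cons_self
  have hdisj : ∀ m n, m ≠ n → Disjoint (g (s m) m) (g (s n) n) := by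
    intro m n hmn
    rcases lt_or_gt_of_ne hmn with h | h
    · exact ((hg _ n (hd n)).2.2.1 _ (hmem m n h)).symm
    · exact (hg _ m (hd m)).2.2.1 _ (hmem n m h)
  refine irres hinf hU (Y1 := ⋃ n, g (s (2 * n)) (2 * n))
    (Y2 := ⋃ n, g (s (2 * n + 1)) (2 * n + 1)) hO ?_ ?_ ?_ ?_
  · rw [disjoint_iUnion_left]
    intro m
    rw [disjoint_iUnion_right]
    intro n
    exact hdisj (2 * m) (2 * n + 1) (by omega)
  · exact iUnion_subset fun n => (hg _ _ (hd _)).2.1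
  · intro x hx
    obtain ⟨n, rfl⟩ := hu x
    have := (hg _ (2 * n) (hd (2 * n))).2.2.2
    rw [show 2 * n / 2 = n by omega] at this
    exact closure_mono (subset_iUnion (fun n => g (s (2 * n)) (2 * n)) n) (this hx)
  · intro x hx
    obtain ⟨n, rfl⟩ := hu x
    have := (hg _ (2 * n + 1) (hd (2 * n + 1))).2.2.2
    rw [show (2 * n + 1) / 2 = n by omega] at this
    exact closure_mono (subset_iUnion (fun n => g (s (2 * n + 1)) (2 * n + 1)) n) (this hx)

theorem no_acc [T1Space X] (hinf : ∀ U : Set X, IsOpen U → U.Nonempty → U.Infinite)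
    (hU : ∀ A : Set X, Crowded A → Crowded Aᶜ → IsClopen A) {D : Set X} (hD : interior D = ∅)
    {x : X} (hx : x ∉ LimD X) : x ∉ closure (D \ {x}) := by
  let I : Set X := {d | d ∈ D ∧ ∃ U, IsOpen U ∧ d ∈ U ∧ U ∩ D ⊆ {d}}
  have hI : Disc I := fun d hd => by
    obtain ⟨U, h1, h2, h3⟩ := hd.2
    exact ⟨U, h1, h2, fun z hz => h3 ⟨hz.1, hz.2.1⟩⟩
  have hP : IsClopen (D \ closure I) := by
    refine hU _ ?_ ?_
    · intro d hd U hUo hdU hfin
      have h1 : IsOpen ((U \ closure I) \ ((U ∩ (D \ closure I)) \ {d})) :=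
        (hUo.sdiff isClosed_closure).sdiff (hfin.subset sdiff_subset).isClosed
      refine hd.2 (subset_closure ⟨hd.1, _, h1, ⟨⟨hdU, hd.2⟩, fun h => h.2 rfl⟩, ?_⟩)
      rintro z ⟨⟨h2, h3⟩, h4⟩
      by_contra h5
      exact h3 ⟨⟨h2.1, h4, h2.2⟩, h5⟩
    · intro y _ U hUo hyU
      refine infinite_inter_of_subset_closure hinf hUo ⟨y, hyU⟩ fun z _ => ?_
      rw [closure_compl]
      intro h
      have := interior_mono (sdiff_subset (s := D) (t := closure I)) h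
      rw [hD] at this
      exact this
  have hP0 : D \ closure I = ∅ := by
    have := interior_maximal (sdiff_subset (s := D) (t := closure I)) hP.2
    rw [hD] at this
    exact subset_empty_iff.1 this
  intro h
  refine hx ⟨I, hI, closure_minimal (fun z hz => ?_) isClosed_closure h⟩
  have h1 : z ∈ closure I := sdiff_eq_empty.1 hP0 hz.1
  have h2 := (isOpen_compl_singleton (x := x)).inter_closure ⟨hz.2, h1⟩
  rwa [inter_comm] at h2

end Ultra

theorem exists_M : ∃ (M : Type) (_ : TopologicalSpace M), Countable M ∧ Nonempty M ∧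
    T1Space M ∧ ZeroDim M ∧ (∀ U : Set M, IsOpen U → U.Nonempty → U.Infinite) ∧
    ∀ D : Set M, interior D = ∅ → ∀ x, x ∉ closure (D \ {x}) := by
  obtain ⟨X, _, _, _, _, hz, hinf, hU⟩ := exists_ultra
  have h1 : interior (closure (LimD X)) = ∅ := by
    refine irres hinf hU (Y1 := interior (closure (LimD X)) ∩ LimD X) (Y2 := (LimD X)ᶜ)
      isOpen_interior (disjoint_compl_right.mono_left inter_subset_right) inter_subset_left
      (fun x hx => isOpen_interior.inter_closure ⟨hx, interior_subset hx⟩) fun x _ => ?_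
    rw [closure_compl, interior_limD hz hinf hU isOpen_interior interior_subset]
    exact fun h => h
  have hop : IsOpen (closure (LimD X))ᶜ := isClosed_closure.isOpen_compl
  have hemb := hop.isOpenEmbedding_subtypeVal
  refine ⟨↥(closure (LimD X))ᶜ, inferInstance, inferInstance, ?_, inferInstance, ?_, ?_, ?_⟩
  · rw [nonempty_coe_sort, nonempty_compl]
    intro h
    rw [h, interior_univ] at h1
    exact univ_nonempty.ne_empty h1
  · intro U x hUo hx
    obtain ⟨V, h2, h3, h4⟩ := hz _ x (hemb.isOpenMap U hUo) ⟨x, hx, rfl⟩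
    refine ⟨Subtype.val ⁻¹' V, h2.preimage continuous_subtype_val, h3, fun z hz => ?_⟩
    obtain ⟨w, hw, h5⟩ := h4 hz
    rwa [← Subtype.ext h5]
  · intro U hUo hne
    exact (hinf _ (hemb.isOpenMap U hUo) (hne.image _)).of_image _
  · intro D hD x hx
    refine no_acc hinf hU (D := Subtype.val '' D) ?_ (x := x)
      (fun h => x.2 (subset_closure h)) ?_
    · rw [eq_empty_iff_forall_notMem]
      intro z hz
      obtain ⟨w, -, rfl⟩ := interior_subset hz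
      have h2 : Subtype.val ⁻¹' interior (Subtype.val '' D) ⊆ D := fun v hv => by
        obtain ⟨v', h3, h4⟩ := interior_subset hv
        rwa [← Subtype.ext h4]
      have := interior_maximal h2 (isOpen_interior.preimage continuous_subtype_val) hz
      rw [hD] at this
      exact this
    · have := image_closure_subset_closure_image continuous_subtype_val ⟨x, hx, rfl⟩
      rwa [image_sdiff Subtype.val_injective, image_singleton] at this

end Pool.Agent.H208Z.Why
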