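import Mathlib

set_option autoImplicit false

namespace Pool.Agent.H208Z.Net

/-- The set of edges of `G` with exactly one endpoint in `A`. -/
def edgeBoundary {V : Type} (G : SimpleGraph V) (A : Finset V) : Set (Sym2 V) :=
  {e | e ∈ G.edgeSet ∧ ∃ u ∈ A, ∃ v, v ∉ A ∧ e = s(u, v)}

/-- The Cheeger constant: the infimum of `|∂A| / |A|` over finite nonempty vertex sets `A`. -/
noncomputable def cheeger {V : Type} (G : SimpleGraph V) : ℝ :=
  sInf {r : ℝ | ∃ A : Finset V, A.Nonempty ∧ r = ((edgeBoundary G A).ncard : ℝ) / (A.card : ℝ)}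

/-- Every two distinct vertices of `S` are at graph distance at least `k`. -/
def Separated {V : Type} (G : SimpleGraph V) (k : ℕ) (S : Set V) : Prop :=
  ∀ u ∈ S, ∀ v ∈ S, u ≠ v → k ≤ G.dist u v

/-- A `k`-net: a set of vertices that is maximal under inclusion among `k`-separated sets. -/
def IsNet {V : Type} (G : SimpleGraph V) (k : ℕ) (S : Set V) : Prop :=
  Maximal (Separated G k) S

/-- The `k`-net graph on `S`: distinct vertices of `S` are adjacent when their distance
in `G` is at most `2 * k`. -/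
def netGraph {V : Type} (G : SimpleGraph V) (k : ℕ) (S : Set V) : SimpleGraph S where
  Adj u v := u ≠ v ∧ G.dist (u : V) (v : V) ≤ 2 * k
  symm := ⟨fun u v h => ⟨h.1.symm, by rw [SimpleGraph.dist_comm]; exact h.2⟩⟩
  loopless := ⟨fun u h => h.1 rfl⟩

/-- `G` is vertex-transitive. -/
def VertexTransitive {V : Type} (G : SimpleGraph V) : Prop :=
  ∀ u v : V, ∃ φ : G ≃g G, φ u = v

end Pool.Agent.H208Z.Net
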