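import Mathlib
import Pool.Agent.H208Z.NetDefs

set_option autoImplicit false

namespace Pool.Agent.H208Z.Net

open SimpleGraph

section General

variable {V : Type} {G : SimpleGraph V}

/-- There is a walk of length at most `m`. -/
def Near (G : SimpleGraph V) (m : ℕ) (u v : V) : Prop := ∃ p : G.Walk u v, p.length ≤ m

theorem Near.refl (u : V) (m : ℕ) : Near G m u u := ⟨Walk.nil, Nat.zero_le _⟩

theorem Near.of_adj {u v : V} (h : G.Adj u v) : Near G 1 u v := ⟨h.toWalk, by simp⟩

theorem Near.of_eq_or_adj {u v : V} (h : u = v ∨ G.Adj u v) : Near G 1 u v := by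
  rcases h with rfl | h
  · exact Near.refl _ _
  · exact Near.of_adj h

theorem Near.trans {u v w : V} {m n : ℕ} (h : Near G m u v) (h' : Near G n v w) :
    Near G (m + n) u w := by
  obtain ⟨p, hp⟩ := h
  obtain ⟨q, hq⟩ := h'
  exact ⟨p.append q, by rw [Walk.length_append]; omega⟩

theorem Near.mono {u v : V} {m n : ℕ} (h : Near G m u v) (hmn : m ≤ n) : Near G n u v := by
  obtain ⟨p, hp⟩ := h
  exact ⟨p, hp.trans hmn⟩

theorem Near.dist_le {u v : V} {m : ℕ} (h : Near G m u v) : G.dist u v ≤ m := by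
  obtain ⟨p, hp⟩ := h
  exact (SimpleGraph.dist_le p).trans hp

theorem near_of_dist (hG : G.Connected) {u v : V} {m : ℕ} (h : G.dist u v ≤ m) :
    Near G m u v := by
  obtain ⟨p, hp⟩ := hG.exists_walk_length_eq_dist u v
  exact ⟨p, by omega⟩

theorem Near.step {u v : V} {m : ℕ} (h : Near G (m + 1) u v) :
    ∃ u', (u = u' ∨ G.Adj u u') ∧ Near G m u' v := by
  obtain ⟨p, hp⟩ := h
  cases p with
  | nil => exact ⟨u, Or.inl rfl, Near.refl _ _⟩
  | cons h q => exact ⟨_, Or.inr h, q, by simpa using hp⟩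

theorem Near.eq_of_zero {u v : V} (h : Near G 0 u v) : u = v := by
  obtain ⟨p, hp⟩ := h
  exact Walk.eq_of_length_eq_zero (Nat.le_zero.1 hp)

theorem closed_nbhd (d : ℕ)
    (hd : ∀ v, (G.neighborSet v).Finite ∧ (G.neighborSet v).ncard ≤ d) (v : V) :
    {u | v = u ∨ G.Adj v u}.Finite ∧ {u | v = u ∨ G.Adj v u}.ncard ≤ d + 1 := by
  have e : {u | v = u ∨ G.Adj v u} = insert v (G.neighborSet v) := by
    ext u
    simp [eq_comm]
  rw [e]
  exact ⟨(hd v).1.insert v, (Set.ncard_insert_le _ _).trans (Nat.succ_le_succ (hd v).2)⟩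

theorem ball_bound (d : ℕ)
    (hd : ∀ v, (G.neighborSet v).Finite ∧ (G.neighborSet v).ncard ≤ d) (r : ℕ) :
    ∀ v, {u | Near G r v u}.Finite ∧ {u | Near G r v u}.ncard ≤ (d + 1) ^ r := by
  classical
  induction r with
  | zero =>
    intro v
    have : {u | Near G 0 v u} ⊆ {v} := fun u hu => (Near.eq_of_zero hu).symm
    exact ⟨(Set.finite_singleton v).subset this,
      (Set.ncard_le_ncard this (Set.finite_singleton v)).trans (by simp)⟩
  | succ r ih =>
    intro v
    obtain ⟨h1, h2⟩ := closed_nbhd d hd v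
    have hsub : {u | Near G (r + 1) v u} ⊆
        (h1.toFinset.biUnion fun w => (ih w).1.toFinset : Finset V) := by
      intro u hu
      obtain ⟨u', h3, h4⟩ := Near.step hu
      simp only [Finset.coe_biUnion, Set.mem_iUnion, Finset.mem_coe, Set.Finite.mem_toFinset]
      exact ⟨u', h3, h4⟩
    refine ⟨(Finset.finite_toSet _).subset hsub, ?_⟩
    refine (Set.ncard_le_ncard hsub (Finset.finite_toSet _)).trans ?_
    rw [Set.ncard_coe_finset]
    refine (Finset.card_biUnion_le_card_mul _ _ ((d + 1) ^ r) fun w _ => ?_).trans ?_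
    · rw [← Set.ncard_eq_toFinset_card _ (ih w).1]
      exact (ih w).2
    · rw [← Set.ncard_eq_toFinset_card _ h1, pow_succ']
      exact Nat.mul_le_mul_right _ h2

theorem IsNet.cover {k : ℕ} {S : Set V} (hS : IsNet G k S) (w : V) (hw : w ∉ S) :
    ∃ u ∈ S, G.dist w u < k := by
  by_contra h
  push Not at h
  have h1 : Separated G k (insert w S) := by
    intro a ha b hb hab
    rcases ha with rfl | ha
    · rcases hb with rfl | hb
      · exact absurd rfl hab
      · exact h b hb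
    · rcases hb with rfl | hb
      · rw [SimpleGraph.dist_comm]; exact h a ha
      · exact hS.1 a ha b hb hab
  exact hw (hS.2 h1 (Set.subset_insert w S) (Set.mem_insert w S))

theorem isNet_of_cover {k : ℕ} {S : Set V} (h1 : Separated G k S)
    (h2 : ∀ w, w ∉ S → ∃ u ∈ S, G.dist w u < k) : IsNet G k S := by
  refine ⟨h1, fun S' hS' hle w hw => ?_⟩
  by_contra hwS
  obtain ⟨u, hu, hd⟩ := h2 w hwS
  have := hS' w hw u (hle hu) (by rintro rfl; exact hwS hu)
  omega

theorem exists_net_superset (k : ℕ) (S0 : Set V) (h0 : Separated G k S0) :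
    ∃ S, S0 ⊆ S ∧ IsNet G k S := by
  obtain ⟨S, hS1, hS⟩ := zorn_subset_nonempty {S | Separated G k S} (by
    intro c hc hchain _
    refine ⟨⋃₀ c, ?_, fun s hs => Set.subset_sUnion_of_mem hs⟩
    rintro u ⟨s, hs, hus⟩ v ⟨t, ht, hvt⟩ huv
    rcases hchain.total hs ht with h | h
    · exact hc ht u (h hus) v hvt huv
    · exact hc hs u hus v (h hvt) huv) S0 h0
  exact ⟨S, hS1, hS⟩

theorem edgeBoundary_finite (hG : ∀ v, (G.neighborSet v).Finite) (A : Finset V) :
    (edgeBoundary G A).Finite := by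
  have h1 : (⋃ x ∈ A, (fun y => s(x, y)) '' G.neighborSet x).Finite :=
    Set.Finite.biUnion A.finite_toSet (fun x _ => (hG x).image _)
  refine h1.subset ?_
  rintro e ⟨he, u, hu, v, hv, rfl⟩
  rw [Set.mem_iUnion₂]
  exact ⟨u, hu, v, he, rfl⟩

theorem one_le_cheeger [Nonempty V] (hG : ∀ v, (G.neighborSet v).Finite) (c : V × Bool → V)
    (hc : Function.Injective c) (hadj : ∀ q, G.Adj q.1 (c q)) : 1 ≤ cheeger G := by
  classical
  obtain ⟨v0⟩ := ‹Nonempty V›
  refine le_csInf ⟨_, {v0}, Finset.singleton_nonempty _, rfl⟩ ?_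
  rintro r ⟨A, hA, rfl⟩
  have h1 : (0 : ℝ) < A.card := by exact_mod_cast hA.card_pos
  rw [le_div_iff₀ h1, one_mul]
  set P : Finset (V × Bool) := A ×ˢ Finset.univ with hP
  have hPc : P.card = A.card * 2 := by simp [hP]
  have hin : (P.filter fun q => c q ∈ A).card ≤ A.card :=
    Finset.card_le_card_of_injOn c (fun q hq => (Finset.mem_filter.1 hq).2) hc.injOn
  have hsum := Finset.card_filter_add_card_filter_not (s := P) (fun q => c q ∈ A)
  have hle : (P.filter fun q => c q ∉ A).card ≤ (edgeBoundary G A).ncard := by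
    rw [← Set.ncard_coe_finset]
    refine Set.ncard_le_ncard_of_injOn (fun q => s(q.1, c q)) ?_ ?_ (edgeBoundary_finite hG A)
    · intro q hq
      rw [Finset.mem_coe, Finset.mem_filter, hP, Finset.mem_product] at hq
      exact ⟨hadj q, q.1, hq.1.1, c q, hq.2, rfl⟩
    · intro q hq q' hq' h
      rw [Finset.mem_coe, Finset.mem_filter, hP, Finset.mem_product] at hq hq'
      simp only [Sym2.eq_iff] at h
      rcases h with h | h
      · exact hc h.2
      · exact absurd (h.1 ▸ hq.1.1) hq'.2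
  have : A.card ≤ (edgeBoundary G A).ncard := by omega
  exact_mod_cast this

end General

section Product

variable {U W : Type}

/-- The strong product of two graphs. -/
def sprod (T : SimpleGraph U) (X : SimpleGraph W) : SimpleGraph (U × W) where
  Adj a b := a ≠ b ∧ (a.1 = b.1 ∨ T.Adj a.1 b.1) ∧ (a.2 = b.2 ∨ X.Adj a.2 b.2)
  symm := ⟨fun a b h => ⟨h.1.symm, h.2.1.imp Eq.symm fun h => h.symm,
    h.2.2.imp Eq.symm fun h => h.symm⟩⟩
  loopless := ⟨fun a h => h.1 rfl⟩

variable {T : SimpleGraph U} {X : SimpleGraph W}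

theorem near_sprod_iff (m : ℕ) : ∀ a b : U × W,
    Near (sprod T X) m a b ↔ Near T m a.1 b.1 ∧ Near X m a.2 b.2 := by
  induction m with
  | zero =>
    intro a b
    constructor
    · intro h
      rw [h.eq_of_zero]
      exact ⟨Near.refl _ _, Near.refl _ _⟩
    · rintro ⟨h1, h2⟩
      rw [Prod.ext h1.eq_of_zero h2.eq_of_zero]
      exact Near.refl _ _
  | succ m ih =>
    intro a b
    constructor
    · intro h
      obtain ⟨a', h1, h2⟩ := h.step
      obtain ⟨h3, h4⟩ := (ih a' b).1 h2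
      rw [add_comm]
      rcases h1 with rfl | h1
      · exact ⟨h3.mono (by omega), h4.mono (by omega)⟩
      · exact ⟨(Near.of_eq_or_adj h1.2.1).trans h3, (Near.of_eq_or_adj h1.2.2).trans h4⟩
    · rintro ⟨h1, h2⟩
      obtain ⟨u, h3, h4⟩ := h1.step
      obtain ⟨w, h5, h6⟩ := h2.step
      have h7 := (ih (u, w) b).2 ⟨h4, h6⟩
      rw [add_comm]
      refine (Near.of_eq_or_adj ?_).trans h7
      by_cases h : a = (u, w)
      · exact Or.inl h
      · exact Or.inr ⟨h, h3, h5⟩

theorem sprod_connected (hT : T.Connected) (hX : X.Connected) : (sprod T X).Connected := by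
  have := hT.nonempty
  have := hX.nonempty
  refine ⟨fun a b => ?_⟩
  obtain ⟨p, -⟩ := (near_sprod_iff (max (T.dist a.1 b.1) (X.dist a.2 b.2)) a b).2
    ⟨near_of_dist hT (le_max_left _ _), near_of_dist hX (le_max_right _ _)⟩
  exact ⟨p⟩

theorem sprod_dist_le_iff (hT : T.Connected) (hX : X.Connected) (a b : U × W) (m : ℕ) :
    (sprod T X).dist a b ≤ m ↔ T.dist a.1 b.1 ≤ m ∧ X.dist a.2 b.2 ≤ m := by
  constructor
  · intro h
    obtain ⟨h1, h2⟩ := (near_sprod_iff m a b).1 (near_of_dist (sprod_connected hT hX) h)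
    exact ⟨h1.dist_le, h2.dist_le⟩
  · rintro ⟨h1, h2⟩
    exact ((near_sprod_iff m a b).2 ⟨near_of_dist hT h1, near_of_dist hX h2⟩).dist_le

theorem sprod_transitive (hT : VertexTransitive T) (hX : VertexTransitive X) :
    VertexTransitive (sprod T X) := by
  intro a b
  obtain ⟨φ, hφ⟩ := hT a.1 b.1
  obtain ⟨ψ, hψ⟩ := hX a.2 b.2
  refine ⟨{ toEquiv := Equiv.prodCongr φ.toEquiv ψ.toEquiv, map_rel_iff' := ?_ }, ?_⟩
  · intro x y
    change (Equiv.prodCongr φ.toEquiv ψ.toEquiv x ≠ Equiv.prodCongr φ.toEquiv ψ.toEquiv y ∧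
      (φ x.1 = φ y.1 ∨ T.Adj (φ x.1) (φ y.1)) ∧ (ψ x.2 = ψ y.2 ∨ X.Adj (ψ x.2) (ψ y.2))) ↔
      (x ≠ y ∧ (x.1 = y.1 ∨ T.Adj x.1 y.1) ∧ (x.2 = y.2 ∨ X.Adj x.2 y.2))
    rw [φ.map_adj_iff, ψ.map_adj_iff, φ.injective.eq_iff, ψ.injective.eq_iff,
      (Equiv.injective _).ne_iff]
  · exact Prod.ext hφ hψ

theorem sprod_degree (d d' : ℕ)
    (hd : ∀ v, (T.neighborSet v).Finite ∧ (T.neighborSet v).ncard ≤ d)
    (hd' : ∀ v, (X.neighborSet v).Finite ∧ (X.neighborSet v).ncard ≤ d') (a : U × W) :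
    ((sprod T X).neighborSet a).Finite ∧ ((sprod T X).neighborSet a).ncard ≤ (d + 1) * (d' + 1) := by
  obtain ⟨h1, h2⟩ := closed_nbhd d hd a.1
  obtain ⟨h3, h4⟩ := closed_nbhd d' hd' a.2
  have hsub : (sprod T X).neighborSet a ⊆
      {u | a.1 = u ∨ T.Adj a.1 u} ×ˢ {u | a.2 = u ∨ X.Adj a.2 u} := fun b hb => hb.2
  refine ⟨(h1.prod h3).subset hsub, (Set.ncard_le_ncard hsub (h1.prod h3)).trans ?_⟩
  rw [Set.ncard_prod]
  exact Nat.mul_le_mul h2 h4

/-- A net of the strong product which is dense in one fibre and sparse in all other fibres. -/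
theorem sprod_net [Finite W] (hT : T.Connected) (hX : X.Connected) (d : ℕ)
    (hd : ∀ v, (T.neighborSet v).Finite ∧ (T.neighborSet v).ncard ≤ d) (k : ℕ) (hk : 1 ≤ k)
    (Y1 Y2 : Set W) (h1 : IsNet X k Y1) (h2 : IsNet X k Y2) (hne : Y1.Nonempty) :
    ∃ S, IsNet (sprod T X) k S ∧ cheeger (netGraph (sprod T X) k S) ≤
      (((d + 1) ^ (4 * k) * Y2.ncard : ℕ) : ℝ) ^ 2 / Y1.ncard := by
  classical
  obtain ⟨t0⟩ := hT.nonempty
  obtain ⟨ST, hST0, hST⟩ := exists_net_superset (G := T) k {t0} (by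
    intro u hu v hv huv
    exact absurd (hu.trans hv.symm) huv)
  have ht0 : t0 ∈ ST := hST0 rfl
  let Y : U → Set W := fun t => if t = t0 then Y1 else Y2
  have hY : ∀ t, IsNet X k (Y t) := by
    intro t
    simp only [Y]
    split_ifs
    · exact h1
    · exact h2
  let S : Set (U × W) := {a | a.1 ∈ ST ∧ a.2 ∈ Y a.1}
  have hcov : ∀ {V : Type} {G : SimpleGraph V} {S : Set V}, IsNet G k S → ∀ w,
      ∃ u ∈ S, G.dist w u < k := by
    intro V G S hS w
    by_cases hw : w ∈ S
    · exact ⟨w, hw, by rw [SimpleGraph.dist_self]; omega⟩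
    · exact hS.cover w hw
  have hS : IsNet (sprod T X) k S := by
    refine isNet_of_cover ?_ ?_
    · intro a ha b hb hab
      by_contra hlt
      obtain ⟨h3, h4⟩ := (sprod_dist_le_iff hT hX a b (k - 1)).1 (by omega)
      by_cases h5 : a.1 = b.1
      · have h6 : a.2 ≠ b.2 := fun h => hab (Prod.ext h5 h)
        have := (hY a.1).1 a.2 ha.2 b.2 (h5 ▸ hb.2) h6
        omega
      · have := hST.1 a.1 ha.1 b.1 hb.1 h5
        omega
    · intro w _
      obtain ⟨t, ht, h3⟩ := hcov hST w.1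
      obtain ⟨x, hx, h4⟩ := hcov (hY t) w.2
      refine ⟨(t, x), ⟨ht, hx⟩, ?_⟩
      have := (sprod_dist_le_iff hT hX w (t, x) (k - 1)).2 ⟨by dsimp only; omega,
        by dsimp only; omega⟩
      omega
  refine ⟨S, hS, ?_⟩
  obtain ⟨hB1, hB2⟩ := ball_bound d hd (4 * k) t0
  set B := {u | Near T (4 * k) t0 u} with hB
  have hAfin : {a : S | T.dist t0 (a : U × W).1 ≤ 2 * k}.Finite := by
    refine Set.Finite.of_finite_image (f := Subtype.val) ?_ Subtype.val_injective.injOn
    refine (hB1.prod (Set.toFinite (Set.univ : Set W))).subset ?_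
    rintro _ ⟨a, ha, rfl⟩
    exact ⟨near_of_dist hT (le_trans ha (by omega)), trivial⟩
  set A : Finset S := hAfin.toFinset with hA
  have hmemA : ∀ a : S, a ∈ A ↔ T.dist t0 (a : U × W).1 ≤ 2 * k := fun a => by
    rw [hA, Set.Finite.mem_toFinset]; rfl
  have hY0 : Y t0 = Y1 := if_pos rfl
  have hcardA : Y1.ncard ≤ A.card := by
    have : Y1.ncard ≤ (Subtype.val '' (A : Set S)).ncard := by
      refine Set.ncard_le_ncard_of_injOn (fun x => (t0, x)) ?_ ?_
        ((Finset.finite_toSet A).image _)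
      · intro x hx
        refine ⟨⟨(t0, x), ht0, by rw [hY0]; exact hx⟩, ?_, rfl⟩
        rw [Finset.mem_coe, hmemA]
        simp
      · intro x _ y _ h
        exact (Prod.ext_iff.1 h).2
    rwa [Set.ncard_image_of_injective _ Subtype.val_injective, Set.ncard_coe_finset] at this
  have hY1pos : 0 < Y1.ncard := (Set.ncard_pos (Set.toFinite _)).2 hne
  have hAne : A.Nonempty := Finset.card_pos.1 (by omega)
  have hb : BddBelow {r : ℝ | ∃ A : Finset S, A.Nonempty ∧
      r = ((edgeBoundary (netGraph (sprod T X) k S) A).ncard : ℝ) / (A.card : ℝ)} := by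
    refine ⟨0, ?_⟩
    rintro r ⟨A, -, rfl⟩
    positivity
  refine (csInf_le hb ⟨A, hAne, rfl⟩).trans ?_
  have hfin : (B ×ˢ Y2).Finite := hB1.prod (Set.toFinite _)
  have hbd : (edgeBoundary (netGraph (sprod T X) k S) A).ncard ≤
      ((d + 1) ^ (4 * k) * Y2.ncard) ^ 2 := by
    have hsub : Sym2.map Subtype.val '' edgeBoundary (netGraph (sprod T X) k S) A ⊆
        (fun q : (U × W) × (U × W) => s(q.1, q.2)) '' ((B ×ˢ Y2) ×ˢ (B ×ˢ Y2)) := by
      rintro _ ⟨e, ⟨he, u, hu, v, hv, rfl⟩, rfl⟩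
      have h3 : (netGraph (sprod T X) k S).Adj u v := he
      have h4 := ((sprod_dist_le_iff hT hX _ _ _).1 h3.2).1
      rw [hmemA] at hu hv
      have h5 : (u : U × W).1 ≠ t0 := by
        intro h
        rw [h] at h4
        exact hv h4
      have h6 : (v : U × W).1 ≠ t0 := by
        intro h
        rw [h] at hv
        simp at hv
      have h7 := hT.dist_triangle (u := t0) (v := (u : U × W).1) (w := (v : U × W).1)
      refine ⟨((u : U × W), (v : U × W)), ⟨⟨near_of_dist hT (by dsimp only; omega), ?_⟩,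
        ⟨near_of_dist hT (by dsimp only; omega), ?_⟩⟩, rfl⟩
      · have := u.2.2
        simpa only [Y, if_neg h5] using this
      · have := v.2.2
        simpa only [Y, if_neg h6] using this
    have h3 := Set.ncard_le_ncard hsub ((hfin.prod hfin).image _)
    rw [Set.ncard_image_of_injective _ (Sym2.map.injective Subtype.val_injective)] at h3
    refine h3.trans ((Set.ncard_image_le (hfin.prod hfin)).trans ?_)
    rw [Set.ncard_prod, Set.ncard_prod, sq]
    exact Nat.mul_le_mul (Nat.mul_le_mul_right _ hB2) (Nat.mul_le_mul_right _ hB2)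
  have h8 : (0 : ℝ) < Y1.ncard := by exact_mod_cast hY1pos
  refine div_le_div₀ (by positivity) ?_ h8 (by exact_mod_cast hcardA)
  exact_mod_cast hbd

end Product

/-! The four-regular tree, as a Cayley graph of the free group on two letters. -/

abbrev F : Type := FreeGroup (Fin 2)

def tree : SimpleGraph F where
  Adj x y := x ≠ y ∧ (y * x⁻¹).norm ≤ 1
  symm := ⟨fun x y h => ⟨h.1.symm, by
    have := h.2
    rw [← FreeGroup.norm_inv_eq] at this
    simpa using this⟩⟩
  loopless := ⟨fun x h => h.1 rfl⟩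

theorem tree_connected : tree.Connected := by
  have h0 : ∀ L : List (Fin 2 × Bool), tree.Reachable 1 (FreeGroup.mk L) := by
    intro L
    induction L with
    | nil => exact Reachable.refl _
    | cons s L ih =>
      by_cases h : (FreeGroup.mk L : F) = FreeGroup.mk (s :: L)
      · rw [← h]; exact ih
      · refine ih.trans (Adj.reachable ⟨h, ?_⟩)
        have e : (FreeGroup.mk (s :: L) : F) * (FreeGroup.mk L)⁻¹ = FreeGroup.mk [s] := by
          rw [mul_inv_eq_iff_eq_mul, FreeGroup.mul_mk]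
          rfl
        rw [e]
        exact FreeGroup.norm_mk_le
  have h : ∀ x : F, tree.Reachable 1 x := by
    intro v
    have := h0 v.toWord
    rwa [FreeGroup.mk_toWord] at this
  exact { preconnected := fun x y => (h x).symm.trans (h y), nonempty := ⟨1⟩ }

theorem tree_degree : ∃ d : ℕ, ∀ v, (tree.neighborSet v).Finite ∧ (tree.neighborSet v).ncard ≤ d := by
  have h1 : {l : List (Fin 2 × Bool) | l.length ≤ 1}.Finite := List.finite_length_le _ 1
  have h2 : {x : F | x.norm ≤ 1}.Finite := Set.Finite.of_finite_image (f := FreeGroup.toWord)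
    (h1.subset (by rintro _ ⟨x, hx, rfl⟩; exact hx)) (FreeGroup.toWord_injective.injOn)
  refine ⟨{x : F | x.norm ≤ 1}.ncard, fun v => ?_⟩
  have hinj : Set.InjOn (fun y : F => y * v⁻¹) (tree.neighborSet v) :=
    fun a _ b _ h => mul_right_cancel h
  refine ⟨Set.Finite.of_finite_image (h2.subset ?_) hinj,
    Set.ncard_le_ncard_of_injOn _ (fun y hy => hy.2) hinj h2⟩
  rintro _ ⟨y, hy, rfl⟩
  exact hy.2

theorem tree_transitive : VertexTransitive tree := by
  intro x y
  refine ⟨{ toEquiv := Equiv.mulRight (x⁻¹ * y), map_rel_iff' := ?_ }, ?_⟩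
  · intro a b
    change (a * (x⁻¹ * y) ≠ b * (x⁻¹ * y) ∧ (b * (x⁻¹ * y) * (a * (x⁻¹ * y))⁻¹).norm ≤ 1) ↔
      (a ≠ b ∧ (b * a⁻¹).norm ≤ 1)
    have e : b * (x⁻¹ * y) * (a * (x⁻¹ * y))⁻¹ = b * a⁻¹ := by group
    rw [e, (mul_left_injective _).ne_iff]
  · change x * (x⁻¹ * y) = y
    group

def other : List (Fin 2 × Bool) → Fin 2
  | [] => 0
  | (a :: _) => a.1 + 1

def child (v : F) (b : Bool) : F := FreeGroup.mk ((other v.toWord, b) :: v.toWord)

theorem toWord_child (v : F) (b : Bool) :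
    (child v b).toWord = (other v.toWord, b) :: v.toWord := by
  unfold child
  rw [FreeGroup.toWord_mk, FreeGroup.reduce.cons, FreeGroup.reduce_toWord]
  rcases h : v.toWord with _ | ⟨a, L⟩
  · rfl
  · have h1 : a.1 + 1 ≠ a.1 := by
      intro h
      have : ∀ c : Fin 2, c + 1 ≠ c := by decide
      exact this _ h
    simp [other, h1]

theorem child_injective (v w : F) (b c : Bool) (h : child v b = child w c) :
    v = w ∧ b = c := by
  have h1 := congrArg FreeGroup.toWord h
  rw [toWord_child, toWord_child] at h1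
  simp only [List.cons.injEq, Prod.mk.injEq] at h1
  exact ⟨FreeGroup.toWord_injective h1.2, h1.1.2⟩

theorem child_adj (v : F) (b : Bool) : tree.Adj v (child v b) := by
  constructor
  · intro h
    have h1 := congrArg (fun x : F => x.toWord.length) h
    simp only [toWord_child, List.length_cons] at h1
    omega
  · have e1 : ∀ (a : Fin 2 × Bool) (L : List (Fin 2 × Bool)),
        (FreeGroup.mk (a :: L) : F) = FreeGroup.mk [a] * FreeGroup.mk L := by
      intro a L
      rw [FreeGroup.mul_mk]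
      rfl
    have e : child v b * v⁻¹ = FreeGroup.mk [(other v.toWord, b)] := by
      rw [mul_inv_eq_iff_eq_mul]
      unfold child
      rw [e1, FreeGroup.mk_toWord]
    rw [e]
    exact FreeGroup.norm_mk_le

theorem tree_sprod_cheeger {W : Type} [Nonempty W] (X : SimpleGraph W)
    (hG : ∀ v, ((sprod tree X).neighborSet v).Finite) : 1 ≤ cheeger (sprod tree X) := by
  refine one_le_cheeger hG (fun q => (child q.1.1 q.2, q.1.2)) ?_ ?_
  · rintro ⟨⟨t, x⟩, b⟩ ⟨⟨t', x'⟩, b'⟩ h
    simp only [Prod.mk.injEq] at h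
    obtain ⟨h1, rfl⟩ := h
    obtain ⟨rfl, rfl⟩ := child_injective _ _ _ _ h1
    rfl
  · rintro ⟨⟨t, x⟩, b⟩
    exact ⟨fun h => (child_adj t b).1 (Prod.ext_iff.1 h).1, Or.inr (child_adj t b), Or.inl rfl⟩

theorem infinite_F : Infinite F := by
  rw [← not_finite_iff_infinite]
  intro hf
  have h2 : Function.Injective (fun q : F × Bool => child q.1 q.2) := by
    rintro ⟨v, b⟩ ⟨w, c⟩ h
    obtain ⟨rfl, rfl⟩ := child_injective _ _ _ _ h
    rfl
  have h3 := Nat.card_le_card_of_injective _ h2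
  rw [Nat.card_prod] at h3
  have h4 : 0 < Nat.card F := Nat.card_pos
  have h5 : Nat.card Bool = 2 := by simp
  rw [h5] at h3
  omega

end Pool.Agent.H208Z.Net
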