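import Mathlib
import Pool.Agent.H208Z.NetProd

set_option autoImplicit false

namespace Pool.Agent.H208Z.Net

open SimpleGraph Finset

abbrev L (e : ℕ) : Type := Fin e → ZMod 2

abbrev J (e : ℕ) : Type := {c : L e // c ≠ 0} × Fin 3

abbrev Wt (e n : ℕ) : Type := (ZMod n × J e → L e) × ZMod n

/-- Distance from `0` in the complete bipartite lamp graph given by the functional `c`. -/
def dl {e : ℕ} (c x : L e) : ℕ := if x = 0 then 0 else if c ⬝ᵥ x = 1 then 1 else 2

theorem zmod2_cases : ∀ a : ZMod 2, a = 0 ∨ a = 1 := by decide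

theorem zmod2_neg_one : (-1 : ZMod 2) = 1 := by decide

theorem dl_add_le {e : ℕ} (c x y : L e) : dl c (x + y) ≤ dl c x + dl c y := by
  by_cases hx : x = 0
  · subst hx; simp [dl]
  by_cases hy : y = 0
  · subst hy; simp [dl]
  unfold dl
  rw [if_neg hx, if_neg hy]
  split_ifs <;> omega

theorem dl_zero {e : ℕ} (c : L e) : dl c 0 = 0 := by simp [dl]

theorem exists_dot_one {e : ℕ} {c : L e} (hc : c ≠ 0) : ∃ s : L e, c ⬝ᵥ s = 1 := by
  obtain ⟨i, hi⟩ := Function.ne_iff.1 hc
  refine ⟨Pi.single i 1, ?_⟩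
  rw [dotProduct_single, mul_one]
  exact (zmod2_cases _).resolve_left hi

theorem card_dot_one {e : ℕ} {y : L e} (hy : y ≠ 0) :
    2 * (univ.filter fun z : L e => y ⬝ᵥ z = 1).card = 2 ^ e ∧
    2 * (univ.filter fun z : L e => y ⬝ᵥ z = 0).card = 2 ^ e := by
  obtain ⟨s, hs⟩ := exists_dot_one hy
  have h1 : (univ.filter fun z : L e => y ⬝ᵥ z = 1).card =
      (univ.filter fun z : L e => y ⬝ᵥ z = 0).card := by
    refine card_bij' (fun z _ => z - s) (fun z _ => z + s) ?_ ?_ ?_ ?_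
    · intro z hz
      simp only [mem_filter, mem_univ, true_and] at hz ⊢
      rw [dotProduct_sub, hz, hs, sub_self]
    · intro z hz
      simp only [mem_filter, mem_univ, true_and] at hz ⊢
      rw [dotProduct_add, hz, hs, zero_add]
    · intro z _; simp
    · intro z _; simp
  have h2 := card_filter_add_card_filter_not (s := (univ : Finset (L e)))
    (fun z : L e => y ⬝ᵥ z = 1)
  have h3 : (univ.filter fun z : L e => ¬ y ⬝ᵥ z = 1) =
      (univ.filter fun z : L e => y ⬝ᵥ z = 0) := by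
    refine filter_congr fun z _ => ?_
    rcases zmod2_cases (y ⬝ᵥ z) with h | h <;> simp [h]
  have h4 : (univ : Finset (L e)).card = 2 ^ e := by simp
  rw [h3, h4] at h2
  omega

theorem sum_dl {e m : ℕ} (hm : 2 * m = 2 ^ e) {y : L e} (hy : y ≠ 0) :
    ∑ z : L e, dl y z + 2 = 3 * m := by
  have h1 : ∀ z : L e, dl y z + (if y ⬝ᵥ z = 1 then 1 else 0) + (if z = 0 then 2 else 0) = 2 := by
    intro z
    unfold dl
    by_cases hz : z = 0
    · subst hz; simp
    · simp only [if_neg hz]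
      split_ifs <;> rfl
  have h2 := sum_congr (s₁ := (univ : Finset (L e))) rfl fun z _ => h1 z
  rw [sum_add_distrib, sum_add_distrib, ← card_filter, sum_ite_eq'] at h2
  have h3 := (card_dot_one hy).1
  simp only [mem_univ, if_true, sum_const, card_univ, smul_eq_mul] at h2
  have h4 : Fintype.card (L e) = 2 ^ e := by simp
  rw [h4] at h2
  omega

theorem sum_dl' {e m : ℕ} (hm : 2 * m = 2 ^ e) {x : L e} (hx : x ≠ 0) :
    ∑ c : {c : L e // c ≠ 0}, dl c.1 x + 2 = 3 * m := by
  rw [← sum_dl hm hx]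
  congr 1
  have h1 : ∑ c : {c : L e // c ≠ 0}, dl c.1 x = ∑ c : {c : L e // c ≠ 0}, dl x c.1 := by
    refine sum_congr rfl fun c _ => ?_
    unfold dl
    rw [if_neg hx, if_neg c.2, dotProduct_comm]
  rw [h1, ← sum_subtype (univ.erase (0 : L e)) (by simp) (fun z => dl x z)]
  exact sum_erase _ (dl_zero x)

variable {e n : ℕ}

/-- A lamplighter graph on a cycle with complete bipartite lamps. -/
def lamp (e n : ℕ) : SimpleGraph (Wt e n) where
  Adj a b := (a.1 = b.1 ∧ a.2 ≠ b.2 ∧ (b.2 = a.2 + 1 ∨ a.2 = b.2 + 1)) ∨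
    (a.2 = b.2 ∧ ∃ j : J e, j.1.1 ⬝ᵥ (b.1 (a.2, j) - a.1 (a.2, j)) = 1 ∧
      ∀ i, i ≠ (a.2, j) → b.1 i = a.1 i)
  symm := ⟨by
    rintro a b (⟨h1, h2, h3⟩ | ⟨h1, j, h2, h3⟩)
    · exact Or.inl ⟨h1.symm, h2.symm, h3.symm⟩
    · refine Or.inr ⟨h1.symm, j, ?_, fun i hi => (h3 i (h1 ▸ hi)).symm⟩
      rw [← h1, ← neg_sub, dotProduct_neg, h2, zmod2_neg_one]⟩
  loopless := ⟨by
    rintro a (⟨-, h2, -⟩ | ⟨-, j, h2, -⟩)
    · exact h2 rfl
    · simp at h2⟩

def rho [NeZero n] (f g : ZMod n × J e → L e) : ℕ := ∑ i, dl i.2.1.1 (g i - f i)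

theorem rho_triangle [NeZero n] (f g h : ZMod n × J e → L e) : rho f h ≤ rho f g + rho g h := by
  unfold rho
  rw [← sum_add_distrib]
  refine sum_le_sum fun i _ => ?_
  have : h i - f i = (g i - f i) + (h i - g i) := by abel
  rw [this]
  exact dl_add_le _ _ _

theorem rho_self [NeZero n] (f : ZMod n × J e → L e) : rho f f = 0 := by
  simp [rho, dl_zero]

theorem rho_adj [NeZero n] {a b : Wt e n} (h : (lamp e n).Adj a b) : rho a.1 b.1 ≤ 1 := by
  rcases h with ⟨h1, -, -⟩ | ⟨-, j, h2, h3⟩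
  · rw [h1, rho_self]; omega
  · unfold rho
    rw [sum_eq_single (a.2, j)]
    · unfold dl
      split_ifs <;> omega
    · intro i _ hi
      rw [h3 i hi, sub_self, dl_zero]
    · simp

theorem rho_le_of_near [NeZero n] (m : ℕ) : ∀ a b : Wt e n, Near (lamp e n) m a b →
    rho a.1 b.1 ≤ m := by
  induction m with
  | zero => intro a b h; rw [h.eq_of_zero, rho_self]
  | succ m ih =>
    intro a b h
    obtain ⟨a', h1, h2⟩ := h.step
    have h3 := ih a' b h2
    rcases h1 with rfl | h1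
    · omega
    · have := rho_triangle a.1 a'.1 b.1
      have := rho_adj h1
      omega

theorem adj_update (h : ZMod n × J e → L e) (q : ZMod n) (j : J e) (y : L e)
    (hy : j.1.1 ⬝ᵥ (y - h (q, j)) = 1) :
    (lamp e n).Adj (h, q) (Function.update h (q, j) y, q) :=
  Or.inr ⟨rfl, j, by simpa using hy, fun i hi => Function.update_of_ne hi _ _⟩

theorem near_update (h : ZMod n × J e → L e) (q : ZMod n) (j : J e) (y : L e) :
    Near (lamp e n) (dl j.1.1 (y - h (q, j))) (h, q) (Function.update h (q, j) y, q) := by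
  unfold dl
  split_ifs with h1 h2
  · rw [sub_eq_zero.1 h1, Function.update_eq_self]
    exact Near.refl _ _
  · exact Near.of_adj (adj_update h q j y h2)
  · obtain ⟨s, hs⟩ := exists_dot_one j.1.2
    have h3 := Near.of_adj (adj_update h q j (h (q, j) + s) (by simpa using hs))
    have h4 := Near.of_adj (adj_update (Function.update h (q, j) (h (q, j) + s)) q j y (by
      rw [Function.update_self, ← sub_sub, dotProduct_sub, hs,
        (zmod2_cases _).resolve_right h2, zero_sub, zmod2_neg_one]))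
    rw [Function.update_idem] at h4
    exact h3.trans h4

theorem rho_update [NeZero n] (h g : ZMod n × J e → L e) (i : ZMod n × J e) :
    dl i.2.1.1 (g i - h i) + rho (Function.update h i (g i)) g = rho h g := by
  unfold rho
  rw [← add_sum_erase _ _ (mem_univ i), ← add_sum_erase _ _ (mem_univ i), Function.update_self,
    sub_self, dl_zero, zero_add]
  congr 1
  refine sum_congr rfl fun i' hi' => ?_
  rw [Function.update_of_ne (ne_of_mem_erase hi')]

theorem fix_all [NeZero n] (g : ZMod n × J e → L e) (q : ZMod n) (s : Finset (J e))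
    (h : ZMod n × J e → L e) : ∃ h' m, Near (lamp e n) m (h, q) (h', q) ∧
      m + rho h' g ≤ rho h g ∧ (∀ j ∈ s, h' (q, j) = g (q, j)) ∧ ∀ i, h i = g i → h' i = g i := by
  induction s using Finset.induction_on with
  | empty => exact ⟨h, 0, Near.refl _ _, by omega, by simp, fun _ hi => hi⟩
  | insert j s _ ih =>
    obtain ⟨h', m, h1, h2, h3, h4⟩ := ih
    have hk : ∀ i, h' i = g i → Function.update h' (q, j) (g (q, j)) i = g i := by
      intro i hi
      by_cases hij : i = (q, j)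
      · rw [hij, Function.update_self]
      · rw [Function.update_of_ne hij, hi]
    refine ⟨Function.update h' (q, j) (g (q, j)), _, h1.trans (near_update h' q j (g (q, j))),
      ?_, ?_, fun i hi => hk i (h4 i hi)⟩
    · have := rho_update h' g (q, j)
      dsimp only at this
      omega
    · intro j' hj'
      rcases mem_insert.1 hj' with rfl | hj'
      · rw [Function.update_self]
      · exact hk _ (h3 j' hj')

theorem near_move (h : ZMod n × J e → L e) (q : ZMod n) : Near (lamp e n) 1 (h, q) (h, q + 1) := by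
  refine Near.of_eq_or_adj ?_
  by_cases hq : q = q + 1
  · exact Or.inl (by rw [← hq])
  · exact Or.inr (Or.inl ⟨rfl, hq, Or.inl rfl⟩)

theorem near_move' (h : ZMod n × J e → L e) (q : ZMod n) (t : ℕ) :
    Near (lamp e n) t (h, q) (h, q + t) := by
  induction t with
  | zero => simpa using Near.refl _ _
  | succ t ih =>
    have := ih.trans (near_move h (q + t))
    rwa [add_assoc, ← Nat.cast_succ] at this

theorem travel [NeZero n] (f g : ZMod n × J e → L e) (p : ZMod n) (t : ℕ) :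
    ∃ h m, Near (lamp e n) m (f, p) (h, p + t) ∧ m + rho h g ≤ t + rho f g ∧
      ∀ s < t, ∀ j, h (p + s, j) = g (p + s, j) := by
  induction t with
  | zero => exact ⟨f, 0, by simpa using Near.refl _ _, le_rfl, by simp⟩
  | succ t ih =>
    obtain ⟨h, m, h1, h2, h3⟩ := ih
    obtain ⟨h', m', h4, h5, h6, h7⟩ := fix_all g (p + t) univ h
    refine ⟨h', m + m' + 1, ?_, by omega, ?_⟩
    · have := (h1.trans h4).trans (near_move h' (p + t))
      rwa [add_assoc p, ← Nat.cast_succ] at this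
    · intro s hs j
      rcases Nat.lt_succ_iff_lt_or_eq.1 hs with hs | rfl
      · exact h7 _ (h3 s hs j)
      · exact h6 j (mem_univ _)

theorem near_lamp [NeZero n] (a b : Wt e n) : Near (lamp e n) (rho a.1 b.1 + 2 * n) a b := by
  obtain ⟨f, p⟩ := a
  obtain ⟨g, q⟩ := b
  obtain ⟨h, m, h1, h2, h3⟩ := travel f g p n
  have hv : ∀ r : ZMod n, p + ((r - p).val : ZMod n) = r := by
    intro r
    rw [ZMod.natCast_zmod_val]; ring
  have h4 : h = g := by
    funext ⟨r, j⟩
    have := h3 _ (ZMod.val_lt (r - p)) j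
    rwa [hv] at this
  rw [h4, ZMod.natCast_self, add_zero] at h1
  have h5 := near_move' g p (q - p).val
  rw [hv] at h5
  have h6 := ZMod.val_lt (q - p)
  exact (h1.trans h5).mono (by dsimp only; omega)

theorem lamp_connected [NeZero n] : (lamp e n).Connected := by
  refine ⟨fun a b => ?_⟩
  obtain ⟨p, -⟩ := near_lamp a b
  exact ⟨p⟩

theorem rho_le_dist [NeZero n] (a b : Wt e n) : rho a.1 b.1 ≤ (lamp e n).dist a b :=
  rho_le_of_near _ a b (near_of_dist lamp_connected le_rfl)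

def tr (a : ZMod n) (u : ZMod n × J e → L e) (w : Wt e n) : Wt e n :=
  (fun i => w.1 (i.1 - a, i.2) + u i, w.2 + a)

theorem tr_adj (a : ZMod n) (u : ZMod n × J e → L e) {w w' : Wt e n}
    (h : (lamp e n).Adj w w') : (lamp e n).Adj (tr a u w) (tr a u w') := by
  rcases h with ⟨h1, h2, h3⟩ | ⟨h1, j, h2, h3⟩
  · refine Or.inl ⟨by simp [tr, h1], by simpa [tr] using h2, ?_⟩
    rcases h3 with h3 | h3
    · left; simp only [tr, h3]; ring
    · right; simp only [tr, h3]; ring
  · refine Or.inr ⟨by simp [tr, h1], j, by simpa [tr] using h2, fun i hi => ?_⟩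
    simp only [tr]
    rw [h3]
    intro h
    apply hi
    obtain ⟨h4, h5⟩ := Prod.ext_iff.1 h
    refine Prod.ext ?_ h5
    simp only [tr] at h4 ⊢
    rw [← h4]; ring

theorem tr_tr (a : ZMod n) (u : ZMod n × J e → L e) (w : Wt e n) :
    tr (-a) (fun i => -u (i.1 + a, i.2)) (tr a u w) = w := by
  simp [tr]

theorem tr_tr' (a : ZMod n) (u : ZMod n × J e → L e) (w : Wt e n) :
    tr a u (tr (-a) (fun i => -u (i.1 + a, i.2)) w) = w := by
  simp [tr]

theorem lamp_transitive : VertexTransitive (lamp e n) := by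
  intro x y
  let a := y.2 - x.2
  let u : ZMod n × J e → L e := fun i => y.1 i - x.1 (i.1 - a, i.2)
  refine ⟨{ toFun := tr a u, invFun := tr (-a) (fun i => -u (i.1 + a, i.2)),
            left_inv := tr_tr a u, right_inv := tr_tr' a u, map_rel_iff' := ?_ }, ?_⟩
  · intro w w'
    refine ⟨fun h => ?_, tr_adj a u⟩
    have := tr_adj (-a) (fun i => -u (i.1 + a, i.2)) h
    simpa only [Equiv.coe_fn_mk, tr_tr] using this
  · change tr a u x = y
    simp [tr, a, u]

theorem lamp_degree [NeZero n] (w : Wt e n) : ((lamp e n).neighborSet w).Finite ∧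
    ((lamp e n).neighborSet w).ncard ≤ Fintype.card (Bool ⊕ J e × L e) := by
  refine ⟨Set.toFinite _, ?_⟩
  let φ : Bool ⊕ J e × L e → Wt e n := Sum.elim
    (fun b => (w.1, if b then w.2 + 1 else w.2 - 1))
    (fun x => (Function.update w.1 (w.2, x.1) x.2, w.2))
  have hsub : (lamp e n).neighborSet w ⊆ φ '' Set.univ := by
    rintro w' (⟨h1, -, h3⟩ | ⟨h1, j, -, h3⟩)
    · rcases h3 with h3 | h3
      · exact ⟨Sum.inl true, trivial, Prod.ext h1 (by simp [φ, h3])⟩
      · exact ⟨Sum.inl false, trivial, Prod.ext h1 (by simp [φ, h3])⟩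
    · refine ⟨Sum.inr (j, w'.1 (w.2, j)), trivial, Prod.ext ?_ h1⟩
      funext i
      simp only [φ, Sum.elim_inr]
      by_cases hi : i = (w.2, j)
      · rw [hi, Function.update_self]
      · rw [Function.update_of_ne hi, h3 i hi]
  refine (Set.ncard_le_ncard hsub (Set.toFinite _)).trans
    ((Set.ncard_image_le (Set.toFinite _)).trans ?_)
  rw [Set.ncard_univ, Nat.card_eq_fintype_card]

theorem card_idx [NeZero n] : Fintype.card (ZMod n × J e) = n * ((2 ^ e - 1) * 3) := by
  simp [Fintype.card_subtype_compl, ZMod.card]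

/-- The small net. -/
theorem small_net [NeZero n] {m : ℕ} (hm : 2 * m = 2 ^ e) (hm2 : 2 ≤ m) :
    IsNet (lamp e n) (n * (3 * (3 * m - 2)))
      (Set.range fun a : L e => ((fun _ => a, 0) : Wt e n)) := by
  have hn : 0 < n := Nat.pos_of_ne_zero (NeZero.ne n)
  refine isNet_of_cover ?_ ?_
  · rintro _ ⟨a, rfl⟩ _ ⟨b, rfl⟩ hab
    have hab' : b - a ≠ 0 := fun h => hab (by rw [sub_eq_zero.1 h])
    refine le_trans (le_of_eq ?_) (rho_le_dist _ _)
    have h1 := sum_dl' hm hab'
    simp only [rho, Fintype.sum_prod_type, sum_const, card_univ, ZMod.card, Fintype.card_fin,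
      smul_eq_mul]
    rw [← mul_sum]
    congr 2
    omega
  · intro w _
    have h1 : ∑ a : L e, rho w.1 (fun _ => a) = n * ((2 ^ e - 1) * 3) * (3 * m - 2) := by
      unfold rho
      rw [sum_comm, ← card_idx, ← card_univ, ← smul_eq_mul, ← sum_const]
      refine sum_congr rfl fun i _ => ?_
      have h2 := sum_dl hm i.2.1.2
      rw [← (Equiv.subRight (w.1 i)).sum_comp] at h2
      simp only [Equiv.subRight_apply] at h2
      exact Nat.eq_sub_of_add_eq h2
    obtain ⟨a, -, ha⟩ := exists_le_of_sum_le (s := (univ : Finset (L e))) univ_nonempty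
      (f := fun a => 2 ^ e * rho w.1 (fun _ => a))
      (g := fun _ => n * ((2 ^ e - 1) * 3) * (3 * m - 2)) (by
        rw [← mul_sum, h1]
        simp)
    refine ⟨_, ⟨a, rfl⟩, lt_of_le_of_lt (near_lamp _ _).dist_le ?_⟩
    dsimp only
    rw [← hm] at ha
    obtain ⟨m', rfl⟩ : ∃ m', m = m' + 2 := ⟨m - 2, by omega⟩
    have e1 : 3 * (m' + 2) - 2 = 3 * m' + 4 := by omega
    have e2 : 2 * (m' + 2) - 1 = 2 * m' + 3 := by omega
    rw [e1, e2] at ha
    rw [e1]
    by_contra hcon
    push Not at hcon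
    have h3 := Nat.mul_le_mul_left (2 * (m' + 2)) hcon
    nlinarith

theorem card_ball_le {ι α : Type} [Fintype ι] [DecidableEq ι] [DecidableEq α] (A : ι → Finset α)
    (M : ℕ) (hM : 1 ≤ M) (hA : ∀ i, (A i).card = M ^ 4) (f : ι → α) :
    ((Fintype.piFinset A).filter fun g =>
      4 * (univ.filter fun i => g i ≠ f i).card ≤ 3 * Fintype.card ι).card ≤
      2 ^ Fintype.card ι * M ^ (3 * Fintype.card ι) := by
  have hsub : ((Fintype.piFinset A).filter fun g =>
      4 * (univ.filter fun i => g i ≠ f i).card ≤ 3 * Fintype.card ι) ⊆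
      ((univ : Finset ι).powerset.filter fun S => 4 * S.card ≤ 3 * Fintype.card ι).biUnion
        fun S => Fintype.piFinset fun i => if i ∈ S then A i else {f i} := by
    intro g hg
    rw [mem_filter, Fintype.mem_piFinset] at hg
    rw [mem_biUnion]
    refine ⟨univ.filter fun i => g i ≠ f i, by simpa using hg.2, ?_⟩
    rw [Fintype.mem_piFinset]
    intro i
    by_cases hi : g i = f i
    · simp [hi]
    · simp [hi, hg.1 i]
  refine (card_le_card hsub).trans
    ((card_biUnion_le_card_mul _ _ (M ^ (3 * Fintype.card ι)) ?_).trans ?_)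
  · intro S hS
    rw [mem_filter] at hS
    rw [Fintype.card_piFinset]
    have : ∏ i, (if i ∈ S then A i else {f i}).card = ∏ i, if i ∈ S then M ^ 4 else 1 := by
      refine prod_congr rfl fun i _ => ?_
      split_ifs
      · exact hA i
      · simp
    rw [this, prod_ite_mem, univ_inter, prod_const, ← pow_mul]
    exact Nat.pow_le_pow_right hM hS.2
  · refine Nat.mul_le_mul_right _ ((card_filter_le _ _).trans ?_)
    rw [card_powerset, card_univ]

/-- The large net. -/
theorem large_net [NeZero n] {M : ℕ} (hm : 2 * M ^ 4 = 2 ^ e) (hM : 1 ≤ M) :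
    ∃ Y, IsNet (lamp e n) (n * (3 * (3 * M ^ 4 - 2))) Y ∧
      M ^ Fintype.card (ZMod n × J e) ≤ Y.ncard * 2 ^ Fintype.card (ZMod n × J e) := by
  classical
  set K := n * (3 * (3 * M ^ 4 - 2)) with hK
  set N := Fintype.card (ZMod n × J e) with hN
  have hn : 0 < n := Nat.pos_of_ne_zero (NeZero.ne n)
  have hM4 : 1 ≤ M ^ 4 := Nat.one_le_pow _ _ hM
  have hKN : 2 * K ≤ 3 * N := by
    rw [hK, hN, card_idx, ← hm]
    obtain ⟨m', hm'⟩ : ∃ m', M ^ 4 = m' + 1 := ⟨M ^ 4 - 1, by omega⟩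
    rw [hm']
    have e1 : 3 * (m' + 1) - 2 = 3 * m' + 1 := by omega
    have e2 : 2 * (m' + 1) - 1 = 2 * m' + 1 := by omega
    rw [e1, e2]
    nlinarith
  have hKpos : 0 < K := Nat.mul_pos hn (by omega)
  let A : ZMod n × J e → Finset (L e) := fun i => univ.filter fun z => i.2.1.1 ⬝ᵥ z = 0
  have hA : ∀ i, (A i).card = M ^ 4 := by
    intro i
    have := (card_dot_one i.2.1.2).2
    simp only [A]
    omega
  let Z := Fintype.piFinset A
  have hZ : Z.card = (M ^ 4) ^ N := by
    rw [Fintype.card_piFinset, prod_congr rfl fun i _ => hA i, prod_const, card_univ]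
  have hrho : ∀ f ∈ Z, ∀ g ∈ Z, rho f g = 2 * (univ.filter fun i => g i ≠ f i).card := by
    intro f hf g hg
    rw [Fintype.mem_piFinset] at hf hg
    unfold rho
    rw [card_filter, mul_sum]
    refine sum_congr rfl fun i _ => ?_
    have h1 := (mem_filter.1 (hf i)).2
    have h2 := (mem_filter.1 (hg i)).2
    unfold dl
    by_cases h : g i = f i
    · simp [h]
    · rw [if_neg (sub_ne_zero.2 h), dotProduct_sub, h1, h2]
      simp [h]
  obtain ⟨C, -, hC⟩ := Finite.exists_le_maximal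
    (p := fun C : Finset (ZMod n × J e → L e) => C ⊆ Z ∧ ∀ f ∈ C, ∀ g ∈ C, f ≠ g → K ≤ rho f g)
    (a := ∅) ⟨empty_subset _, by simp⟩
  have hcov : ∀ z ∈ Z, ∃ c ∈ C, rho c z < K := by
    intro z hz
    by_contra h
    push Not at h
    have hzC : z ∈ C := by
      refine hC.2 (y := insert z C) ⟨insert_subset hz hC.1.1, ?_⟩ (subset_insert _ _)
        (mem_insert_self _ _)
      intro f hf g hg hfg
      rcases mem_insert.1 hf with hf | hf
      · rcases mem_insert.1 hg with hg | hg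
        · exact absurd (hf.trans hg.symm) hfg
        · have := h g hg
          rw [hrho g (hC.1.1 hg) z hz] at this
          rw [hf, hrho z hz g (hC.1.1 hg)]
          simpa only [ne_comm] using this
      · rcases mem_insert.1 hg with hg | hg
        · rw [hg]; exact h f hf
        · exact hC.1.2 f hf g hg hfg
    have := h z hzC
    rw [rho_self] at this
    omega
  have hsub : Z ⊆ C.biUnion fun c => Z.filter fun g =>
      4 * (univ.filter fun i => g i ≠ c i).card ≤ 3 * N := by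
    intro z hz
    obtain ⟨c, hc, h⟩ := hcov z hz
    rw [hrho c (hC.1.1 hc) z hz] at h
    exact mem_biUnion.2 ⟨c, hc, mem_filter.2 ⟨hz, by omega⟩⟩
  have hcard := (card_le_card hsub).trans (card_biUnion_le_card_mul _ _ (2 ^ N * M ^ (3 * N))
    fun c _ => card_ball_le A M hM hA c)
  have hcard2 : M ^ N ≤ C.card * 2 ^ N := by
    rw [hZ, ← pow_mul, show 4 * N = N + 3 * N by ring, pow_add, ← mul_assoc] at hcard
    exact Nat.le_of_mul_le_mul_right hcard (Nat.pow_pos hM)
  obtain ⟨Y, hY1, hY2⟩ := exists_net_superset (G := lamp e n) K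
    ((fun c => (c, (0 : ZMod n))) '' (C : Set (ZMod n × J e → L e))) (by
      rintro _ ⟨f, hf, rfl⟩ _ ⟨g, hg, rfl⟩ hfg
      exact (hC.1.2 f hf g hg fun h => hfg (by rw [h])).trans (rho_le_dist (f, 0) (g, 0)))
  refine ⟨Y, hY2, hcard2.trans (Nat.mul_le_mul_right _ ?_)⟩
  have := Set.ncard_le_ncard hY1 (Set.toFinite _)
  rwa [Set.ncard_image_of_injective _ (fun a b h => (Prod.ext_iff.1 h).1),
    Set.ncard_coe_finset] at this

theorem bounded_example : ∃ D0 : ℕ, ∀ ε : ℝ, 0 < ε →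
    ∃ (V : Type) (G : SimpleGraph V), Infinite V ∧ G.Connected ∧ VertexTransitive G ∧
      (∀ v, (G.neighborSet v).Finite ∧ (G.neighborSet v).ncard ≤ D0) ∧ 1 ≤ cheeger G ∧
      ∃ (k : ℕ) (S : Set V), 1 ≤ k ∧ IsNet G k S ∧ cheeger (netGraph G k S) < ε := by
  obtain ⟨d, hd⟩ := tree_degree
  obtain ⟨a, ha⟩ : ∃ a : ℕ, 4 * (d + 1) ^ 12 ≤ 2 ^ a := ⟨_, Nat.lt_two_pow_self.le⟩
  set B := d + 1 with hB
  have hB1 : 1 ≤ B ^ 12 := Nat.one_le_pow _ _ (by omega)
  set M := 2 ^ a with hM
  have hM2 : 2 ≤ M ^ 4 := le_trans (by omega) (Nat.le_self_pow (by omega) M)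
  have hm : 2 * M ^ 4 = 2 ^ (4 * a + 1) := by rw [hM]; ring
  set e := 4 * a + 1 with he
  refine ⟨(d + 1) * (Fintype.card (Bool ⊕ J e × L e) + 1), fun ε hε => ?_⟩
  obtain ⟨n0, hn0⟩ := exists_nat_gt (((2 : ℝ) ^ e) ^ 2 / ε)
  set n := n0 + 1 with hn
  have : NeZero n := ⟨by omega⟩
  have hdeg := sprod_degree (T := tree) (X := lamp e n) d _ hd lamp_degree
  have := infinite_F
  refine ⟨F × Wt e n, sprod tree (lamp e n), inferInstance,
    sprod_connected tree_connected lamp_connected,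
    sprod_transitive tree_transitive lamp_transitive, hdeg,
    tree_sprod_cheeger _ fun v => (hdeg v).1, ?_⟩
  obtain ⟨Y, hY1, hY2⟩ := large_net (e := e) (n := n) hm (by omega)
  set K := n * (3 * (3 * M ^ 4 - 2)) with hK
  set N := Fintype.card (ZMod n × J e) with hN
  have hK1 : 1 ≤ K := Nat.mul_pos (by omega) (by omega)
  have hNe : N = n * ((2 * M ^ 4 - 1) * 3) := by rw [hN, card_idx, hm]
  have hKN : 2 * K ≤ 3 * N := by
    rw [hK, hNe]
    obtain ⟨m', hm'⟩ : ∃ m', M ^ 4 = m' + 1 := ⟨M ^ 4 - 1, by omega⟩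
    rw [hm']
    have e1 : 3 * (m' + 1) - 2 = 3 * m' + 1 := by omega
    have e2 : 2 * (m' + 1) - 1 = 2 * m' + 1 := by omega
    rw [e1, e2]
    nlinarith
  have hnN : n ≤ N := by
    rw [hNe]
    exact Nat.le_mul_of_pos_right _ (by omega)
  have hY3 : n * (B ^ (4 * K)) ^ 2 ≤ Y.ncard := by
    have h1 : (2 * B ^ 12) ^ N * 2 ^ N ≤ Y.ncard * 2 ^ N := by
      refine le_trans ?_ hY2
      rw [← mul_pow]
      exact Nat.pow_le_pow_left (by omega) _
    refine le_trans ?_ (Nat.le_of_mul_le_mul_right h1 (by positivity))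
    rw [mul_pow, ← pow_mul, ← pow_mul]
    exact Nat.mul_le_mul (hnN.trans Nat.lt_two_pow_self.le)
      (Nat.pow_le_pow_right (by omega) (by omega))
  have hYpos : 0 < Y.ncard := lt_of_lt_of_le (by positivity) hY3
  obtain ⟨S, hS1, hS2⟩ := sprod_net tree_connected lamp_connected d hd K hK1 Y _ hY1
    (small_net hm hM2) (Set.nonempty_of_ncard_ne_zero hYpos.ne')
  refine ⟨K, S, hK1, hS1, hS2.trans_lt ?_⟩
  have h2 : (Set.range fun a : L e => ((fun _ => a, 0) : Wt e n)).ncard ≤ 2 ^ e := by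
    rw [← Set.image_univ]
    refine (Set.ncard_image_le (Set.toFinite _)).trans ?_
    rw [Set.ncard_univ, Nat.card_eq_fintype_card]
    simp
  have h3 : (0 : ℝ) < Y.ncard := by exact_mod_cast hYpos
  rw [div_lt_iff₀ h3]
  rw [div_lt_iff₀ hε] at hn0
  have h4 : (n : ℝ) * ((B : ℝ) ^ (4 * K)) ^ 2 ≤ Y.ncard := by exact_mod_cast hY3
  have h5 : ((Set.range fun a : L e => ((fun _ => a, 0) : Wt e n)).ncard : ℝ) ≤ 2 ^ e := by
    exact_mod_cast h2
  have h6 : (0 : ℝ) < ((B : ℝ) ^ (4 * K)) ^ 2 := by positivity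
  have h7 : (n0 : ℝ) ≤ n := by exact_mod_cast Nat.le_succ n0
  calc ((B ^ (4 * K) * (Set.range fun a : L e => ((fun _ => a, 0) : Wt e n)).ncard : ℕ) : ℝ) ^ 2
      = ((B : ℝ) ^ (4 * K)) ^ 2 *
        ((Set.range fun a : L e => ((fun _ => a, 0) : Wt e n)).ncard : ℝ) ^ 2 := by
        push_cast; ring
    _ ≤ ((B : ℝ) ^ (4 * K)) ^ 2 * ((2 : ℝ) ^ e) ^ 2 := by gcongr
    _ < ((B : ℝ) ^ (4 * K)) ^ 2 * (n0 * ε) := by gcongr
    _ ≤ ((B : ℝ) ^ (4 * K)) ^ 2 * (n * ε) := by gcongr
    _ = ε * (n * ((B : ℝ) ^ (4 * K)) ^ 2) := by ring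
    _ ≤ ε * Y.ncard := by gcongr

theorem exact_example : ∃ D : ℕ, ∀ C : ℝ, 0 < C →
    ∃ (V : Type) (G : SimpleGraph V), Infinite V ∧ G.Connected ∧ VertexTransitive G ∧
      (∀ v, (G.neighborSet v).Finite ∧ (G.neighborSet v).ncard = D) ∧ 1 ≤ cheeger G ∧
      ∃ (k : ℕ) (S : Set V), 1 ≤ k ∧ IsNet G k S ∧ cheeger (netGraph G k S) < C ∧
        cheeger (netGraph G k S) < C * cheeger G := by
  obtain ⟨D0, hD0⟩ := bounded_example
  by_contra hcon
  push Not at hcon
  choose C hC hC' using hcon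
  obtain ⟨D1, -, hD1⟩ := exists_min_image (range (D0 + 1)) C (by simp)
  obtain ⟨V, G, h1, h2, h3, h4, h5, k, S, h6, h7, h8⟩ := hD0 (C D1) (hC D1)
  obtain ⟨v0⟩ := h2.nonempty
  have h9 : ∀ v, (G.neighborSet v).ncard = (G.neighborSet v0).ncard := by
    intro v
    obtain ⟨φ, rfl⟩ := h3 v0 v
    exact (Set.ncard_congr' (φ.mapNeighborSet v0)).symm
  have h10 := hD1 (G.neighborSet v0).ncard (mem_range.2 (Nat.lt_succ_of_le (h4 v0).2))
  have h11 := hC' _ V G h1 h2 h3 (fun v => ⟨(h4 v).1, h9 v⟩) h5 k S h6 h7 (h8.trans_le h10)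
  have h12 := hC (G.neighborSet v0).ncard
  nlinarith

end Pool.Agent.H208Z.Net
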