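import Pool.Agent.H985Z.SC.Spec

/-! Existence of the energy measure of a resistance form. -/

namespace Pool.Agent.H208Z.SCEm

open MeasureTheory Filter Topology Set Pool.Agent.H985Z.SC
open scoped RealInnerProductSpace CompactlySupported

section

variable {X : Type} [MetricSpace X] [CompactSpace X] {H : Type}
  [NormedAddCommGroup H] [InnerProductSpace ℝ H]

theorem E_add_right (R : RF X H) (f g k : H) : R.E f (g + k) = R.E f g + R.E f k := by
  simp only [RF.E, inner_add_right, map_add, ContinuousMap.add_apply]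
  ring

theorem E_smul_right (R : RF X H) (f g : H) (c : ℝ) : R.E f (c • g) = c * R.E f g := by
  simp only [RF.E, inner_smul_right, map_smul, ContinuousMap.smul_apply, smul_eq_mul]
  ring

theorem E_tendsto (R : RF X H) {ι : Type} {l : Filter ι} {u v : ι → H} {f g : H}
    (hu : Tendsto u l (𝓝 f)) (hv : Tendsto v l (𝓝 g)) :
    Tendsto (fun i => R.E (u i) (v i)) l (𝓝 (R.E f g)) := by
  have ev : Continuous fun k : H => R.ι k R.o :=
    (continuous_eval_const R.o).comp R.ι.continuous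
  exact (hu.inner hv).sub (((ev.tendsto f).comp hu).mul ((ev.tendsto g).comp hv))

theorem pos (R : RF X H) (hD : Disc R) (h g p q : H) (hp : R.ι p = R.ι h * R.ι g)
    (hq : R.ι q = R.ι h * R.ι h) (hg : ∀ x, 0 ≤ R.ι g x) : 0 ≤ 2 * R.E h p - R.E q g := by
  obtain ⟨P, c, hc, -, hE, hT⟩ := hD
  have lim : Tendsto (fun V => 2 * R.E (P V (R.ι h)) (P V (R.ι p)) -
      R.E (P V (R.ι q)) (P V (R.ι g))) atTop (𝓝 (2 * R.E h p - R.E q g)) :=
    ((E_tendsto R (hT h) (hT p)).const_mul 2).sub (E_tendsto R (hT q) (hT g))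
  refine ge_of_tendsto lim ?_
  filter_upwards [eventually_ge_atTop ({R.o} : Finset X)] with V hV
  have ho : R.o ∈ V := hV (Finset.mem_singleton_self _)
  rw [hE V ho, hE V ho, Finset.mul_sum, ← Finset.sum_sub_distrib]
  refine Finset.sum_nonneg fun x _ => ?_
  rw [Finset.mul_sum, ← Finset.sum_sub_distrib]
  refine Finset.sum_nonneg fun y _ => ?_
  have e : 2 * (c V x y * ((R.ι h x - R.ι h y) * (R.ι p x - R.ι p y))) -
      c V x y * ((R.ι q x - R.ι q y) * (R.ι g x - R.ι g y)) =
      c V x y * ((R.ι h x - R.ι h y) ^ 2 * (R.ι g x + R.ι g y)) := by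
    rw [hp, hq]
    simp only [ContinuousMap.mul_apply]
    ring
  rw [e]
  exact mul_nonneg (hc V x y) (mul_nonneg (sq_nonneg _) (add_nonneg (hg x) (hg y)))

end

theorem em (hD : S_DISC) (hM : S_MUL) : S_EM := by
  intro X _ _ _ _ H _ _ _ R h
  classical
  choose m hm using hM X H R h
  have m_add : ∀ g k, m (g + k) = m g + m k := fun g k =>
    R.inj (by rw [map_add, hm, hm, hm, map_add, mul_add])
  have m_smul : ∀ (c : ℝ) g, m (c • g) = c • m g := fun c g =>
    R.inj (by rw [map_smul, hm, hm, map_smul, mul_smul_comm])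
  let I : H →ₗ[ℝ] ℝ :=
    { toFun := fun g => 2 * R.E h (m g) - R.E (m h) g
      map_add' := fun g k => by
        rw [m_add, E_add_right, E_add_right]; ring
      map_smul' := fun c g => by
        rw [m_smul, E_smul_right, E_smul_right]
        simp only [RingHom.id_apply, smul_eq_mul]
        ring }
  have Ipos : ∀ g, (∀ x, 0 ≤ R.ι g x) → 0 ≤ I g := fun g hg =>
    pos R (hD X H R) h g (m g) (m h) (hm g) (hm h) hg
  have Ibd : ∀ g, ‖I g‖ ≤ I R.one * ‖(R.ι : H →ₗ[ℝ] C(X, ℝ)) g‖ := by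
    intro g
    have hb : ∀ x, |R.ι g x| ≤ ‖R.ι g‖ := fun x => (R.ι g).norm_coe_le_norm x
    have h1 := Ipos (‖R.ι g‖ • R.one - g) (fun x => by
      simp only [map_sub, map_smul, R.ι_one, ContinuousMap.sub_apply, ContinuousMap.smul_apply,
        ContinuousMap.one_apply, smul_eq_mul, mul_one]
      linarith [(abs_le.mp (hb x)).2])
    have h2 := Ipos (‖R.ι g‖ • R.one + g) (fun x => by
      simp only [map_add, map_smul, R.ι_one, ContinuousMap.add_apply, ContinuousMap.smul_apply,
        ContinuousMap.one_apply, smul_eq_mul, mul_one]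
      linarith [(abs_le.mp (hb x)).1])
    rw [map_sub, map_smul, smul_eq_mul] at h1
    rw [map_add, map_smul, smul_eq_mul] at h2
    rw [Real.norm_eq_abs, abs_le]
    simp only [ContinuousLinearMap.coe_coe]
    constructor <;> nlinarith
  have hd : DenseRange (R.ι : H →ₗ[ℝ] C(X, ℝ)) := R.dense
  let L : C(X, ℝ) →L[ℝ] ℝ := I.extendOfNorm (R.ι : H →ₗ[ℝ] C(X, ℝ))
  have L_eq : ∀ g, L (R.ι g) = I g := fun g =>
    LinearMap.extendOfNorm_eq hd ⟨_, Ibd⟩ g
  have L_bd : ∀ f, ‖L f‖ ≤ I R.one * ‖f‖ := fun f =>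
    LinearMap.norm_extendOfNorm_apply_le hd _ Ibd f
  have I1 : 0 ≤ I R.one := Ipos _ (fun x => by rw [R.ι_one]; simp)
  have L_one : L 1 = I R.one := by rw [← R.ι_one, L_eq]
  have L_pos : ∀ f : C(X, ℝ), (∀ x, 0 ≤ f x) → 0 ≤ L f := by
    intro f hf
    have hn : ‖(‖f‖ • (1 : C(X, ℝ)) - f)‖ ≤ ‖f‖ := by
      rw [ContinuousMap.norm_le _ (norm_nonneg f)]
      intro x
      have hb : |f x| ≤ ‖f‖ := f.norm_coe_le_norm x
      simp only [ContinuousMap.sub_apply, ContinuousMap.smul_apply, ContinuousMap.one_apply,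
        smul_eq_mul, mul_one, Real.norm_eq_abs]
      rw [abs_le]
      constructor <;> linarith [(abs_le.mp hb).2, hf x, norm_nonneg f]
    have h1 := L_bd (‖f‖ • (1 : C(X, ℝ)) - f)
    rw [map_sub, map_smul, L_one, smul_eq_mul, Real.norm_eq_abs] at h1
    have h2 := (abs_le.mp h1).2
    have h3 := mul_le_mul_of_nonneg_left hn I1
    nlinarith
  let Λ₀ : C_c(X, ℝ) →ₗ[ℝ] ℝ :=
    { toFun := fun f => L f.toContinuousMap
      map_add' := fun f g => by
        rw [← map_add]; rfl
      map_smul' := fun c f => by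
        rw [RingHom.id_apply, ← map_smul]; rfl }
  let Λ : C_c(X, ℝ) →ₚ[ℝ] ℝ := PositiveLinearMap.mk₀ Λ₀ (fun f hf => L_pos _ (fun x => hf x))
  refine ⟨RealRMK.rieszMeasure Λ, inferInstance, fun g p q hp hq => ?_⟩
  have e1 : p = m g := R.inj (by rw [hp, hm])
  have e2 : q = m h := R.inj (by rw [hq, hm])
  have := RealRMK.integral_rieszMeasure Λ
    (CompactlySupportedContinuousMap.continuousMapEquiv (R.ι g))
  rw [e1, e2]
  exact this.trans (L_eq g)

end Pool.Agent.H208Z.SCEm
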