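import Mathlib

set_option autoImplicit false

namespace Pool.Agent.H208Z.Why

/-- The Whyburn property: each point `p` of the closure of `A` outside `A` is the only point
outside `A` in the closure of some subset `B` of `A`. -/
def Whyburn (X : Type) [TopologicalSpace X] : Prop :=
  ∀ (A : Set X) (p : X), p ∈ closure A \ A → ∃ B ⊆ A, closure B \ A = {p}

/-- `X` is d-separable: some union of a sequence of discrete subspaces is dense. -/
def SmallDSeparable (X : Type) [TopologicalSpace X] : Prop :=
  ∃ E : ℕ → Set X, (∀ n, DiscreteTopology (E n)) ∧ Dense (⋃ n, E n)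

/-- `X` is D-separable: from every sequence of dense sets one can choose discrete subspaces whose
union is dense. -/
def DSeparable (X : Type) [TopologicalSpace X] : Prop :=
  ∀ D : ℕ → Set X, (∀ n, Dense (D n)) →
    ∃ F : ℕ → Set X, (∀ n, F n ⊆ D n ∧ DiscreteTopology (F n)) ∧ Dense (⋃ n, F n)

end Pool.Agent.H208Z.Why
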