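import Mathlib
import Pool.Agent.H208Z.MaxSpace
import Pool.Agent.H208Z.WhyDefs

set_option autoImplicit false

namespace Pool.Agent.H208Z.Why

open Set Filter Topology

variable {M : Type} [TopologicalSpace M] (o : M)

/-- A tree of copies of `M`; the point `o` of the copy with address `(q, i) :: y` is the `i`-th
child of the point `q` of the copy with address `y`. -/
structure Tr (o : M) : Type where
  y : List (M × ℕ)
  r : M

variable {o}

def Nb (U : Set (Tr o)) (y : List (M × ℕ)) (r : M) : Prop :=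
  ∃ O ∈ 𝓝 r, ∃ k : ℕ, ∀ q ∈ O, (⟨y, q⟩ : Tr o) ∈ U ∧
    {i : ℕ | (⟨(q, i) :: y, o⟩ : Tr o) ∉ U}.encard ≤ k

theorem Nb.mono {U V : Set (Tr o)} {y : List (M × ℕ)} {r : M} (h : Nb U y r) (hUV : U ⊆ V) :
    Nb V y r := by
  obtain ⟨O, hO, k, hk⟩ := h
  exact ⟨O, hO, k, fun q hq => ⟨hUV (hk q hq).1,
    le_trans (encard_le_encard fun i hi h => hi (hUV h)) (hk q hq).2⟩⟩

instance : TopologicalSpace (Tr o) where
  IsOpen U := ∀ x ∈ U, Nb U x.y x.r
  isOpen_univ := fun x _ => ⟨univ, univ_mem, 0, fun q _ => ⟨trivial, by simp⟩⟩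
  isOpen_inter := by
    intro U V hU hV x hx
    obtain ⟨O, hO, k, hk⟩ := hU x hx.1
    obtain ⟨O', hO', k', hk'⟩ := hV x hx.2
    refine ⟨O ∩ O', inter_mem hO hO', k + k', fun q hq => ⟨⟨(hk q hq.1).1, (hk' q hq.2).1⟩, ?_⟩⟩
    refine le_trans (encard_le_encard (t := {i : ℕ | (⟨(q, i) :: x.y, o⟩ : Tr o) ∉ U} ∪
      {i : ℕ | (⟨(q, i) :: x.y, o⟩ : Tr o) ∉ V}) fun i hi => not_and_or.1 hi) ?_
    refine (encard_union_le _ _).trans ?_
    push_cast
    exact add_le_add (hk q hq.1).2 (hk' q hq.2).2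
  isOpen_sUnion := by
    rintro s hs x ⟨U, hU, hx⟩
    exact (hs U hU x hx).mono (subset_sUnion_of_mem hU)

theorem isOpen_tr {U : Set (Tr o)} : IsOpen U ↔ ∀ x ∈ U, Nb U x.y x.r := Iff.rfl

omit [TopologicalSpace M] in
theorem encard_child_eq (q : M) (y y0 : List (M × ℕ)) :
    {i : ℕ | (q, i) :: y = y0}.encard ≤ (1 : ℕ) := by
  rw [Nat.cast_one, encard_le_one_iff_subsingleton]
  intro i hi j hj
  have := hi.trans hj.symm
  simpa using this

theorem continuous_slice (y : List (M × ℕ)) : Continuous fun q : M => (⟨y, q⟩ : Tr o) := by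
  refine continuous_def.2 fun U hU => isOpen_iff_mem_nhds.2 fun q hq => ?_
  obtain ⟨O, hO, k, hk⟩ := hU _ hq
  exact mem_of_superset hO fun q' hq' => (hk q' hq').1

theorem isClosed_slice (y : List (M × ℕ)) {C : Set M} (hC : IsClosed C) :
    IsClosed {x : Tr o | x.y = y ∧ x.r ∈ C} := by
  refine ⟨fun x hx => ⟨{q | x.y = y → q ∉ C}, ?_, 1, fun q hq => ⟨fun h => hq h.1 h.2, ?_⟩⟩⟩
  · by_cases h : x.y = y
    · exact mem_of_superset (hC.isOpen_compl.mem_nhds fun h' => hx ⟨h, h'⟩) fun q hq _ => hq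
    · exact mem_of_superset univ_mem fun q _ h' => absurd h' h
  · exact le_trans (encard_le_encard fun i hi => (not_not.1 hi).1) (encard_child_eq q x.y y)

instance [T1Space M] : T1Space (Tr o) := ⟨fun x => by
  have := isClosed_slice (o := o) x.y (isClosed_singleton (x := x.r))
  convert this using 1
  ext z
  obtain ⟨a, b⟩ := x
  obtain ⟨c, d⟩ := z
  simp⟩

instance [Countable M] : Countable (Tr o) :=
  Function.Injective.countable (f := fun x : Tr o => (x.y, x.r)) (by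
    rintro ⟨a, b⟩ ⟨c, d⟩ h
    simpa using h)

theorem isClopen_cone (y : List (M × ℕ)) : IsClopen {x : Tr o | y <:+ x.y} := by
  refine ⟨⟨fun x hx => ⟨univ, univ_mem, 1, fun q _ => ⟨hx, ?_⟩⟩⟩,
    fun x hx => ⟨univ, univ_mem, 0, fun q _ => ⟨hx, ?_⟩⟩⟩
  · refine le_trans (encard_le_encard fun i hi => ?_) (encard_child_eq q x.y y)
    rcases List.suffix_cons_iff.1 (not_not.1 hi) with h | h
    · exact h.symm
    · exact absurd h hx
  · rw [Nat.cast_zero, nonpos_iff_eq_zero, encard_eq_zero, eq_empty_iff_forall_notMem]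
    intro i hi
    exact hi (List.suffix_cons_iff.2 (Or.inr hx))

/-- Addresses of the copies met by the clopen set built in `zeroDim_tr`. -/
inductive Act (U : Set (Tr o)) (W : List (M × ℕ) → Set M) (y0 : List (M × ℕ)) :
    List (M × ℕ) → Prop
  | base : Act U W y0 y0
  | step (y : List (M × ℕ)) (q : M) (i : ℕ) : Act U W y0 y → q ∈ W y →
      (⟨(q, i) :: y, o⟩ : Tr o) ∈ U → Act U W y0 ((q, i) :: y)

theorem zeroDim_tr (hz : ZeroDim M) : ZeroDim (Tr o) := by
  classical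
  intro U x0 hU hx0
  have h1 : ∀ x ∈ U, ∃ V : Set M, IsClopen V ∧ x.r ∈ V ∧ ∃ k : ℕ, ∀ q ∈ V,
      (⟨x.y, q⟩ : Tr o) ∈ U ∧ {i : ℕ | (⟨(q, i) :: x.y, o⟩ : Tr o) ∉ U}.encard ≤ k := by
    intro x hx
    obtain ⟨O, hO, k, hk⟩ := hU x hx
    obtain ⟨V, h1, h2, h3⟩ := hz _ x.r isOpen_interior (mem_interior_iff_mem_nhds.2 hO)
    exact ⟨V, h1, h2, k, fun q hq => hk q (interior_subset (h3 hq))⟩
  choose! V hV using h1
  let e : List (M × ℕ) → Tr o := fun y => if y = x0.y then x0 else ⟨y, o⟩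
  have hey : ∀ y, (e y).y = y := by
    intro y
    simp only [e]
    split_ifs with h
    · exact h.symm
    · rfl
  let W : List (M × ℕ) → Set M := fun y => V (e y)
  have hact : ∀ y, Act U W x0.y y → e y ∈ U := by
    intro y hy
    simp only [e]
    split_ifs with h
    · exact hx0
    · cases hy with
      | base => exact absurd rfl h
      | step y q i _ _ h3 => exact h3
  refine ⟨{x | Act U W x0.y x.y ∧ x.r ∈ W x.y}, ⟨⟨fun x hx => ?_⟩, fun x hx => ?_⟩,
    ⟨Act.base, ?_⟩, fun x hx => ?_⟩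
  · refine ⟨{q | Act U W x0.y x.y → q ∉ W x.y}, ?_, 1, fun q hq => ⟨fun h => hq h.1 h.2, ?_⟩⟩
    · by_cases h : Act U W x0.y x.y
      · exact mem_of_superset ((hV _ (hact _ h)).1.1.isOpen_compl.mem_nhds fun h' => hx ⟨h, h'⟩)
          fun q hq _ => hq
      · exact mem_of_superset univ_mem fun q _ h' => absurd h' h
    · refine le_trans (encard_le_encard fun i hi => ?_) (encard_child_eq q x.y x0.y)
      have h2 : Act U W x0.y ((q, i) :: x.y) := (not_not.1 hi).1
      generalize hl : (q, i) :: x.y = l at h2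
      cases h2 with
      | base => exact hl
      | step y q' i' h3 h4 _ =>
        simp only [List.cons.injEq, Prod.mk.injEq] at hl
        obtain ⟨⟨rfl, rfl⟩, rfl⟩ := hl
        exact absurd h4 (hq h3)
  · obtain ⟨h1, h2, k, hk⟩ := hV _ (hact _ hx.1)
    rw [hey] at hk
    refine ⟨W x.y, h1.2.mem_nhds hx.2, k + 1, fun q hq => ⟨⟨hx.1, hq⟩, ?_⟩⟩
    refine le_trans (encard_le_encard (t := {i : ℕ | (⟨(q, i) :: x.y, o⟩ : Tr o) ∉ U} ∪
      {i : ℕ | (q, i) :: x.y = x0.y}) fun i hi => ?_) ?_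
    · by_contra hc
      rw [mem_union, not_or] at hc
      have h3 : Act U W x0.y ((q, i) :: x.y) := Act.step _ q i hx.1 hq (not_not.1 hc.1)
      refine hi ⟨h3, ?_⟩
      have h4 := (hV _ (hact _ h3)).2.1
      have h5 : e ((q, i) :: x.y) = ⟨(q, i) :: x.y, o⟩ := if_neg hc.2
      simp only [W]
      rw [h5] at h4 ⊢
      exact h4
    · refine (encard_union_le _ _).trans ?_
      push_cast
      exact add_le_add (hk q hq).2 (encard_child_eq q x.y x0.y)
  · have h5 : e x0.y = x0 := if_pos rfl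
    simp only [W]
    rw [h5]
    exact (hV _ hx0).2.1
  · obtain ⟨h1, h2, k, hk⟩ := hV _ (hact _ hx.1)
    rw [hey] at hk
    exact (hk x.r hx.2).1

/-- `x` is the only point outside `A`, apart from gluing points, in the closure of a part of `A`
above `x`. -/
def Good (A : Set (Tr o)) (x : Tr o) : Prop :=
  ∃ B ⊆ A, (∀ b ∈ B, x.y <:+ b.y) ∧ x ∈ closure B ∧ ∀ z ∈ closure B, z.r ≠ o → z ∈ A ∨ z = x

def ZCl (A : Set (Tr o)) (y : List (M × ℕ)) (r : M) : Prop :=
  ∀ O ∈ 𝓝 r, ∀ k : ℕ, ∃ q ∈ O, (⟨y, q⟩ : Tr o) ∈ A ∨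
    (k : ℕ∞) < {i : ℕ | Good A ⟨(q, i) :: y, o⟩}.encard

theorem exists_level [Countable M] [T1Space M] (hz : ZeroDim M) (r : M) : ∃ l : M → ℕ∞,
    (∀ q, q ≠ r → ∃ O ∈ 𝓝 q, ∃ k : ℕ, ∀ q' ∈ O, q' ≠ r ∧ l q' ≤ k) ∧
    ∀ k : ℕ, {q | (k : ℕ∞) < l q} ∈ 𝓝 r := by
  have : Nonempty M := ⟨r⟩
  obtain ⟨u, hu⟩ := exists_surjective_nat M
  have h1 : ∀ n, ∃ W : Set M, IsClopen W ∧ r ∉ W ∧ (u n ≠ r → u n ∈ W) := by
    intro n
    by_cases h : u n = r
    · exact ⟨∅, isClopen_empty, notMem_empty _, fun h' => absurd h h'⟩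
    · obtain ⟨V, h1, h2, h3⟩ := hz {r}ᶜ (u n) isOpen_compl_singleton h
      exact ⟨V, h1, fun h' => h3 h' rfl, fun _ => h2⟩
  choose W hW using h1
  refine ⟨fun q => ⨅ n ∈ {n : ℕ | q ∈ W n}, (n : ℕ∞), ?_, ?_⟩
  · intro q hq
    obtain ⟨n, rfl⟩ := hu q
    refine ⟨W n, (hW n).1.2.mem_nhds ((hW n).2.2 hq), n, fun q' hq' => ⟨?_, ?_⟩⟩
    · rintro rfl
      exact (hW n).2.1 hq'
    · exact iInf₂_le (f := fun (n : ℕ) (_ : n ∈ {n : ℕ | q' ∈ W n}) => (n : ℕ∞)) n hq'
  · intro k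
    have h2 : ⋂ n ∈ Iic k, (W n)ᶜ ∈ 𝓝 r :=
      (biInter_mem (finite_Iic k)).2 fun n _ => (hW n).1.1.isOpen_compl.mem_nhds (hW n).2.1
    refine mem_of_superset h2 fun q hq => ?_
    refine lt_of_lt_of_le (b := ((k + 1 : ℕ) : ℕ∞)) (by exact_mod_cast Nat.lt_succ_self k) ?_
    refine le_iInf₂ fun n hn => ?_
    have : ¬ n ≤ k := fun h => mem_iInter₂.1 hq n h hn
    exact_mod_cast (by omega : k + 1 ≤ n)

theorem whyburn_M (hz : ZeroDim M)
    (hN : ∀ D : Set M, interior D = ∅ → ∀ x, x ∉ closure (D \ {x})) (A : Set M) (p : M)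
    (hp : p ∈ closure A) : ∃ B ⊆ A, p ∈ closure B ∧ ∀ z ∈ closure B, z ∈ A ∨ z = p := by
  have h1 : interior (closure A \ A) = ∅ := by
    rw [eq_empty_iff_forall_notMem]
    intro z hz
    obtain ⟨w, h1, h2⟩ := mem_closure_iff.1 (interior_subset hz).1 _ isOpen_interior hz
    exact (interior_subset h1).2 h2
  obtain ⟨W, h2, h3, h4⟩ := hz _ p isClosed_closure.isOpen_compl (hN _ h1 p)
  refine ⟨W ∩ A, inter_subset_right, h2.2.inter_closure ⟨h3, hp⟩, fun z hz => ?_⟩
  by_contra hc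
  rw [not_or] at hc
  exact h4 (closure_minimal inter_subset_left h2.1 hz)
    (subset_closure ⟨⟨closure_mono inter_subset_right hz, hc.1⟩, hc.2⟩)

theorem good_of_zcl [Countable M] [T1Space M] (hz : ZeroDim M)
    (hN : ∀ D : Set M, interior D = ∅ → ∀ x, x ∉ closure (D \ {x})) {A : Set (Tr o)}
    {y : List (M × ℕ)} {r : M} (h : ZCl A y r) : Good A ⟨y, r⟩ := by
  by_cases h1 : r ∈ closure {q | (⟨y, q⟩ : Tr o) ∈ A}
  · obtain ⟨B, h2, h3, h4⟩ := whyburn_M hz hN _ r h1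
    refine ⟨(fun q : M => (⟨y, q⟩ : Tr o)) '' B, ?_, ?_,
      image_closure_subset_closure_image (continuous_slice y) ⟨r, h3, rfl⟩, ?_⟩
    · rintro _ ⟨q, hq, rfl⟩
      exact h2 hq
    · rintro _ ⟨q, -, rfl⟩
      exact List.suffix_rfl
    · intro z hz _
      have h5 := closure_minimal (t := {x : Tr o | x.y = y ∧ x.r ∈ closure B}) (by
        rintro _ ⟨q, hq, rfl⟩
        exact ⟨rfl, subset_closure hq⟩) (isClosed_slice y isClosed_closure) hz
      obtain ⟨a, b⟩ := z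
      obtain ⟨rfl, h6⟩ := h5
      rcases h4 b h6 with h7 | rfl
      · exact Or.inl h7
      · exact Or.inr rfl
  obtain ⟨l, hl1, hl2⟩ := exists_level hz r
  have h2 : ∀ q : M, ∃ t ⊆ {i : ℕ | Good A ⟨(q, i) :: y, o⟩},
      t.encard = min {i : ℕ | Good A ⟨(q, i) :: y, o⟩}.encard (l q) := fun q =>
    exists_subset_encard_eq (min_le_left _ _)
  choose t ht1 ht2 using h2
  have h3 : ∀ x, Good A x → ∃ B ⊆ A, (∀ b ∈ B, x.y <:+ b.y) ∧ x ∈ closure B ∧
    ∀ z ∈ closure B, z.r ≠ o → z ∈ A ∨ z = x := fun x hx => hx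
  choose! B hB using h3
  have hcone : ∀ q, ∀ i ∈ t q, ∀ z ∈ closure (B ⟨(q, i) :: y, o⟩), ((q, i) :: y) <:+ z.y :=
    fun q i hi z hz => closure_minimal (t := {x : Tr o | ((q, i) :: y) <:+ x.y})
      (hB _ (ht1 q hi)).2.1 (isClopen_cone _).1 hz
  let C : Set (Tr o) := {z | z = ⟨y, r⟩ ∨ ∃ q, ∃ i ∈ t q, z ∈ closure (B ⟨(q, i) :: y, o⟩)}
  have hC : IsClosed C := by
    refine ⟨fun z hz => ?_⟩
    by_cases h4 : y <:+ z.y
    · by_cases h5 : z.y = y
      · obtain ⟨a, b⟩ := z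
        obtain rfl : a = y := h5
        obtain ⟨O, hO, k, hk⟩ := hl1 b fun h => hz (Or.inl (by rw [h]))
        refine ⟨O, hO, k, fun q hq => ⟨?_, ?_⟩⟩
        · rintro (h6 | ⟨q', i, hi, h6⟩)
          · exact (hk q hq).1 (congrArg Tr.r h6)
          · have := (hcone q' i hi _ h6).length_le
            simp at this
        · refine le_trans (encard_le_encard (t := t q) fun i hi => ?_)
            ((ht2 q).le.trans ((min_le_right _ _).trans (hk q hq).2))
          rcases not_not.1 hi with h6 | ⟨q', i', hi', h6⟩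
          · have := congrArg (fun x : Tr o => x.y.length) h6
            simp at this
          · have := (hcone q' i' hi' _ h6).eq_of_length (by simp)
            simp only [List.cons.injEq, Prod.mk.injEq, and_true] at this
            obtain ⟨rfl, rfl⟩ := this
            exact hi'
      · obtain ⟨⟨q0, i0⟩, h6⟩ : ∃ a, (a :: y) <:+ z.y := by
          obtain ⟨s, hs⟩ := h4
          rcases List.eq_nil_or_concat s with rfl | ⟨s', a, rfl⟩
          · exact absurd hs.symm h5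
          · exact ⟨a, s', by rw [← hs]; simp⟩
        have h7 : IsOpen ({x : Tr o | ((q0, i0) :: y) <:+ x.y} \
            ⋃ _ : i0 ∈ t q0, closure (B ⟨(q0, i0) :: y, o⟩)) :=
          (isClopen_cone _).2.sdiff (isClosed_iUnion_of_finite fun _ => isClosed_closure)
        refine (h7 z ⟨h6, fun h => ?_⟩).mono ?_
        · obtain ⟨hi, h8⟩ := mem_iUnion.1 h
          exact hz (Or.inr ⟨q0, i0, hi, h8⟩)
        · rintro w ⟨h8, h9⟩ (h10 | ⟨q', i', hi', h10⟩)
          · rw [h10] at h8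
            have := List.IsSuffix.length_le h8
            simp at this
          · have := (List.suffix_of_suffix_length_le (hcone q' i' hi' _ h10) h8
              (by simp)).eq_of_length (by simp)
            simp only [List.cons.injEq, Prod.mk.injEq, and_true] at this
            obtain ⟨rfl, rfl⟩ := this
            exact h9 (mem_iUnion.2 ⟨hi', h10⟩)
    · refine ((isClopen_cone y).1.isOpen_compl z h4).mono ?_
      rintro w hw (h10 | ⟨q', i', hi', h10⟩)
      · exact hw (by rw [h10]; exact List.suffix_rfl)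
      · exact hw ((List.suffix_cons _ _).trans (hcone q' i' hi' _ h10))
  refine ⟨⋃ q, ⋃ i ∈ t q, B ⟨(q, i) :: y, o⟩, ?_, ?_, ?_, ?_⟩
  · exact iUnion_subset fun q => iUnion₂_subset fun i hi => (hB _ (ht1 q hi)).1
  · intro b hb
    obtain ⟨q, hq⟩ := mem_iUnion.1 hb
    obtain ⟨i, hi, h4⟩ := mem_iUnion₂.1 hq
    exact (List.suffix_cons _ _).trans (hcone q i hi _ (subset_closure h4))
  · by_contra hc
    obtain ⟨O, hO, k, hk⟩ := isOpen_tr.1 isClosed_closure.isOpen_compl _ hc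
    obtain ⟨q, ⟨⟨hq1, hq2⟩, hq3⟩, h4⟩ := h _ (inter_mem (inter_mem hO (hl2 k))
      (isClosed_closure.isOpen_compl.mem_nhds h1)) k
    rcases h4 with h4 | h4
    · exact hq3 (subset_closure h4)
    · have h5 : (k : ℕ∞) < (t q).encard := by rw [ht2]; exact lt_min h4 hq2
      refine absurd (le_trans (encard_le_encard fun i hi => ?_) (hk q hq1).2) (not_le.2 h5)
      refine not_not.2 (closure_mono ?_ (hB _ (ht1 q hi)).2.2.1)
      exact subset_iUnion_of_subset q (subset_biUnion_of_mem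
        (u := fun i => B ⟨(q, i) :: y, o⟩) hi)
  · intro z hz hzo
    have h4 : z ∈ C := closure_minimal (iUnion_subset fun q => iUnion₂_subset fun i hi w hw =>
      Or.inr ⟨q, i, hi, subset_closure hw⟩) hC hz
    rcases h4 with h4 | ⟨q, i, hi, h4⟩
    · exact Or.inr h4
    · rcases (hB _ (ht1 q hi)).2.2.2 z h4 hzo with h5 | h5
      · exact Or.inl h5
      · exact absurd (congrArg Tr.r h5) hzo

theorem good_of_closure [Countable M] [T1Space M] (hz : ZeroDim M)
    (hN : ∀ D : Set M, interior D = ∅ → ∀ x, x ∉ closure (D \ {x})) {A : Set (Tr o)}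
    {x : Tr o} (hx : x ∈ closure A) : Good A x := by
  have hK : IsClosed {x : Tr o | ZCl A x.y x.r} := by
    refine ⟨fun z hz0 => ?_⟩
    have hz' : ¬ ZCl A z.y z.r := hz0
    unfold ZCl at hz'
    push Not at hz'
    obtain ⟨O, hO, k, hk⟩ := hz'
    refine ⟨interior O, interior_mem_nhds.2 hO, k, fun q hq => ⟨fun h => ?_, ?_⟩⟩
    · obtain ⟨q', h1, h2⟩ := h O (mem_interior_iff_mem_nhds.1 hq) k
      rcases h2 with h2 | h2
      · exact (hk q' h1).1 h2
      · exact absurd (hk q' h1).2 (not_le.2 h2)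
    · exact le_trans (encard_le_encard fun i hi => good_of_zcl hz hN (not_not.1 hi))
        (hk q (interior_subset hq)).2
  exact good_of_zcl hz hN (closure_minimal (fun a ha O hO k =>
    ⟨a.r, mem_of_mem_nhds hO, Or.inl ha⟩) hK hx)

/-- The space: the tree without the gluing points. -/
abbrev Sp (o : M) : Type := {x : Tr o // x.r ≠ o}

theorem whyburn_sp [Countable M] [T1Space M] (hz : ZeroDim M)
    (hN : ∀ D : Set M, interior D = ∅ → ∀ x, x ∉ closure (D \ {x})) : Whyburn (Sp o) := by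
  rintro A p ⟨h1, h2⟩
  obtain ⟨B, h3, -, h4, h5⟩ := good_of_closure hz hN (closure_subtype.1 h1)
  have h6 : Subtype.val '' (Subtype.val ⁻¹' B : Set (Sp o)) = B := by
    refine image_preimage_eq_of_subset fun b hb => ?_
    obtain ⟨a, -, rfl⟩ := h3 hb
    exact ⟨a, rfl⟩
  refine ⟨Subtype.val ⁻¹' B, fun b hb => ?_, ?_⟩
  · obtain ⟨a, ha, h7⟩ := h3 hb
    rwa [← Subtype.ext h7]
  · ext z
    constructor
    · rintro ⟨h7, h8⟩
      rw [closure_subtype, h6] at h7
      rcases h5 _ h7 z.2 with ⟨a, ha, h9⟩ | h9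
      · exact absurd (Subtype.ext h9 ▸ ha) h8
      · exact Subtype.ext h9
    · rintro rfl
      exact ⟨by rw [closure_subtype, h6]; exact h4, h2⟩

theorem regular_of_zeroDim {X : Type} [TopologicalSpace X] (hz : ZeroDim X) : RegularSpace X := by
  refine RegularSpace.of_exists_mem_nhds_isClosed_subset fun x s hs => ?_
  obtain ⟨V, h1, h2, h3⟩ := hz _ x isOpen_interior (mem_interior_iff_mem_nhds.2 hs)
  exact ⟨V, h1.2.mem_nhds h2, h1.1, h3.trans interior_subset⟩

theorem exists_deep (hinf : ∀ U : Set M, IsOpen U → U.Nonempty → U.Infinite) {U : Set (Tr o)}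
    (hU : IsOpen U) (hne : U.Nonempty) (n : ℕ) : ∃ x ∈ U, n ≤ x.y.length ∧ x.r ≠ o := by
  have h1 : ∃ x ∈ U, n ≤ x.y.length := by
    induction n with
    | zero => exact hne.imp fun x hx => ⟨hx, Nat.zero_le _⟩
    | succ n ih =>
      obtain ⟨x, hx, h1⟩ := ih
      obtain ⟨O, hO, k, hk⟩ := hU x hx
      obtain ⟨i, hi⟩ := (finite_of_encard_le_coe (hk x.r (mem_of_mem_nhds hO)).2).infinite_compl
        |>.nonempty
      exact ⟨_, not_not.1 hi, by simpa using h1⟩
  obtain ⟨x, hx, h1⟩ := h1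
  obtain ⟨q, hq1, hq2⟩ := (hinf _ (hU.preimage (continuous_slice x.y))
    ⟨x.r, hx⟩).exists_notMem_finite (finite_singleton o)
  exact ⟨⟨x.y, q⟩, hq1, h1, hq2⟩

theorem not_dSeparable_sp [T1Space M] (hinf : ∀ U : Set M, IsOpen U → U.Nonempty → U.Infinite)
    (hN : ∀ D : Set M, interior D = ∅ → ∀ x, x ∉ closure (D \ {x})) : ¬ DSeparable (Sp o) := by
  intro h
  obtain ⟨F, hF, hd⟩ := h (fun n => {x | n ≤ x.1.y.length}) (by
    intro n x
    rw [closure_subtype, mem_closure_iff]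
    intro U hU hx
    obtain ⟨z, h1, h2, h3⟩ := exists_deep hinf hU ⟨_, hx⟩ n
    exact ⟨z, h1, ⟨z, h3⟩, h2, rfl⟩)
  have hint : ∀ n y, interior {q : M | (⟨y, q⟩ : Tr o) ∈ Subtype.val '' F n} = ∅ := by
    intro n y
    rw [eq_empty_iff_forall_notMem]
    intro q hq
    obtain ⟨a, ha, ha'⟩ := interior_subset hq
    have := (hF n).2
    have h1 : IsOpen ({⟨a, ha⟩} : Set (F n)) := isOpen_discrete _
    obtain ⟨V, hV, h2⟩ := isOpen_induced_iff.1 h1
    obtain ⟨V', hV', rfl⟩ := isOpen_induced_iff.1 hV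
    have h3 : (a : Tr o) ∈ V' := by
      have : (⟨a, ha⟩ : F n) ∈ ({⟨a, ha⟩} : Set (F n)) := rfl
      rw [← h2] at this
      exact this
    refine hinf _ (isOpen_interior.inter (hV'.preimage (continuous_slice y)))
      ⟨q, hq, by rw [mem_preimage, ← ha']; exact h3⟩ ((finite_singleton q).subset ?_)
    rintro q' ⟨h4, h5⟩
    obtain ⟨b, hb, hb'⟩ := interior_subset h4
    have h6 : (⟨b, hb⟩ : F n) ∈ ({⟨a, ha⟩} : Set (F n)) := by
      rw [← h2]
      change (b : Tr o) ∈ V'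
      rw [hb']
      exact h5
    have h7 : b = a := congrArg Subtype.val h6
    rw [h7, ha'] at hb'
    exact (congrArg Tr.r hb').symm
  have hcl : ∀ D : Set M, interior D = ∅ → IsClosed D := by
    intro D hD
    refine closure_subset_iff_isClosed.1 fun x hx => ?_
    by_contra hc
    refine hN D hD x ?_
    rwa [sdiff_singleton_eq_self hc]
  have hclosed : IsClosed (Subtype.val '' ⋃ n, F n) := by
    refine ⟨fun z hz => ⟨⋂ n ∈ Iic z.y.length,
      {q : M | (⟨z.y, q⟩ : Tr o) ∈ Subtype.val '' F n}ᶜ, ?_, 0, fun q hq => ⟨?_, ?_⟩⟩⟩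
    · refine (biInter_mem (finite_Iic _)).2 fun n _ =>
        (hcl _ (hint n z.y)).isOpen_compl.mem_nhds ?_
      rintro ⟨a, ha, h1⟩
      exact hz ⟨a, mem_iUnion.2 ⟨n, ha⟩, h1⟩
    · rintro ⟨a, ha, h1⟩
      obtain ⟨n, hn⟩ := mem_iUnion.1 ha
      have h2 : n ≤ a.1.y.length := (hF n).1 hn
      rw [h1] at h2
      exact mem_iInter₂.1 hq n h2 ⟨a, hn, h1⟩
    · rw [Nat.cast_zero, nonpos_iff_eq_zero, encard_eq_zero, eq_empty_iff_forall_notMem]
      intro i hi
      obtain ⟨a, -, h1⟩ := not_not.1 hi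
      exact a.2 (congrArg Tr.r h1)
  have h1 : ({o}ᶜ : Set M) ⊆ {q : M | (⟨[], q⟩ : Tr o) ∈ Subtype.val '' F 0} := by
    intro q hq
    have h2 := closure_subtype.1 (hd ⟨⟨[], q⟩, hq⟩)
    rw [hclosed.closure_eq] at h2
    obtain ⟨a, ha, h3⟩ := h2
    obtain ⟨n, hn⟩ := mem_iUnion.1 ha
    have h4 : n ≤ a.1.y.length := (hF n).1 hn
    rw [h3] at h4
    obtain rfl : n = 0 := by simpa using h4
    exact ⟨a, hn, h3⟩
  have h2 := interior_maximal h1 isOpen_compl_singleton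
  rw [hint] at h2
  obtain ⟨q, -, hq⟩ := (hinf univ isOpen_univ ⟨o, trivial⟩).exists_notMem_finite
    (finite_singleton o)
  exact h2 hq

theorem exists_example : ∃ (X : Type) (_ : TopologicalSpace X), Countable X ∧ T35Space X ∧
    Whyburn X ∧ TopologicalSpace.SeparableSpace X ∧ SmallDSeparable X ∧ ¬ DSeparable X := by
  obtain ⟨M, _, _, ⟨o⟩, _, hz, hinf, hN⟩ := exists_M
  have := regular_of_zeroDim (zeroDim_tr (o := o) hz)
  have : NormalSpace (Sp o) := NormalSpace.of_regularSpace_lindelofSpace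
  refine ⟨Sp o, inferInstance, inferInstance, inferInstance, whyburn_sp hz hN, inferInstance, ?_,
    not_dSeparable_sp hinf hN⟩
  obtain ⟨f, hf⟩ := exists_injective_nat (Sp o)
  refine ⟨fun n => f ⁻¹' {n}, fun n => ?_, fun x => subset_closure (mem_iUnion.2 ⟨f x, rfl⟩)⟩
  have : Subsingleton (f ⁻¹' {n}) := ⟨fun a b => Subtype.ext (hf (a.2.trans b.2.symm))⟩
  infer_instance

end Pool.Agent.H208Z.Why
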